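import Pool.Agent.H802.TA.P2

/-! Formal consequences: two out of three, homotopy invariance, contractibility of categories. -/

universe w

open CategoryTheory MonoidalCategory Simplicial HomotopicalAlgebra Limits

namespace Pool.Agent.H802.TA

theorem HoHom.pre_eq_of_htpy {X Y : SSet.{w}} {f g : X ⟶ Y} (H : Relation.EqvGen Htpy f g)
    (Z : SSet.{w}) : HoHom.pre f Z = HoHom.pre g Z := HoHom.pre_eq H Z

theorem we_congr {X Y : SSet.{w}} {f g : X ⟶ Y} (H : Relation.EqvGen Htpy f g) :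
    WE f ↔ WE g := by
  constructor
  · intro h Z _; rw [← HoHom.pre_eq_of_htpy H]; exact h Z
  · intro h Z _; rw [HoHom.pre_eq_of_htpy H]; exact h Z

/-- Zigzags of natural transformations. -/
abbrev NZ {A B : Type w} [SmallCategory A] [SmallCategory B] (F G : A ⥤ B) : Prop :=
  Relation.EqvGen (fun F G : A ⥤ B => Nonempty (F ⟶ G)) F G

theorem NZ.of {A B : Type w} [SmallCategory A] [SmallCategory B] {F G : A ⥤ B} (a : F ⟶ G) :
    NZ F G := .rel _ _ ⟨a⟩

theorem NZ.htpy (h2a : Stm2a.{w}) {A B : Type w} [SmallCategory A] [SmallCategory B]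
    {F G : A ⥤ B} (h : NZ F G) : Relation.EqvGen Htpy (nerveMap F) (nerveMap G) := by
  induction h with
  | rel _ _ h => exact .rel _ _ (h2a h.some)
  | refl => exact .refl _
  | symm _ _ _ ih => exact ih.symm
  | trans _ _ _ _ _ ih1 ih2 => exact ih1.trans _ _ _ ih2

theorem nerveMap_comp' {A B C : Type w} [SmallCategory A] [SmallCategory B] [SmallCategory C]
    (F : A ⥤ B) (G : B ⥤ C) : nerveMap (F ⋙ G) = nerveMap F ≫ nerveMap G := rfl

theorem nerveMap_id' (A : Type w) [SmallCategory A] : nerveMap (𝟭 A) = 𝟙 (nerve A) := rfl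

/-- Homotopy equivalences of categories. -/
theorem we_of_nz (h2a : Stm2a.{w}) {A B : Type w} [SmallCategory A] [SmallCategory B]
    (F : A ⥤ B) (G : B ⥤ A) (h1 : NZ (F ⋙ G) (𝟭 A)) (h2 : NZ (G ⋙ F) (𝟭 B)) :
    WE (nerveMap F) :=
  we_of_htpy _ (nerveMap G) (h1.htpy h2a) (h2.htpy h2a)

theorem wcon_iff {X Y : SSet.{w}} {f : X ⟶ Y} (hf : WE f) : WCon X ↔ WCon Y := by
  have e : f ≫ SSet.stdSimplex.isTerminalObj₀.from Y = SSet.stdSimplex.isTerminalObj₀.from X :=
    SSet.stdSimplex.isTerminalObj₀.hom_ext _ _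
  unfold WCon
  rw [← e]
  exact ⟨fun h => hf.of_comp_left h, fun h => hf.comp h⟩

theorem wcon_of_nz (h2a : Stm2a.{w}) {A B : Type w} [SmallCategory A] [SmallCategory B]
    (F : A ⥤ B) (G : B ⥤ A) (h1 : NZ (F ⋙ G) (𝟭 A)) (h2 : NZ (G ⋙ F) (𝟭 B)) :
    WCon (nerve A) ↔ WCon (nerve B) := wcon_iff (we_of_nz h2a F G h1 h2)

/-- A category whose identity is connected to a constant functor is weakly contractible. -/
theorem wcon_of_const (h2a : Stm2a.{w}) (h2b : Stm2b.{w}) {A : Type w} [SmallCategory A] (a : A)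
    (h : NZ ((Functor.const A).obj a) (𝟭 A)) : WCon (nerve A) := by
  let F : A ⥤ PUnit.{w + 1} := (Functor.const A).obj PUnit.unit
  let G : PUnit.{w + 1} ⥤ A := (Functor.const _).obj a
  refine (wcon_of_nz h2a F G ?_ ?_).2 (h2b (t := PUnit.unit) ?_)
  · exact h
  · exact .refl _
  · exact IsTerminal.ofUniqueHom (fun _ => 𝟙 _) (fun _ _ => Subsingleton.elim _ _)

end Pool.Agent.H802.TA
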