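import Mathlib

/-! Quillen's Theorem A for small categories, with weak homotopy equivalences of simplicial sets
defined through maps into Kan complexes (Kerodon 3.1.6.12, 3.1.6.17).
Project of helper802 for MP_64c6ca_gt: definitions and the exact statements of the pieces. -/

universe u

open CategoryTheory MonoidalCategory Simplicial HomotopicalAlgebra Limits

namespace Pool.Agent.H802.TA

/-- There is a simplicial homotopy from `f` to `g`. -/
def Htpy {X Z : SSet.{u}} (f g : X ⟶ Z) : Prop :=
  ∃ h : X ⊗ Δ[1] ⟶ Z, SSet.ι₀ ≫ h = f ∧ SSet.ι₁ ≫ h = g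

/-- Homotopy classes of maps (the set of components of the simplicial mapping space). -/
def HoHom (X Z : SSet.{u}) : Type u := Quot (fun f g : X ⟶ Z => Htpy f g)

/-- Precomposition on homotopy classes. -/
def HoHom.pre {X Y : SSet.{u}} (f : X ⟶ Y) (Z : SSet.{u}) : HoHom Y Z → HoHom X Z :=
  Quot.map (fun g => f ≫ g) (fun g g' ⟨h, h0, h1⟩ =>
    ⟨(f ▷ Δ[1]) ≫ h, by rw [← h0]; rfl, by rw [← h1]; rfl⟩)

/-- Weak homotopy equivalence of simplicial sets: precomposition is bijective on homotopy classes
of maps to every Kan complex. -/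
def WE {X Y : SSet.{u}} (f : X ⟶ Y) : Prop :=
  ∀ (Z : SSet.{u}) [SSet.KanComplex Z], Function.Bijective (HoHom.pre f Z)

/-- Weakly contractible simplicial sets. -/
def WCon (X : SSet.{u}) : Prop := WE (SSet.stdSimplex.isTerminalObj₀.from X)

/-- The category obtained from `C` by adding a chain `0 < 1 < ... < q` above it
(the join of `C` and the ordinal `[q]`). -/
inductive Cn (C : Type u) (q : ℕ) : Type u where
  | lo (c : C)
  | hi (j : Fin (q + 1))

/-- Morphisms of `Cn C q`. -/
def Cn.Hom {C : Type u} [SmallCategory C] {q : ℕ} (x y : Cn C q) : Type u :=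
  match x, y with
  | .lo c, .lo d => c ⟶ d
  | .lo _, .hi _ => PUnit
  | .hi _, .lo _ => PEmpty
  | .hi j, .hi k => ULift (PLift (j ≤ k))

instance {C : Type u} [SmallCategory C] {q : ℕ} : SmallCategory (Cn C q) where
  Hom := Cn.Hom
  id
    | .lo c => 𝟙 c
    | .hi _ => ⟨⟨le_rfl⟩⟩
  comp {x y z} f g := match x, y, z, f, g with
    | .lo _, .lo _, .lo _, f, g => (f ≫ g :)
    | .lo _, .lo _, .hi _, _, _ => PUnit.unit
    | .lo _, .hi _, .hi _, _, _ => PUnit.unit
    | .hi _, .hi _, .hi _, f, g => ⟨⟨f.down.down.trans g.down.down⟩⟩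
  id_comp {x y} f := by
    cases x <;> cases y
    · exact Category.id_comp _
    · rfl
    · exact f.elim
    · rfl
  comp_id {x y} f := by
    cases x <;> cases y
    · exact Category.comp_id _
    · rfl
    · exact f.elim
    · rfl
  assoc {w x y z} f g h := by
    cases w <;> cases x <;> cases y <;> cases z <;>
      first
      | exact Category.assoc _ _ _
      | rfl
      | exact PEmpty.elim f
      | exact PEmpty.elim g
      | exact PEmpty.elim h

/-- The simplices of the nerve of `Cn C q` that miss some element of the chain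
(the join of the nerve of `C` and the boundary of `Δ[q]`). -/
def bd (C : Type u) [SmallCategory C] (q : ℕ) : (nerve (Cn C q)).Subcomplex where
  obj n := { s | ∃ j : Fin (q + 1), ∀ i, s.obj i ≠ Cn.hi j }
  map {n m} f s hs := by
    obtain ⟨j, hj⟩ := hs
    exact ⟨j, fun i => hj _⟩

/-- The collage (mapping cylinder) category of a functor. -/
inductive Cyl {A B : Type u} [SmallCategory A] [SmallCategory B] (F : A ⥤ B) : Type u where
  | lo (a : A)
  | hi (b : B)

/-- Morphisms of the mapping cylinder. -/
def Cyl.Hom {A B : Type u} [SmallCategory A] [SmallCategory B] {F : A ⥤ B}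
    (x y : Cyl F) : Type u :=
  match x, y with
  | .lo a, .lo a' => a ⟶ a'
  | .lo a, .hi b => F.obj a ⟶ b
  | .hi _, .lo _ => PEmpty
  | .hi b, .hi b' => b ⟶ b'

instance {A B : Type u} [SmallCategory A] [SmallCategory B] {F : A ⥤ B} :
    SmallCategory (Cyl F) where
  Hom := Cyl.Hom
  id
    | .lo a => 𝟙 a
    | .hi b => 𝟙 b
  comp {x y z} f g := match x, y, z, f, g with
    | .lo _, .lo _, .lo _, f, g => (f ≫ g :)
    | .lo _, .lo _, .hi _, f, g => (F.map f ≫ g :)
    | .lo _, .hi _, .hi _, f, g => (f ≫ g :)
    | .hi _, .hi _, .hi _, f, g => (f ≫ g :)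
  id_comp {x y} f := by
    cases x <;> cases y
    · exact Category.id_comp _
    · exact (congrArg (· ≫ f) (F.map_id _)).trans (Category.id_comp _)
    · exact f.elim
    · exact Category.id_comp _
  comp_id {x y} f := by
    cases x <;> cases y
    · exact Category.comp_id _
    · exact Category.comp_id _
    · exact f.elim
    · exact Category.comp_id _
  assoc {w x y z} f g h := by
    cases w <;> cases x <;> cases y <;> cases z <;>
      first
      | exact Category.assoc _ _ _
      | exact (congrArg (· ≫ h) (F.map_comp _ _)).trans (Category.assoc _ _ _)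
      | exact PEmpty.elim f
      | exact PEmpty.elim g
      | exact PEmpty.elim h

/-- The inclusion of the source in the mapping cylinder. -/
def Cyl.inLo {A B : Type u} [SmallCategory A] [SmallCategory B] (F : A ⥤ B) : A ⥤ Cyl F where
  obj a := .lo a
  map f := f
  map_id _ := rfl
  map_comp _ _ := rfl

/-- The inclusion of the target in the mapping cylinder. -/
def Cyl.inHi {A B : Type u} [SmallCategory A] [SmallCategory B] (F : A ⥤ B) : B ⥤ Cyl F where
  obj b := .hi b
  map f := f
  map_id _ := rfl
  map_comp _ _ := rfl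

/-! ### Statements of the pieces -/

/-- P1a: for a monomorphism, weak equivalence means lifting against
`Map(Δ[n],Z) → Map(∂Δ[n],Z)` for all Kan complexes `Z`. -/
def Stm1a : Prop := ∀ {X Y : SSet.{u}} (i : X ⟶ Y) [Mono i], WE i ↔
  ∀ (Z : SSet.{u}) [SSet.KanComplex Z] (n : ℕ),
    HasLiftingProperty i ((MonoidalClosed.pre (SSet.boundary.{u} n).ι).app Z)

/-- P1b: weak equivalences which are monomorphisms are stable under pushouts. -/
def Stm1b : Prop := ∀ {X Y X' Y' : SSet.{u}} {f : X ⟶ X'} {i : X ⟶ Y} {j : X' ⟶ Y'}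
  {g : Y ⟶ Y'}, IsPushout f i j g → Mono i → WE i → Mono j ∧ WE j

/-- P2a: natural transformations give homotopies. -/
def Stm2a : Prop := ∀ {A B : Type u} [SmallCategory A] [SmallCategory B] {F G : A ⥤ B}
  (_ : F ⟶ G), Htpy (nerveMap F) (nerveMap G)

/-- P2b: a category with a terminal object has weakly contractible nerve. -/
def Stm2b : Prop := ∀ {A : Type u} [SmallCategory A] {t : A} (_ : IsTerminal t), WCon (nerve A)

/-- P3: the join lemma. -/
def Stm3 : Prop := ∀ (C : Type u) [SmallCategory C], WCon (nerve C) → ∀ q : ℕ,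
  WE (bd C q).ι

/-- P4: lifting against the mapping cylinder of a functor. -/
def Stm4 : Prop := ∀ {A B : Type u} [SmallCategory A] [SmallCategory B] (F : A ⥤ B)
  {U V : SSet.{u}} (p : U ⟶ V),
  (∀ (b : B) (q : ℕ), HasLiftingProperty (bd (CostructuredArrow F b) q).ι p) →
    HasLiftingProperty (nerveMap (Cyl.inLo F)) p

/-- Quillen's Theorem A. -/
def ThmA : Prop := ∀ {A B : Type u} [SmallCategory A] [SmallCategory B] (F : A ⥤ B),
  (∀ b : B, WCon (nerve (CostructuredArrow F b))) → WE (nerveMap F)

end Pool.Agent.H802.TA
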