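import Pool.Agent.H802.TA.Push

/-! The category of pointed objects, its projections, and the zigzag `D ← El D → Ob D`. -/

universe u

open CategoryTheory Limits

namespace Pool.Agent.H802.TA

/-- Pointed weakly contractible posets over `D`. -/
structure El (D : Type (u + 1)) [SmallCategory D] : Type (u + 1) where
  /-- the object -/
  X : Ob D
  /-- the point -/
  x : X.K

variable {D : Type (u + 1)} [SmallCategory D]

/-- Morphisms which do not raise the point too much. -/
structure El.Hom (a b : El D) : Type (u + 1) where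
  /-- the morphism -/
  p : a.X ⟶ b.X
  pt : p.f a.x ≤ b.x

theorem El.Hom.ext' {a b : El D} {m n : El.Hom a b} (h : m.p = n.p) : m = n := by
  cases m; cases n; cases h; rfl

instance : SmallCategory (El D) where
  Hom a b := El.Hom a b
  id a := ⟨𝟙 a.X, le_rfl⟩
  comp m n := ⟨m.p ≫ n.p, (n.p.f.monotone m.pt).trans n.pt⟩
  id_comp _ := rfl
  comp_id _ := rfl
  assoc _ _ _ := rfl

theorem el_ext {a b : El D} {m n : a ⟶ b} (h : El.Hom.p m = El.Hom.p n) : m = n :=
  El.Hom.ext' h

/-- Forget the point. -/
def proj : El D ⥤ Ob D where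
  obj a := a.X
  map m := m.p

/-- Evaluate at the point. -/
def ev : El D ⥤ D where
  obj a := a.X.F.obj a.x
  map {a b} m := eqToHom (hom_obj m.p a.x) ≫ b.X.F.map (homOfLE m.pt)
  map_id a := by
    exact (congrArg (fun q => eqToHom (hom_obj (𝟙 a.X) a.x) ≫ q) (a.X.F.map_id a.x)).trans
      (Category.comp_id _)
  map_comp {a b c} m n := by
    have e : c.X.F.map (homOfLE ((n.p.f.monotone m.pt).trans n.pt)) =
        c.X.F.map (homOfLE (n.p.f.monotone m.pt)) ≫ c.X.F.map (homOfLE n.pt) := by
      rw [← Functor.map_comp]; rfl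
    have h := hom_map n.p m.pt
    change eqToHom _ ≫ c.X.F.map (homOfLE ((n.p.f.monotone m.pt).trans n.pt)) = _
    rw [Category.assoc, ← Category.assoc (b.X.F.map _), h, e]
    simp

/-! ### The fibres of `proj` -/

theorem wcon_proj (H : Hyp.{u}) (L : Ob D) :
    WCon (nerve (CostructuredArrow (proj (D := D)) L)) := by
  let R : CostructuredArrow (proj (D := D)) L ⥤ ULift.{u + 1} L.K :=
    { obj := fun c => ⟨Ob.Hom.f c.hom c.left.x⟩
      map := fun {c d} m => homOfLE (by
        have w := congrArg (fun q : c.left.X ⟶ L => Ob.Hom.f q c.left.x) (CostructuredArrow.w m)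
        change Ob.Hom.f c.hom c.left.x ≤ Ob.Hom.f d.hom d.left.x
        exact w.symm.le.trans ((Ob.Hom.f d.hom).monotone m.left.pt))
      map_id := fun _ => Subsingleton.elim _ _
      map_comp := fun _ _ => Subsingleton.elim _ _ }
  let I : ULift.{u + 1} L.K ⥤ CostructuredArrow (proj (D := D)) L :=
    { obj := fun l => CostructuredArrow.mk (S := proj) (Y := (⟨L, l.down⟩ : El D)) (𝟙 L)
      map := fun {l l'} h => CostructuredArrow.homMk (⟨𝟙 L, show l.down ≤ l'.down from (show l ≤ l' from leOfHom h)⟩ :
        El.Hom ⟨L, l.down⟩ ⟨L, l'.down⟩)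
        (Category.comp_id _)
      map_id := fun _ => by ext; rfl
      map_comp := fun _ _ => by ext; exact el_ext (Category.comp_id _).symm }
  refine (wcon_of_nz H.h2a R I ?_ ?_).2 L.asph
  · refine Relation.EqvGen.symm _ _ (NZ.of
      { app := fun c => CostructuredArrow.homMk
          (⟨c.hom, le_rfl⟩ : El.Hom c.left ⟨L, Ob.Hom.f c.hom c.left.x⟩) (Category.comp_id _)
        naturality := fun c d m => by
          ext
          refine el_ext ?_
          exact (CostructuredArrow.w m).trans (Category.comp_id _).symm })
  · exact NZ.of { app := fun l => homOfLE le_rfl, naturality := fun _ _ _ => Subsingleton.elim _ _ }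

/-! ### The fibres of `ev` -/

theorem aux_arrow {a b a' b' c' d : D} {F : a ⟶ b} {F' : a' ⟶ b'} {G' : b' ⟶ c'} {f' : c' ⟶ d}
    {f : b ⟶ d} {K' : a' ⟶ c'} (ea : a = a') (eb : b = b')
    (e1 : F ≫ eqToHom eb = eqToHom ea ≫ F') (w : (eqToHom eb ≫ G') ≫ f' = f)
    (e2 : K' = F' ≫ G') : Arrow.mk (K' ≫ f') = Arrow.mk (F ≫ f) := by
  subst ea; subst eb; subst e2; subst w
  simp only [eqToHom_refl, Category.comp_id, Category.id_comp] at e1 ⊢
  rw [e1, Category.assoc]

/-- The elements below a point. -/
def below (H : Hyp.{u}) (X : Ob D) (x : X.K) : Ob D where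
  K := {k : X.K // k ≤ x}
  F := (show Monotone (fun z : {k : X.K // k ≤ x} => z.1) from fun _ _ h => h).functor ⋙ X.F
  asph := ap_of_top H.h2b (⟨⟨x, le_rfl⟩⟩ : ULift.{u + 1} {k : X.K // k ≤ x}) (fun y => y.down.2)

/-- The elements below a point, and a new greatest element. -/
inductive Tp (X : Ob D) (x : X.K) : Type u where
  | lo (k : X.K) (h : k ≤ x)
  | hi

namespace Tp

variable {X : Ob D} {x : X.K}

/-- The order. -/
def le (a b : Tp X x) : Prop :=
  match a, b with
  | .lo k _, .lo l _ => k ≤ l
  | .lo _ _, .hi => True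
  | .hi, .lo _ _ => False
  | .hi, .hi => True

instance : PartialOrder (Tp X x) where
  le := le
  le_refl a := by
    cases a
    · exact le_refl (α := X.K) _
    · trivial
  le_trans a b c h1 h2 := by
    cases a <;> cases b <;> cases c <;>
      first
      | exact False.elim h1
      | exact False.elim h2
      | trivial
      | exact le_trans (α := X.K) h1 h2
  le_antisymm a b h1 h2 := by
    cases a <;> cases b <;>
      first
      | exact False.elim h1
      | exact False.elim h2
      | rfl
      | (have := le_antisymm (α := X.K) h1 h2; subst this; rfl)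

theorem not_hi_lo {k : X.K} {h : k ≤ x} : ¬ (hi : Tp X x) ≤ lo k h := fun h => h

/-- The functor. -/
def F {d : D} (f : X.F.obj x ⟶ d) : Tp X x ⥤ D where
  obj a := match a with
    | .lo k _ => X.F.obj k
    | .hi => d
  map {a b} m := match a, b, m with
    | .lo k _, .lo l _, m => X.F.map (homOfLE (show k ≤ l from leOfHom m))
    | .lo _ h, .hi, _ => X.F.map (homOfLE h) ≫ f
    | .hi, .lo _ _, m => (not_hi_lo (leOfHom m)).elim
    | .hi, .hi, _ => 𝟙 d
  map_id a := by
    cases a
    · exact X.F.map_id _
    · rfl
  map_comp {a b c} m n := by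
    cases a <;> cases b <;> cases c <;>
      first
      | exact (not_hi_lo (leOfHom m)).elim
      | exact (not_hi_lo (leOfHom n)).elim
      | exact X.F.map_comp _ _
      | exact (Category.comp_id _).symm
      | (dsimp only
         rw [← Category.assoc, ← Functor.map_comp]
         rfl)

end Tp

/-- Adding a new greatest element over `d`. -/
def tpOb (H : Hyp.{u}) (X : Ob D) (x : X.K) {d : D} (f : X.F.obj x ⟶ d) : Ob D where
  K := Tp X x
  F := Tp.F f
  asph := ap_of_top H.h2b (⟨.hi⟩ : ULift.{u + 1} (Tp X x)) (by
    rintro ⟨y⟩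
    cases y <;> exact trivial)

/-- The point over `d`. -/
def ptOb (H : Hyp.{u}) (d : D) : Ob D where
  K := PUnit
  F := (Functor.const _).obj d
  asph := ap_of_top H.h2b (⟨PUnit.unit⟩ : ULift.{u + 1} PUnit) (fun _ => le_of_eq rfl)

/-- Truncation below the point. -/
def T1 (H : Hyp.{u}) (d : D) :
    CostructuredArrow (ev (D := D)) d ⥤ CostructuredArrow (ev (D := D)) d where
  obj c := CostructuredArrow.mk (S := ev)
    (Y := (⟨below H c.left.X c.left.x, ⟨c.left.x, le_rfl⟩⟩ : El D)) c.hom
  map {c c'} m := CostructuredArrow.homMk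
    (⟨{ f := { toFun := fun k => ⟨m.left.p.f k.1, (m.left.p.f.monotone k.2).trans m.left.pt⟩
               monotone' := fun _ _ h => m.left.p.f.monotone h }
        comm := fun h => m.left.p.comm h }, m.left.pt⟩ :
      El.Hom ⟨below H c.left.X c.left.x, ⟨c.left.x, le_rfl⟩⟩
        ⟨below H c'.left.X c'.left.x, ⟨c'.left.x, le_rfl⟩⟩)
    (CostructuredArrow.w m)
  map_id _ := rfl
  map_comp _ _ := rfl

/-- Adding a new greatest element. -/
def T2 (H : Hyp.{u}) (d : D) :
    CostructuredArrow (ev (D := D)) d ⥤ CostructuredArrow (ev (D := D)) d where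
  obj c := CostructuredArrow.mk (S := ev)
    (Y := (⟨tpOb H c.left.X c.left.x c.hom, .hi⟩ : El D)) (𝟙 d)
  map {c c'} m := CostructuredArrow.homMk
    (⟨{ f :=
          { toFun := fun k => match k with
              | .lo k h => .lo (m.left.p.f k) ((m.left.p.f.monotone h).trans m.left.pt)
              | .hi => .hi
            monotone' := fun a b h => by
              cases a <;> cases b <;>
                first
                | exact False.elim h
                | exact m.left.p.f.monotone (show _ ≤ _ from h)
                | trivial }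
        comm := fun {a b} h => by
          cases a with
          | lo k hk =>
            cases b with
            | lo l hl => exact m.left.p.comm (show k ≤ l from h)
            | hi =>
              have w : (eqToHom (hom_obj m.left.p c.left.x) ≫
                c'.left.X.F.map (homOfLE m.left.pt)) ≫ c'.hom = c.hom := CostructuredArrow.w m
              have e1 := hom_map m.left.p hk
              have e2 : c'.left.X.F.map (homOfLE ((m.left.p.f.monotone hk).trans m.left.pt)) =
                  c'.left.X.F.map (homOfLE (m.left.p.f.monotone hk)) ≫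
                    c'.left.X.F.map (homOfLE m.left.pt) := by
                rw [← Functor.map_comp]; rfl
              change Arrow.mk (c'.left.X.F.map
                (homOfLE ((m.left.p.f.monotone hk).trans m.left.pt)) ≫ c'.hom) =
                  Arrow.mk (c.left.X.F.map (homOfLE hk) ≫ c.hom)
              exact aux_arrow _ _ e1 w e2
          | hi =>
            cases b with
            | lo l hl => exact False.elim h
            | hi => rfl }, trivial⟩ :
      El.Hom ⟨tpOb H c.left.X c.left.x c.hom, .hi⟩
        ⟨tpOb H c'.left.X c'.left.x c'.hom, .hi⟩)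
    (by
      change (eqToHom _ ≫ 𝟙 d) ≫ 𝟙 d = 𝟙 d
      rw [Category.comp_id, Category.comp_id]
      rfl)
  map_id c := by
    ext
    refine el_ext (hom_ext' (fun k => ?_))
    cases k <;> rfl
  map_comp m n := by
    ext
    refine el_ext (hom_ext' (fun k => ?_))
    cases k <;> rfl

theorem wcon_ev (H : Hyp.{u}) (d : D) :
    WCon (nerve (CostructuredArrow (ev (D := D)) d)) := by
  let c0 : CostructuredArrow (ev (D := D)) d :=
    CostructuredArrow.mk (S := ev) (Y := (⟨ptOb H d, PUnit.unit⟩ : El D)) (𝟙 d)
  refine wcon_of_const H.h2a H.h2b c0 ?_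
  have h1 : NZ (T1 H d) (𝟭 _) := NZ.of
    { app := fun c => CostructuredArrow.homMk
        (⟨{ f := { toFun := fun k => k.1, monotone' := fun _ _ h => h }
            comm := fun h => rfl }, le_rfl⟩ :
          El.Hom ⟨below H c.left.X c.left.x, ⟨c.left.x, le_rfl⟩⟩ c.left)
        (by
          change (eqToHom _ ≫ c.left.X.F.map (𝟙 _)) ≫ c.hom = c.hom
          have e := c.left.X.F.map_id c.left.x
          rw [e, Category.comp_id]
          exact Category.id_comp _)
      naturality := fun c c' m => by
        ext
        exact el_ext (hom_ext' (fun k => rfl)) }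
  have h2 : NZ (T1 H d) (T2 H d) := NZ.of
    { app := fun c => CostructuredArrow.homMk
        (⟨{ f := { toFun := fun k => .lo k.1 k.2, monotone' := fun _ _ h => h }
            comm := fun h => rfl }, trivial⟩ :
          El.Hom ⟨below H c.left.X c.left.x, ⟨c.left.x, le_rfl⟩⟩
            ⟨tpOb H c.left.X c.left.x c.hom, .hi⟩)
        (by
          change (eqToHom _ ≫ (c.left.X.F.map (𝟙 _) ≫ c.hom)) ≫ 𝟙 d = c.hom
          have e := c.left.X.F.map_id c.left.x
          rw [e, Category.comp_id]
          exact (Category.id_comp (𝟙 _ ≫ c.hom)).trans (Category.id_comp _))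
      naturality := fun c c' m => by
        ext
        exact el_ext (hom_ext' (fun k => rfl)) }
  have h3 : NZ ((Functor.const _).obj c0) (T2 H d) := NZ.of
    { app := fun c => CostructuredArrow.homMk
        (⟨{ f := { toFun := fun _ => .hi, monotone' := fun _ _ _ => trivial }
            comm := fun h => rfl }, trivial⟩ :
          El.Hom ⟨ptOb H d, PUnit.unit⟩ ⟨tpOb H c.left.X c.left.x c.hom, .hi⟩)
        (by
          change (eqToHom _ ≫ 𝟙 d) ≫ 𝟙 d = 𝟙 d
          rw [Category.comp_id, Category.comp_id]
          rfl)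
      naturality := fun c c' m => by
        ext
        exact el_ext (hom_ext' (fun k => rfl)) }
  exact h3.trans _ _ _ (h2.symm.trans _ _ _ h1)

/-- The zigzag. -/
theorem we_ev (H : Hyp.{u}) : WE (nerveMap (ev (D := D))) := H.hA _ (wcon_ev H)

theorem we_proj (H : Hyp.{u}) : WE (nerveMap (proj (D := D))) := H.hA _ (wcon_proj H)

end Pool.Agent.H802.TA
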