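import Pool.Agent.H802.TA.El

/-! Partial model categories and the final assembly. -/

universe u v w

open CategoryTheory Limits

namespace Pool.Agent.H802.TA

/-- A partial model category: a category `M` with a wide subcategory `W` of weak equivalences and
classes `C`, `F` of weak equivalences such that: two out of six; pushouts of maps in `C` along
all maps of `M` exist and lie in `C`; dually for `F`; functorial factorization in the category
of weak equivalences. -/
structure PartialModel (M : Type w) [Category.{v} M] where
  /-- weak equivalences -/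
  W : MorphismProperty M
  [mult : W.IsMultiplicative]
  /-- acyclic cofibrations -/
  C : MorphismProperty M
  /-- acyclic fibrations -/
  F : MorphismProperty M
  C_le : C ≤ W
  F_le : F ≤ W
  two_of_six : ∀ {a b c d : M} (r : a ⟶ b) (s : b ⟶ c) (t : c ⟶ d),
    W (r ≫ s) → W (s ≫ t) → W r ∧ W s ∧ W t ∧ W (r ≫ s ≫ t)
  hasPushout : ∀ {a b c : M} (f : a ⟶ b) (g : a ⟶ c), C f → HasPushout f g
  pushout_mem : ∀ {a b c d : M} {f : a ⟶ b} {g : a ⟶ c} {g' : b ⟶ d} {f' : c ⟶ d},
    IsPushout f g g' f' → C f → C f'
  hasPullback : ∀ {a b c : M} (f : a ⟶ b) (g : c ⟶ b), F f → HasPullback f g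
  pullback_mem : ∀ {a b c d : M} {f : a ⟶ b} {g : c ⟶ b} {g' : d ⟶ a} {f' : d ⟶ c},
    IsPullback g' f' f g → F f → F f'
  fact : Nonempty (MorphismProperty.FunctorialFactorizationData
    (C.inverseImage (wideSubcategoryInclusion W)) (F.inverseImage (wideSubcategoryInclusion W)))

attribute [instance] PartialModel.mult

/-- Equivalence of small categories in the Thomason model structure: a finite zigzag of functors
whose nerves are weak homotopy equivalences. -/
def ThEquiv (A B : Cat.{w, w}) : Prop :=
  Relation.EqvGen (fun X Y : Cat.{w, w} => ∃ F : X ⥤ Y, WE (nerveMap F)) A B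

variable {D : Type (u + 1)} [SmallCategory D]

/-- The partial model structure on weakly contractible posets over `D`. -/
def partialModel (H : Hyp.{u}) (D : Type (u + 1)) [SmallCategory D] : PartialModel (Ob D) where
  W := ⊤
  C := fun {a _} f => ∀ {c : Ob D} (g : a ⟶ c), HasPushout f g
  F := fun {_ b} f => ∀ {c : Ob D} (g : c ⟶ b), HasPullback f g
  C_le _ _ _ _ := trivial
  F_le _ _ _ _ := trivial
  two_of_six _ _ _ _ _ := ⟨trivial, trivial, trivial, trivial⟩
  hasPushout _ g h := h g
  pushout_mem {a b c d f g g' f'} sq h := by
    intro e k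
    have := h (g ≫ k)
    have s := IsPushout.of_hasPushout f (g ≫ k)
    have hw : f ≫ pushout.inl f (g ≫ k) = g ≫ (k ≫ pushout.inr f (g ≫ k)) := by
      rw [← Category.assoc]; exact s.w
    have s' : IsPushout f (g ≫ k) (g' ≫ sq.desc _ _ hw) (pushout.inr f (g ≫ k)) := by
      rw [sq.inl_desc]; exact s
    exact (IsPushout.of_top s' (sq.inr_desc _ _ hw) sq).hasPushout
  hasPullback _ g h := h g
  pullback_mem {a b c d f g g' f'} sq h := by
    intro e k
    have := h (k ≫ g)
    exact (IsPullback.of_right' (IsPullback.of_hasPullback f (k ≫ g)) sq).hasPullback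
  fact := ⟨
    { Z :=
        { obj := fun g => ⟨cyl H g.hom.hom⟩
          map := fun {g g'} φ => ⟨cylMap H g.hom.hom g'.hom.hom φ.left.hom φ.right.hom
            (congrArg (fun q => q.hom) φ.w), trivial⟩
          map_id := fun g => by
            apply WideSubcategory.hom_ext
            refine hom_ext' (fun x => ?_)
            cases x <;> rfl
          map_comp := fun f g => by
            apply WideSubcategory.hom_ext
            refine hom_ext' (fun x => ?_)
            cases x <;> rfl }
      i :=
        { app := fun g => ⟨dmL H (𝟙 _) g.hom.hom, trivial⟩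
          naturality := fun g g' φ => by
            apply WideSubcategory.hom_ext
            exact hom_ext' (fun x => rfl) }
      p :=
        { app := fun g => ⟨cylP H g.hom.hom, trivial⟩
          naturality := fun g g' φ => by
            apply WideSubcategory.hom_ext
            refine hom_ext' (fun x => ?_)
            cases x with
            | lf x => exact congrArg (fun q => Ob.Hom.f q.hom x) φ.w
            | md x => exact congrArg (fun q => Ob.Hom.f q.hom x) φ.w
            | rt x => rfl }
      fac := by
        refine NatTrans.ext (funext fun g => ?_)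
        apply WideSubcategory.hom_ext
        exact hom_ext' (fun x => rfl)
      hi := fun g c h => (isPushout_dm H h g.hom.hom).hasPushout
      hp := fun g c q => (isPullback_pb H g.hom.hom q).hasPullback }⟩

/-- The category of objects as the wide subcategory of all maps. -/
def toWide (H : Hyp.{u}) : Ob D ⥤ WideSubcategory (partialModel H D).W where
  obj X := ⟨X⟩
  map f := ⟨f, trivial⟩

theorem we_toWide (H : Hyp.{u}) : WE (nerveMap (toWide (D := D) H)) :=
  we_of_nz H.h2a _ (wideSubcategoryInclusion _) (.refl _) (.refl _)

/-- Every small category is Thomason equivalent to the category of weak equivalences of a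
partial model category (given Theorem A). -/
theorem main (H : Hyp.{u}) (D : Type (u + 1)) [SmallCategory D] :
    ∃ (M : Type (u + 1)) (_ : SmallCategory M) (P : PartialModel M),
      ThEquiv (Cat.of D) (Cat.of (WideSubcategory P.W)) := by
  refine ⟨Ob D, inferInstance, partialModel H D, ?_⟩
  have h1 : ThEquiv (Cat.of (El D)) (Cat.of D) := .rel _ _ ⟨ev, we_ev H⟩
  have h2 : ThEquiv (Cat.of (El D)) (Cat.of (Ob D)) := .rel _ _ ⟨proj, we_proj H⟩
  have h3 : ThEquiv (Cat.of (Ob D)) (Cat.of (WideSubcategory (partialModel H D).W)) :=
    .rel _ _ ⟨toWide H, we_toWide H⟩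
  exact (h1.symm.trans _ _ _ h2).trans _ _ _ h3

end Pool.Agent.H802.TA
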