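import Pool.Agent.H802.TA.Poset

/-! The category of weakly contractible posets over a small category `D`. -/

universe u

open CategoryTheory Limits

namespace Pool.Agent.H802.TA

/-- A weakly contractible poset with a functor to `D`. -/
structure Ob (D : Type (u + 1)) [SmallCategory D] : Type (u + 1) where
  /-- the poset -/
  K : Type u
  [po : PartialOrder K]
  /-- the functor -/
  F : K ⥤ D
  asph : AP (ULift.{u + 1} K)

attribute [instance] Ob.po

variable {D : Type (u + 1)} [SmallCategory D]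

/-- Monotone maps strictly over `D`. -/
structure Ob.Hom (X Y : Ob D) : Type (u + 1) where
  /-- the monotone map -/
  f : X.K →o Y.K
  comm : ∀ {a b : X.K} (h : a ≤ b),
    Arrow.mk (Y.F.map (homOfLE (f.monotone h))) = Arrow.mk (X.F.map (homOfLE h))

theorem Ob.Hom.ext' {X Y : Ob D} {p q : Ob.Hom X Y} (h : ∀ x, p.f x = q.f x) : p = q := by
  cases p; cases q
  congr
  ext x
  exact h x

instance : SmallCategory (Ob D) where
  Hom X Y := Ob.Hom X Y
  id X := ⟨OrderHom.id, fun _ => rfl⟩
  comp p q := ⟨q.f.comp p.f, fun h => (q.comm (p.f.monotone h)).trans (p.comm h)⟩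
  id_comp _ := rfl
  comp_id _ := rfl
  assoc _ _ _ := rfl

theorem hom_ext' {X Y : Ob D} {p q : X ⟶ Y} (h : ∀ x, Ob.Hom.f p x = Ob.Hom.f q x) : p = q :=
  Ob.Hom.ext' h

theorem comp_f {X Y Z : Ob D} (p : X ⟶ Y) (q : Y ⟶ Z) (x : X.K) :
    (p ≫ q).f x = q.f (p.f x) := rfl

theorem hom_obj {X Y : Ob D} (p : X ⟶ Y) (a : X.K) : X.F.obj a = Y.F.obj (p.f a) :=
  (congrArg Comma.left (p.comm (le_refl a))).symm

theorem hom_map {X Y : Ob D} (p : X ⟶ Y) {a b : X.K} (h : a ≤ b) :
    X.F.map (homOfLE h) ≫ eqToHom (hom_obj p b) =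
      eqToHom (hom_obj p a) ≫ Y.F.map (homOfLE (p.f.monotone h)) := by
  obtain ⟨h1, h2, h3⟩ := (Arrow.mk_eq_mk_iff _ _).1 (p.comm h)
  rw [h3]
  simp

theorem mk_eqToHom_comp {x y z : D} (e : x = y) (f : y ⟶ z) :
    Arrow.mk (eqToHom e ≫ f) = Arrow.mk f := by
  subst e; simp

theorem mk_id_comp {x y z t : D} (e : x ⟶ y) (f : y ⟶ z)
    (h : Arrow.mk e = Arrow.mk (𝟙 t)) : Arrow.mk (e ≫ f) = Arrow.mk f := by
  obtain ⟨rfl, rfl, h3⟩ := (Arrow.mk_eq_mk_iff _ _).1 h
  rw [h3]; simp

/-- The functor on the double mapping cylinder. -/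
def dmF {X Y Z : Ob D} (h : Y ⟶ X) (g : Y ⟶ Z) : DM h.f g.f ⥤ D where
  obj x := match x with
    | .lf a => X.F.obj a
    | .md a => Y.F.obj a
    | .rt a => Z.F.obj a
  map {x y} p := match x, y, p with
    | .lf a, .lf b, p => X.F.map (homOfLE (show a ≤ b from leOfHom p))
    | .md a, .md b, p => Y.F.map (homOfLE (show a ≤ b from leOfHom p))
    | .rt a, .rt b, p => Z.F.map (homOfLE (show a ≤ b from leOfHom p))
    | .md a, .lf b, p => eqToHom (hom_obj h a) ≫
        X.F.map (homOfLE (show h.f a ≤ b from leOfHom p))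
    | .md a, .rt b, p => eqToHom (hom_obj g a) ≫
        Z.F.map (homOfLE (show g.f a ≤ b from leOfHom p))
    | .lf a, .md b, p => (DM.not_lf_le_md (leOfHom p)).elim
    | .lf a, .rt b, p => (DM.not_lf_le_rt (leOfHom p)).elim
    | .rt a, .md b, p => (DM.not_rt_le_md (leOfHom p)).elim
    | .rt a, .lf b, p => (DM.not_rt_le_lf (leOfHom p)).elim
  map_id x := by
    cases x
    · exact X.F.map_id _
    · exact Y.F.map_id _
    · exact Z.F.map_id _
  map_comp {x y z} p q := by
    cases x <;> cases y <;> cases z <;>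
      first
      | exact (DM.not_lf_le_md (leOfHom p)).elim
      | exact (DM.not_lf_le_rt (leOfHom p)).elim
      | exact (DM.not_rt_le_md (leOfHom p)).elim
      | exact (DM.not_rt_le_lf (leOfHom p)).elim
      | exact (DM.not_lf_le_md (leOfHom q)).elim
      | exact (DM.not_lf_le_rt (leOfHom q)).elim
      | exact (DM.not_rt_le_md (leOfHom q)).elim
      | exact (DM.not_rt_le_lf (leOfHom q)).elim
      | exact X.F.map_comp _ _
      | exact Y.F.map_comp _ _
      | exact Z.F.map_comp _ _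
      | (dsimp only
         rw [← Category.assoc, hom_map, Category.assoc, ← Functor.map_comp]
         rfl)
      | (dsimp only
         rw [Category.assoc, ← Functor.map_comp]
         rfl)

end Pool.Agent.H802.TA
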