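import Pool.Agent.H802.TA.Defs

/-! Piece P1 of the project of helper802: for a monomorphism of simplicial sets, being a weak
equivalence means lifting against `Map(Δ[n],Z) → Map(∂Δ[n],Z)` for all Kan complexes `Z`. -/

universe u

open CategoryTheory MonoidalCategory Simplicial HomotopicalAlgebra Limits
open SSet.modelCategoryQuillen CartesianMonoidalCategory

namespace Pool.Agent.H802.TA

namespace P1

open MonoidalClosed

section flip

variable {T Y Z : SSet.{u}}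

/-- Exchange of the two variables of a map to an internal hom. -/
noncomputable def flip (t : T ⟶ (ihom Y).obj Z) : Y ⟶ (ihom T).obj Z :=
  curry ((β_ T Y).hom ≫ uncurry t)

lemma flip_flip (t : T ⟶ (ihom Y).obj Z) : flip (flip t) = t := by
  unfold flip
  rw [uncurry_curry, ← Category.assoc, SymmetricCategory.symmetry, Category.id_comp,
    curry_uncurry]

lemma flip_comp {T' : SSet.{u}} (a : T' ⟶ T) (t : T ⟶ (ihom Y).obj Z) :
    flip (a ≫ t) = flip t ≫ (pre a).app Z := by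
  unfold flip
  rw [curry_pre_app, uncurry_natural_left]
  congr 1

lemma flip_pre {Y' : SSet.{u}} (i : Y' ⟶ Y) (t : T ⟶ (ihom Y).obj Z) :
    flip (t ≫ (pre i).app Z) = i ≫ flip t := by
  have h := flip_comp i (flip t)
  rw [flip_flip] at h
  rw [← h, flip_flip]

end flip

section vert

variable {T Z : SSet.{u}}

/-- The vertex of the mapping space given by a map. -/
noncomputable def v (f : T ⟶ Z) : (Δ[0] : SSet.{u}) ⟶ (ihom T).obj Z :=
  curry (fst T Δ[0] ≫ f)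

/-- The canonical section of the projection from `T ⊗ Δ[0]`. -/
noncomputable def sec (T : SSet.{u}) : T ⟶ T ⊗ Δ[0] := lift (𝟙 T) (SSet.stdSimplex.isTerminalObj₀.from T)

lemma sec_fst : sec T ≫ fst T Δ[0] = 𝟙 T := lift_fst _ _

lemma fst_sec : fst T Δ[0] ≫ sec T = 𝟙 _ := by
  apply CartesianMonoidalCategory.hom_ext
  · rw [Category.assoc, sec_fst, Category.comp_id, Category.id_comp]
  · exact SSet.stdSimplex.isTerminalObj₀.hom_ext _ _

lemma v_inj {f g : T ⟶ Z} (h : v f = v g) : f = g := by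
  have h1 := curry_injective h
  have h2 := congrArg (fun k => sec T ≫ k) h1
  simp only [← Category.assoc, sec_fst, Category.id_comp] at h2
  exact h2

lemma v_surj (x : (Δ[0] : SSet.{u}) ⟶ (ihom T).obj Z) : ∃ f : T ⟶ Z, v f = x := by
  refine ⟨sec T ≫ uncurry x, ?_⟩
  unfold v
  rw [← Category.assoc, fst_sec, Category.id_comp, curry_uncurry]

lemma v_pre {T' : SSet.{u}} (i : T' ⟶ T) (f : T ⟶ Z) : v f ≫ (pre i).app Z = v (i ≫ f) := by
  unfold v
  rw [curry_pre_app]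
  congr 1

lemma v_map {Z' : SSet.{u}} (f : T ⟶ Z) (q : Z ⟶ Z') : v f ≫ (ihom T).map q = v (f ≫ q) := by
  unfold v
  rw [← curry_natural_right, Category.assoc]

lemma whisker_δ_one : T ◁ SSet.stdSimplex.δ (1 : Fin 2) = fst T Δ[0] ≫ SSet.ι₀ := by
  apply CartesianMonoidalCategory.hom_ext
  · rw [whiskerLeft_fst, Category.assoc, SSet.ι₀_fst, Category.comp_id]
  · rw [whiskerLeft_snd, Category.assoc, SSet.ι₀_snd, SSet.stdSimplex.δ_one_eq_const,
      SSet.comp_const, SSet.comp_const]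

lemma δ_one_curry (h : T ⊗ Δ[1] ⟶ Z) :
    SSet.stdSimplex.δ (1 : Fin 2) ≫ curry h = v (SSet.ι₀ ≫ h) := by
  unfold v
  rw [← curry_natural_left, ← Category.assoc, whisker_δ_one]

lemma whisker_δ_zero : T ◁ SSet.stdSimplex.δ (0 : Fin 2) = fst T Δ[0] ≫ SSet.ι₁ := by
  apply CartesianMonoidalCategory.hom_ext
  · rw [whiskerLeft_fst, Category.assoc, SSet.ι₁_fst, Category.comp_id]
  · rw [whiskerLeft_snd, Category.assoc, SSet.ι₁_snd, SSet.stdSimplex.δ_zero_eq_const,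
      SSet.comp_const, SSet.comp_const]

lemma δ_zero_curry (h : T ⊗ Δ[1] ⟶ Z) :
    SSet.stdSimplex.δ (0 : Fin 2) ≫ curry h = v (SSet.ι₁ ≫ h) := by
  unfold v
  rw [← curry_natural_left, ← Category.assoc, whisker_δ_zero]

/-- There is an edge from `x` to `y`. -/
def Ed {K : SSet.{u}} (x y : (Δ[0] : SSet.{u}) ⟶ K) : Prop :=
  ∃ e : (Δ[1] : SSet.{u}) ⟶ K, SSet.stdSimplex.δ (1 : Fin 2) ≫ e = x ∧
    SSet.stdSimplex.δ (0 : Fin 2) ≫ e = y

lemma htpy_iff {f g : T ⟶ Z} : Htpy f g ↔ Ed (v f) (v g) := by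
  constructor
  · rintro ⟨h, rfl, rfl⟩
    exact ⟨curry h, δ_one_curry h, δ_zero_curry h⟩
  · rintro ⟨e, h1, h2⟩
    refine ⟨uncurry e, v_inj ?_, v_inj ?_⟩
    · rw [← δ_one_curry, curry_uncurry, h1]
    · rw [← δ_zero_curry, curry_uncurry, h2]

end vert

section kan

variable {K : SSet.{u}}

/-- The constant edge. -/
noncomputable def cst (x : (Δ[0] : SSet.{u}) ⟶ K) : (Δ[1] : SSet.{u}) ⟶ K :=
  SSet.stdSimplex.isTerminalObj₀.from Δ[1] ≫ x

lemma δ_cst (j : Fin 2) (x : (Δ[0] : SSet.{u}) ⟶ K) : SSet.stdSimplex.δ j ≫ cst x = x := by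
  unfold cst
  rw [← Category.assoc]
  have : SSet.stdSimplex.δ j ≫ SSet.stdSimplex.isTerminalObj₀.from Δ[1] = 𝟙 _ :=
    SSet.stdSimplex.isTerminalObj₀.hom_ext _ _
  rw [this, Category.id_comp]

lemma cst_comp {L : SSet.{u}} (x : (Δ[0] : SSet.{u}) ⟶ K) (f : K ⟶ L) :
    cst x ≫ f = cst (x ≫ f) := Category.assoc _ _ _

lemma lift_zero {M N : SSet.{u}} (p : M ⟶ N) [Fibration p] (e : (Δ[1] : SSet.{u}) ⟶ N)
    (x : (Δ[0] : SSet.{u}) ⟶ M) (h : x ≫ p = SSet.stdSimplex.δ (1 : Fin 2) ≫ e) :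
    ∃ e' : (Δ[1] : SSet.{u}) ⟶ M, SSet.stdSimplex.δ (1 : Fin 2) ≫ e' = x ∧ e' ≫ p = e := by
  obtain ⟨φ, h1, h2⟩ := SSet.horn.IsCompatible.exists_lift (n := 0) (i := 0) (f := fun _ _ => x)
    trivial p e (by
      intro j hj
      obtain rfl : j = 1 := by fin_cases j <;> simp_all
      exact h)
  exact ⟨φ, h1 1 (by decide), h2⟩

lemma lift_one {M N : SSet.{u}} (p : M ⟶ N) [Fibration p] (e : (Δ[1] : SSet.{u}) ⟶ N)
    (x : (Δ[0] : SSet.{u}) ⟶ M) (h : x ≫ p = SSet.stdSimplex.δ (0 : Fin 2) ≫ e) :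
    ∃ e' : (Δ[1] : SSet.{u}) ⟶ M, SSet.stdSimplex.δ (0 : Fin 2) ≫ e' = x ∧ e' ≫ p = e := by
  obtain ⟨φ, h1, h2⟩ := SSet.horn.IsCompatible.exists_lift (n := 0) (i := 1) (f := fun _ _ => x)
    trivial p e (by
      intro j hj
      obtain rfl : j = 0 := by fin_cases j <;> simp_all
      exact h)
  exact ⟨φ, h1 0 (by decide), h2⟩

lemma Ed.refl (x : (Δ[0] : SSet.{u}) ⟶ K) : Ed x x := ⟨cst x, δ_cst _ _, δ_cst _ _⟩

lemma d01 : SSet.stdSimplex.δ.{u} (0 : Fin 2) ≫ SSet.stdSimplex.δ (1 : Fin 3) =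
    SSet.stdSimplex.δ (0 : Fin 2) ≫ SSet.stdSimplex.δ (0 : Fin 3) :=
  SSet.stdSimplex.δ_comp_δ (i := (0 : Fin 2)) (j := 0) le_rfl

lemma d02 : SSet.stdSimplex.δ.{u} (0 : Fin 2) ≫ SSet.stdSimplex.δ (2 : Fin 3) =
    SSet.stdSimplex.δ (1 : Fin 2) ≫ SSet.stdSimplex.δ (0 : Fin 3) :=
  SSet.stdSimplex.δ_comp_δ (i := (0 : Fin 2)) (j := 1) (by decide)

lemma d12 : SSet.stdSimplex.δ.{u} (1 : Fin 2) ≫ SSet.stdSimplex.δ (2 : Fin 3) =
    SSet.stdSimplex.δ (1 : Fin 2) ≫ SSet.stdSimplex.δ (1 : Fin 3) :=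
  SSet.stdSimplex.δ_comp_δ (i := (1 : Fin 2)) (j := 1) le_rfl

lemma Ed.symm [SSet.KanComplex K] {x y : (Δ[0] : SSet.{u}) ⟶ K} (h : Ed x y) : Ed y x := by
  obtain ⟨e, h0, h1⟩ := h
  obtain ⟨φ, hφ⟩ := SSet.horn.IsCompatible.exists_lift_of_kanComplex (X := K) (n := 1) (i := 0)
    (f := fun j _ => if j = 2 then e else cst x) (by
      rw [SSet.horn.isCompatible_iff]
      intro j k hj hk hjk
      obtain rfl : j = 1 := by fin_cases j <;> fin_cases k <;> simp_all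
      obtain rfl : k = 2 := by fin_cases k <;> simp_all
      exact (δ_cst _ _).trans h0.symm)
  have e2 : SSet.stdSimplex.δ (2 : Fin 3) ≫ φ = e := hφ 2 (by decide)
  have e1 : SSet.stdSimplex.δ (1 : Fin 3) ≫ φ = cst x := hφ 1 (by decide)
  refine ⟨SSet.stdSimplex.δ (0 : Fin 3) ≫ φ, ?_, ?_⟩
  · rw [← Category.assoc, ← d02, Category.assoc, e2, h1]
  · rw [← Category.assoc, ← d01, Category.assoc, e1, δ_cst]

lemma Ed.trans [SSet.KanComplex K] {x y z : (Δ[0] : SSet.{u}) ⟶ K} (h : Ed x y)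
    (h' : Ed y z) : Ed x z := by
  obtain ⟨e, h0, h1⟩ := h
  obtain ⟨e', h0', h1'⟩ := h'
  obtain ⟨φ, hφ⟩ := SSet.horn.IsCompatible.exists_lift_of_kanComplex (X := K) (n := 1) (i := 1)
    (f := fun j _ => if j = 2 then e else e') (by
      rw [SSet.horn.isCompatible_iff]
      intro j k hj hk hjk
      obtain rfl : j = 0 := by fin_cases j <;> fin_cases k <;> simp_all
      obtain rfl : k = 2 := by fin_cases k <;> simp_all
      exact h0'.trans h1.symm)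
  have e2 : SSet.stdSimplex.δ (2 : Fin 3) ≫ φ = e := hφ 2 (by decide)
  have e0 : SSet.stdSimplex.δ (0 : Fin 3) ≫ φ = e' := hφ 0 (by decide)
  refine ⟨SSet.stdSimplex.δ (1 : Fin 3) ≫ φ, ?_, ?_⟩
  · rw [← Category.assoc, ← d12, Category.assoc, e2, h0]
  · rw [← Category.assoc, d01, Category.assoc, e0, h1']

/-- Correction of a homotopy over the base (the outer horn `Λ²₂` in a fibration). -/
lemma correct {M N : SSet.{u}} (P : M ⟶ N) [Fibration P] (g k : (Δ[1] : SSet.{u}) ⟶ M)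
    (h : SSet.stdSimplex.δ (0 : Fin 2) ≫ k = SSet.stdSimplex.δ (0 : Fin 2) ≫ g)
    (hp : k ≫ P = g ≫ P) :
    ∃ e : (Δ[1] : SSet.{u}) ⟶ M,
      SSet.stdSimplex.δ (1 : Fin 2) ≫ e = SSet.stdSimplex.δ (1 : Fin 2) ≫ g ∧
      SSet.stdSimplex.δ (0 : Fin 2) ≫ e = SSet.stdSimplex.δ (1 : Fin 2) ≫ k ∧
      e ≫ P = cst (SSet.stdSimplex.δ (1 : Fin 2) ≫ g ≫ P) := by
  have s0 : SSet.stdSimplex.δ.{u} (0 : Fin 3) ≫ SSet.stdSimplex.σ (0 : Fin 2) = 𝟙 _ :=
    SSet.stdSimplex.δ_comp_σ_self (i := (0 : Fin 2))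
  have s1 : SSet.stdSimplex.δ.{u} (1 : Fin 3) ≫ SSet.stdSimplex.σ (0 : Fin 2) = 𝟙 _ :=
    SSet.stdSimplex.δ_comp_σ_succ (i := (0 : Fin 2))
  have s2 : SSet.stdSimplex.δ.{u} (2 : Fin 3) ≫ SSet.stdSimplex.σ (0 : Fin 2) =
      cst (SSet.stdSimplex.δ (1 : Fin 2)) := by
    have h1 : SSet.stdSimplex.δ.{u} (2 : Fin 3) ≫ SSet.stdSimplex.σ (0 : Fin 2) =
        SSet.stdSimplex.σ (0 : Fin 1) ≫ SSet.stdSimplex.δ (1 : Fin 2) :=
      SSet.stdSimplex.δ_comp_σ_of_gt (i := (1 : Fin 2)) (j := (0 : Fin 1)) (by decide)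
    rw [h1]
    unfold cst
    congr 1
    exact SSet.stdSimplex.isTerminalObj₀.hom_ext _ _
  obtain ⟨φ, hφ, hP⟩ := SSet.horn.IsCompatible.exists_lift (X := M) (n := 1) (i := 2)
    (f := fun j _ => if j = 0 then k else g) (by
      rw [SSet.horn.isCompatible_iff]
      intro j k hj hk hjk
      obtain rfl : j = 0 := by fin_cases j <;> fin_cases k <;> simp_all
      obtain rfl : k = 1 := by fin_cases k <;> simp_all
      exact h) P (SSet.stdSimplex.σ (0 : Fin 2) ≫ g ≫ P) (by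
      intro j hj
      rw [← Category.assoc]
      obtain rfl | rfl : j = 0 ∨ j = 1 := by fin_cases j <;> simp_all
      · rw [s0, Category.id_comp]
        exact hp
      · rw [s1, Category.id_comp]
        rfl)
  have e0 : SSet.stdSimplex.δ (0 : Fin 3) ≫ φ = k := hφ 0 (by decide)
  have e1 : SSet.stdSimplex.δ (1 : Fin 3) ≫ φ = g := hφ 1 (by decide)
  refine ⟨SSet.stdSimplex.δ (2 : Fin 3) ≫ φ, ?_, ?_, ?_⟩
  · rw [← Category.assoc, d12, Category.assoc, e1]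
  · rw [← Category.assoc, d02, Category.assoc, e0]
  · rw [Category.assoc, hP, ← Category.assoc, s2, cst_comp]

end kan

section main

variable {X Y : SSet.{u}} (i : X ⟶ Y)

lemma hoHom_eq_iff {X Z : SSet.{u}} [SSet.KanComplex Z] {f g : X ⟶ Z} :
    (Quot.mk _ f : HoHom X Z) = Quot.mk _ g ↔ Htpy f g := by
  have he : Equivalence (fun f g : X ⟶ Z => Htpy f g) :=
    ⟨fun f => htpy_iff.2 (Ed.refl _), fun h => htpy_iff.2 (htpy_iff.1 h).symm,
      fun h h' => htpy_iff.2 ((htpy_iff.1 h).trans (htpy_iff.1 h'))⟩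
  exact he.quot_mk_eq_iff _ _

/-- Strict extension of maps to Kan complexes. -/
lemma extend [Mono i] (hi : WE i) {W : SSet.{u}} [SSet.KanComplex W] (a : X ⟶ W) :
    ∃ b : Y ⟶ W, i ≫ b = a := by
  obtain ⟨q, hq⟩ := (hi W).2 (Quot.mk _ a)
  obtain ⟨b0, rfl⟩ := Quot.exists_rep q
  have h1 : Htpy (i ≫ b0) a := hoHom_eq_iff.1 hq
  obtain ⟨e, h0, h1⟩ := htpy_iff.1 h1
  obtain ⟨e', h0', h1'⟩ := lift_zero ((pre i).app W) e (v b0) (by rw [v_pre, h0])
  obtain ⟨b, hb⟩ := v_surj (SSet.stdSimplex.δ (0 : Fin 2) ≫ e')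
  refine ⟨b, v_inj ?_⟩
  rw [← v_pre, hb, Category.assoc, h1', h1]

lemma exists_section [Mono i] (hi : WE i) (Z : SSet.{u}) [SSet.KanComplex Z] :
    ∃ s : (ihom X).obj Z ⟶ (ihom Y).obj Z, s ≫ (pre i).app Z = 𝟙 _ := by
  obtain ⟨e, he⟩ := extend i hi (flip (𝟙 ((ihom X).obj Z)))
  refine ⟨flip e, ?_⟩
  have h := flip_pre i (flip e)
  rw [flip_flip, he] at h
  have h2 := congrArg flip h
  rwa [flip_flip, flip_flip] at h2

lemma htpy_flip {T Y Z : SSet.{u}} {a b : T ⟶ (ihom Y).obj Z} (h : Htpy a b) :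
    Htpy (flip a) (flip b) := by
  obtain ⟨h, rfl, rfl⟩ := h
  refine ⟨curry (lift (snd T _ ≫ fst Y _) (lift (fst T _) (snd T _ ≫ snd Y _)) ≫ uncurry h),
    ?_, ?_⟩
  · rw [← curry_natural_left, ← Category.assoc, flip, uncurry_natural_left, ← Category.assoc]
    congr 1
  · rw [← curry_natural_left, ← Category.assoc, flip, uncurry_natural_left, ← Category.assoc]
    congr 1

lemma exists_edge [Mono i] (hi : WE i) (Z : SSet.{u}) [SSet.KanComplex Z] :
    ∃ s : (ihom X).obj Z ⟶ (ihom Y).obj Z, s ≫ (pre i).app Z = 𝟙 _ ∧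
      ∃ e : (Δ[1] : SSet.{u}) ⟶ (ihom ((ihom Y).obj Z)).obj ((ihom Y).obj Z),
      SSet.stdSimplex.δ (1 : Fin 2) ≫ e = v (𝟙 _) ∧
      SSet.stdSimplex.δ (0 : Fin 2) ≫ e = v ((pre i).app Z ≫ s) ∧
      e ≫ (ihom _).map ((pre i).app Z) = cst (v ((pre i).app Z)) := by
  obtain ⟨s, hs⟩ := exists_section i hi Z
  refine ⟨s, hs, ?_⟩
  have h1 : Htpy (flip (𝟙 ((ihom Y).obj Z))) (flip ((pre i).app Z ≫ s)) := by
    apply hoHom_eq_iff.1
    apply (hi _).1
    show (Quot.mk _ (i ≫ _) : HoHom X _) = Quot.mk _ (i ≫ _)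
    rw [← flip_pre, ← flip_pre, Category.assoc, hs, Category.comp_id, Category.id_comp]
  have h2 := htpy_flip h1
  rw [flip_flip, flip_flip] at h2
  obtain ⟨g, g0, g1⟩ := htpy_iff.1 h2
  obtain ⟨e, e0, e1, e2⟩ := correct ((ihom ((ihom Y).obj Z)).map ((pre i).app Z)) g
    (g ≫ (ihom _).map ((pre i).app Z ≫ s)) (by
      rw [← Category.assoc, g1, v_map, Category.assoc, ← Category.assoc s, hs, Category.id_comp])
    (by
      rw [Category.assoc, ← Functor.map_comp, Category.assoc, hs, Category.comp_id])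
  refine ⟨e, ?_, ?_, ?_⟩
  · rw [e0, g0]
  · rw [e1, ← Category.assoc, g0, v_map, Category.id_comp]
  · rw [e2, ← Category.assoc, g0, v_map, Category.id_comp]

lemma rlp_of_edge {M N : SSet.{u}} (p : M ⟶ N) [Fibration p] (s : N ⟶ M) (hs : s ≫ p = 𝟙 _)
    (e : (Δ[1] : SSet.{u}) ⟶ (ihom M).obj M)
    (e0 : SSet.stdSimplex.δ (1 : Fin 2) ≫ e = v (𝟙 _))
    (e1 : SSet.stdSimplex.δ (0 : Fin 2) ≫ e = v (p ≫ s))
    (e2 : e ≫ (ihom _).map p = cst (v p)) {A B : SSet.{u}} (j : A ⟶ B) [Mono j] :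
    HasLiftingProperty j p := by
  refine ⟨fun {a b} sq => ?_⟩
  obtain ⟨pt, fs, sn, π, hpb, f1, f2, hfib⟩ : ∃ (pt : SSet.{u}) (fs : pt ⟶ (ihom A).obj M)
      (sn : pt ⟶ (ihom B).obj N) (π : (ihom B).obj M ⟶ pt),
      IsPullback fs sn ((ihom A).map p) ((pre j).app N) ∧ π ≫ fs = (pre j).app M ∧
      π ≫ sn = (ihom B).map p ∧ Fibration π := by
    let S := Functor.PullbackObjObj.ofHasPullback MonoidalClosed.internalHom j p
    exact ⟨S.pt, S.fst, S.snd, S.π, S.isPullback, S.π_fst, S.π_snd,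
      SSet.fibration_pullbackObjObjπ S⟩
  have hc := sq.w
  have hE : (e ≫ (pre a).app M) ≫ (ihom A).map p = cst (v b) ≫ (pre j).app N := by
    rw [cst_comp, v_pre, ← hc, Category.assoc, pre_comm_ihom_map, ← Category.assoc, e2,
      cst_comp, v_pre]
  have E1 : ∃ E : (Δ[1] : SSet.{u}) ⟶ pt, E ≫ fs = e ≫ (pre a).app M ∧
      E ≫ sn = cst (v b) :=
    ⟨hpb.lift _ _ hE, hpb.lift_fst _ _ _, hpb.lift_snd _ _ _⟩
  obtain ⟨E, hE1, hE2⟩ := E1
  obtain ⟨e', h0, h1⟩ := lift_one π E (v (b ≫ s)) (by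
    apply hpb.hom_ext
    · rw [Category.assoc, f1, Category.assoc, hE1, v_pre,
        ← Category.assoc (SSet.stdSimplex.δ (0 : Fin 2)), e1, v_pre, ← Category.assoc a, hc,
        Category.assoc]
    · rw [Category.assoc, f2, Category.assoc, hE2, δ_cst, v_map, Category.assoc, hs,
        Category.comp_id])
  obtain ⟨l, hl⟩ := v_surj (SSet.stdSimplex.δ (1 : Fin 2) ≫ e')
  refine ⟨⟨⟨l, v_inj ?_, v_inj ?_⟩⟩⟩
  · rw [← v_pre, hl, ← f1, Category.assoc, ← Category.assoc e', h1, hE1, ← Category.assoc, e0,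
      v_pre, Category.comp_id]
  · rw [← v_map, hl, ← f2, Category.assoc, ← Category.assoc e', h1, hE2, δ_cst]

lemma lp_flip {X Y A B Z : SSet.{u}} (i : X ⟶ Y) (j : A ⟶ B)
    (h : HasLiftingProperty i ((pre j).app Z)) : HasLiftingProperty j ((pre i).app Z) := by
  refine ⟨fun {f g} sq => ?_⟩
  have sq' : CommSq (flip g) i ((pre j).app Z) (flip f) := ⟨by
    rw [← flip_comp, ← flip_pre, sq.w]⟩
  obtain ⟨⟨l, h1, h2⟩⟩ := (h.sq_hasLift sq').exists_lift
  refine ⟨⟨⟨flip l, ?_, ?_⟩⟩⟩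
  · rw [← flip_pre, h2, flip_flip]
  · rw [← flip_comp, h1, flip_flip]

lemma we_imp [Mono i] (hi : WE i) (Z : SSet.{u}) [SSet.KanComplex Z] {A B : SSet.{u}}
    (j : A ⟶ B) [Mono j] : HasLiftingProperty i ((pre j).app Z) := by
  obtain ⟨s, hs, e, e0, e1, e2⟩ := exists_edge i hi Z
  exact lp_flip j i (rlp_of_edge ((pre i).app Z) s hs e e0 e1 e2 j)

lemma exists_desc {M : SSet.{u}} (x y : (Δ[0] : SSet.{u}) ⟶ M) :
    ∃ f : (∂Δ[1] : SSet.{u}) ⟶ M, SSet.boundary.ι (0 : Fin 2) ≫ f = x ∧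
      SSet.boundary.ι (1 : Fin 2) ≫ f = y := by
  have sq : SSet.Subcomplex.BicartSq.{u} ⊥ (SSet.stdSimplex.face {0}) (SSet.stdSimplex.face {1})
      ∂Δ[1] := ⟨by
      apply le_antisymm
      · rw [sup_le_iff]
        exact ⟨SSet.face_singleton_compl_le_boundary (1 : Fin 2),
          SSet.face_singleton_compl_le_boundary (0 : Fin 2)⟩
      · rw [SSet.boundary_eq_iSup, iSup_le_iff]
        intro k
        fin_cases k
        · exact le_sup_right
        · exact le_sup_left, by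
      rw [SSet.stdSimplex.face_inter_face]
      simp⟩
  have hpo := sq.isPushout
  have hw := SSet.Subcomplex.isInitialBot.hom_ext
    (SSet.Subcomplex.homOfLE sq.le₁₂ ≫ (SSet.stdSimplex.faceSingletonIso.{u} (0 : Fin 2)).inv ≫ y)
    (SSet.Subcomplex.homOfLE sq.le₁₃ ≫ (SSet.stdSimplex.faceSingletonIso.{u} (1 : Fin 2)).inv ≫ x)
  refine ⟨hpo.desc _ _ hw, ?_, ?_⟩
  · have h1 : SSet.boundary.ι.{u} (0 : Fin 2) =
        (SSet.stdSimplex.faceSingletonIso.{u} (1 : Fin 2)).hom ≫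
          SSet.Subcomplex.homOfLE sq.le₃₄ := by
      rw [← cancel_mono (SSet.boundary.{u} 1).ι, SSet.boundary.ι_ι, Category.assoc]
      exact SSet.stdSimplex.faceSingletonIso_one_hom_comp_ι_eq_δ.symm
    rw [h1, Category.assoc, hpo.inr_desc, Iso.hom_inv_id_assoc]
  · have h1 : SSet.boundary.ι.{u} (1 : Fin 2) =
        (SSet.stdSimplex.faceSingletonIso.{u} (0 : Fin 2)).hom ≫
          SSet.Subcomplex.homOfLE sq.le₂₄ := by
      rw [← cancel_mono (SSet.boundary.{u} 1).ι, SSet.boundary.ι_ι, Category.assoc]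
      exact SSet.stdSimplex.faceSingletonIso_zero_hom_comp_ι_eq_δ.symm
    rw [h1, Category.assoc, hpo.inl_desc, Iso.hom_inv_id_assoc]

lemma imp_we [Mono i] (h : ∀ (Z : SSet.{u}) [SSet.KanComplex Z] (n : ℕ),
    HasLiftingProperty i ((MonoidalClosed.pre (SSet.boundary.{u} n).ι).app Z)) : WE i := by
  intro Z hZ
  have hI : I.rlp ((pre i).app Z) := by
    rintro _ _ _ ⟨n⟩
    exact lp_flip _ _ (h Z n)
  constructor
  · intro q q' hq
    obtain ⟨f, rfl⟩ := Quot.exists_rep q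
    obtain ⟨g, rfl⟩ := Quot.exists_rep q'
    have h1 : Htpy (i ≫ f) (i ≫ g) := hoHom_eq_iff.1 hq
    obtain ⟨e, e0, e1⟩ := htpy_iff.1 h1
    obtain ⟨d, d0, d1⟩ := exists_desc (v g) (v f)
    have hL : HasLiftingProperty (SSet.boundary.{u} 1).ι ((pre i).app Z) := hI _ ⟨1⟩
    have sq : CommSq d (SSet.boundary.{u} 1).ι ((pre i).app Z) e := ⟨by
      apply SSet.boundary.hom_ext
      intro k
      rw [← Category.assoc, ← Category.assoc, SSet.boundary.ι_ι]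
      fin_cases k
      · exact ((congrArg (· ≫ _) d0).trans (v_pre _ _)).trans e1.symm
      · exact ((congrArg (· ≫ _) d1).trans (v_pre _ _)).trans e0.symm⟩
    obtain ⟨⟨l, h1, h2⟩⟩ := (hL.sq_hasLift sq).exists_lift
    apply hoHom_eq_iff.2 (htpy_iff.2 ⟨l, ?_, ?_⟩)
    · rw [← d1, ← h1, ← Category.assoc, SSet.boundary.ι_ι]
    · rw [← d0, ← h1, ← Category.assoc, SSet.boundary.ι_ι]
  · intro q
    obtain ⟨a, rfl⟩ := Quot.exists_rep q
    have hM : (MorphismProperty.monomorphisms SSet.{u}).rlp ((pre i).app Z) := by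
      rw [SSet.rlp_monomorphisms]
      exact hI
    have hL : HasLiftingProperty (initial.to (Δ[0] : SSet.{u})) ((pre i).app Z) :=
      hM _ (inferInstance : Mono _)
    have sq : CommSq (initial.to _) (initial.to (Δ[0] : SSet.{u})) ((pre i).app Z) (v a) :=
      ⟨initialIsInitial.hom_ext _ _⟩
    obtain ⟨⟨l, h1, h2⟩⟩ := (hL.sq_hasLift sq).exists_lift
    obtain ⟨b, rfl⟩ := v_surj l
    refine ⟨Quot.mk _ b, ?_⟩
    show (Quot.mk _ (i ≫ b) : HoHom X _) = Quot.mk _ a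
    rw [v_pre] at h2
    rw [v_inj h2]

end main

end P1

theorem stm1a : Stm1a.{u} := fun i _ =>
  ⟨fun hi Z _ _ => P1.we_imp i hi Z _, fun h => P1.imp_we i h⟩

theorem stm1b : Stm1b.{u} := by
  intro X Y X' Y' f i j g sq hm hw
  have hm' : Mono j := (MorphismProperty.monomorphisms SSet.{u}).of_isPushout sq hm
  refine ⟨hm', (stm1a j).2 fun Z _ n => ?_⟩
  have := (stm1a i).1 hw Z n
  exact sq.hasLiftingProperty _

end Pool.Agent.H802.TA
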