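import Mathlib
import Pool.Agent.H802.TA.Defs

/-! Piece P2 of the project TA (MP_64c6ca_gt): natural transformations give simplicial homotopies,
two out of three for `WE`, homotopy equivalences are in `WE`, nerves of categories with a terminal
object are weakly contractible. -/

universe u

open CategoryTheory MonoidalCategory Simplicial HomotopicalAlgebra Limits

namespace Pool.Agent.H802.TA

theorem HoHom.pre_comp {X Y W : SSet.{u}} (f : X ⟶ Y) (g : Y ⟶ W) (Z : SSet.{u}) :
    HoHom.pre (f ≫ g) Z = HoHom.pre f Z ∘ HoHom.pre g Z := by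
  funext x
  induction x using Quot.ind with
  | mk a =>
    change Quot.mk _ ((f ≫ g) ≫ a) = Quot.mk _ (f ≫ g ≫ a)
    rw [Category.assoc]

theorem HoHom.pre_id {X : SSet.{u}} (Z : SSet.{u}) : HoHom.pre (𝟙 X) Z = id := by
  funext x
  induction x using Quot.ind with
  | mk a =>
    change Quot.mk _ (𝟙 X ≫ a) = Quot.mk _ a
    rw [Category.id_comp]

theorem WE.comp {X Y W : SSet.{u}} {f : X ⟶ Y} {g : Y ⟶ W} (hf : WE f) (hg : WE g) :
    WE (f ≫ g) := by
  intro Z _
  rw [HoHom.pre_comp]
  exact (hf Z).comp (hg Z)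

/-- 2 out of 3: cancel on the left. -/
theorem WE.of_comp_left {X Y W : SSet.{u}} {f : X ⟶ Y} {g : Y ⟶ W} (hf : WE f)
    (hfg : WE (f ≫ g)) : WE g := by
  intro Z _
  have h1 := hfg Z
  rw [HoHom.pre_comp] at h1
  exact (Function.Bijective.of_comp_iff' (hf Z) _).1 h1

/-- 2 out of 3: cancel on the right. -/
theorem WE.of_comp_right {X Y W : SSet.{u}} {f : X ⟶ Y} {g : Y ⟶ W} (hg : WE g)
    (hfg : WE (f ≫ g)) : WE f := by
  intro Z _
  have h1 := hfg Z
  rw [HoHom.pre_comp] at h1
  exact (Function.Bijective.of_comp_iff _ (hg Z)).1 h1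

theorem Htpy.comp {X Y Z : SSet.{u}} {f g : X ⟶ Y} (h : Htpy f g) (k : Y ⟶ Z) :
    Htpy (f ≫ k) (g ≫ k) := by
  obtain ⟨H, h0, h1⟩ := h
  exact ⟨H ≫ k, by rw [← Category.assoc, h0], by rw [← Category.assoc, h1]⟩

theorem eqvGen_comp {X Y Z : SSet.{u}} {f g : X ⟶ Y} (h : Relation.EqvGen Htpy f g)
    (k : Y ⟶ Z) : Relation.EqvGen Htpy (f ≫ k) (g ≫ k) := by
  induction h with
  | rel a b h => exact .rel _ _ (h.comp k)
  | refl a => exact .refl _
  | symm a b _ ih => exact .symm _ _ ih
  | trans a b c _ _ ih1 ih2 => exact .trans _ _ _ ih1 ih2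

theorem HoHom.mk_eq {X Z : SSet.{u}} {f g : X ⟶ Z} (h : Relation.EqvGen Htpy f g) :
    (Quot.mk _ f : HoHom X Z) = Quot.mk _ g := Quot.eqvGen_sound h

/-- If `f` and `g` are homotopic (through a chain of homotopies), then precomposing with them is
the same map on homotopy classes. -/
theorem HoHom.pre_eq {X Y : SSet.{u}} {f g : X ⟶ Y} (h : Relation.EqvGen Htpy f g)
    (Z : SSet.{u}) : HoHom.pre f Z = HoHom.pre g Z := by
  funext x
  induction x using Quot.ind with
  | mk a => exact HoHom.mk_eq (eqvGen_comp h a)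

/-- `WE` only depends on the homotopy class. -/
theorem WE.of_eqvGen {X Y : SSet.{u}} {f g : X ⟶ Y} (h : Relation.EqvGen Htpy f g)
    (hf : WE f) : WE g := by
  intro Z _
  rw [← HoHom.pre_eq h Z]
  exact hf Z

/-- Homotopy equivalences are weak equivalences. -/
theorem we_of_htpy {X Y : SSet.{u}} (f : X ⟶ Y) (g : Y ⟶ X)
    (h1 : Relation.EqvGen Htpy (f ≫ g) (𝟙 X)) (h2 : Relation.EqvGen Htpy (g ≫ f) (𝟙 Y)) :
    WE f := by
  intro Z _
  have e1 := HoHom.pre_eq h1 Z
  have e2 := HoHom.pre_eq h2 Z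
  rw [HoHom.pre_comp, HoHom.pre_id] at e1 e2
  exact Function.bijective_iff_has_inverse.2
    ⟨HoHom.pre g Z, fun x => congrFun e2 x, fun x => congrFun e1 x⟩

theorem WE.id (X : SSet.{u}) : WE (𝟙 X) := by
  intro Z _
  rw [HoHom.pre_id]
  exact Function.bijective_id

/-- The functor to composable arrows attached to a natural transformation. -/
def arrF {A B : Type u} [SmallCategory A] [SmallCategory B] {F G : A ⥤ B} (α : F ⟶ G) :
    A ⥤ ComposableArrows B 1 where
  obj a := ComposableArrows.mk₁ (α.app a)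
  map f := ComposableArrows.homMk₁ (F.map f) (G.map f) (α.naturality f).symm
  map_id a := ComposableArrows.hom_ext₁ (F.map_id a) (G.map_id a)
  map_comp f g := ComposableArrows.hom_ext₁ (F.map_comp f g) (G.map_comp f g)

/-- The monotone map underlying a simplex of `Δ[1]`, as a functor. -/
def simpF {m : SimplexCategoryᵒᵖ} (y : (Δ[1] : SSet.{u}).obj m) : Fin (m.unop.len + 1) ⥤ Fin 2 :=
  (SSet.stdSimplex.objEquiv y).toOrderHom.monotone.functor

/-- The homotopy attached to a natural transformation. -/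
noncomputable def htpyMap {A B : Type u} [SmallCategory A] [SmallCategory B] {F G : A ⥤ B}
    (α : F ⟶ G) : nerve A ⊗ Δ[1] ⟶ nerve B where
  app _ := ↾fun x => (Functor.prod' x.1 (simpF x.2)) ⋙ Functor.uncurry.obj (arrF α)
  naturality _ _ _ := rfl

theorem stm2a : Stm2a.{u} := by
  intro A B _ _ F G α
  refine ⟨htpyMap α, ?_, ?_⟩
  · ext m s
    refine CategoryTheory.Functor.ext (fun j => rfl) ?_
    intro j k f
    have h1 : (ComposableArrows.mk₁ (α.app (s.obj k))).map (𝟙 (0 : Fin 2)) = 𝟙 _ :=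
      CategoryTheory.Functor.map_id _ _
    refine Eq.trans (b := F.map (s.map f) ≫
      (ComposableArrows.mk₁ (α.app (s.obj k))).map (𝟙 (0 : Fin 2))) rfl ?_
    rw [h1]
    refine (Category.comp_id _).trans ?_
    refine Eq.symm ?_
    refine (Category.id_comp _).trans ?_
    exact Category.comp_id _
  · ext m s
    refine CategoryTheory.Functor.ext (fun j => rfl) ?_
    intro j k f
    have h1 : (ComposableArrows.mk₁ (α.app (s.obj k))).map (𝟙 (1 : Fin 2)) = 𝟙 _ :=
      CategoryTheory.Functor.map_id _ _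
    refine Eq.trans (b := G.map (s.map f) ≫
      (ComposableArrows.mk₁ (α.app (s.obj k))).map (𝟙 (1 : Fin 2))) rfl ?_
    rw [h1]
    refine (Category.comp_id _).trans ?_
    refine Eq.symm ?_
    refine (Category.id_comp _).trans ?_
    exact Category.comp_id _

/-- The nerve of the terminal functor is the constant map. -/
theorem stm2b : Stm2b.{u} := by
  intro A _ t ht
  let g : Δ[0] ⟶ nerve A := SSet.yonedaEquiv.symm (ComposableArrows.mk₀ t)
  refine we_of_htpy _ g ?_ ?_
  · have h1 : SSet.stdSimplex.isTerminalObj₀.from (nerve A) ≫ g =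
        nerveMap ((Functor.const A).obj t) := by
      ext m s
      refine CategoryTheory.Functor.ext (fun j => rfl) ?_
      intro j k f
      refine Eq.trans (b := 𝟙 t) rfl ?_
      refine Eq.symm ?_
      refine (Category.id_comp _).trans ?_
      exact Category.comp_id _
    have h2 : nerveMap (𝟭 A) = 𝟙 (nerve A) := rfl
    rw [h1, ← h2]
    refine .symm _ _ (.rel _ _ (stm2a (F := 𝟭 A) (G := (Functor.const A).obj t)
      { app := fun a => ht.from a, naturality := fun a b f => ht.hom_ext _ _ }))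
  · have h1 : g ≫ SSet.stdSimplex.isTerminalObj₀.from (nerve A) = 𝟙 _ :=
      SSet.stdSimplex.isTerminalObj₀.hom_ext _ _
    rw [h1]
    exact .refl _

end Pool.Agent.H802.TA
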