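import Mathlib
import Pool.Agent.H802.TA.Defs

/-! The join lemma (piece P3 of the proof of Quillen's Theorem A). -/

universe u

open CategoryTheory MonoidalCategory Simplicial HomotopicalAlgebra Limits

namespace Pool.Agent.H802.TA
namespace P3

section WE
variable {X Y Z : SSet.{u}}

lemma pre_comp (f : X ⟶ Y) (g : Y ⟶ Z) (W : SSet.{u}) :
    HoHom.pre (f ≫ g) W = HoHom.pre f W ∘ HoHom.pre g W := by
  funext x
  induction x using Quot.ind with
  | mk a =>
    exact congrArg (Quot.mk _) (Category.assoc _ _ _)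

lemma pre_id (W : SSet.{u}) : HoHom.pre (𝟙 X) W = id := by
  funext x
  induction x using Quot.ind with
  | mk a =>
    exact congrArg (Quot.mk _) (Category.id_comp _)

lemma we_comp {f : X ⟶ Y} {g : Y ⟶ Z} (hf : WE f) (hg : WE g) : WE (f ≫ g) := by
  intro W _
  rw [pre_comp]
  exact (hf W).comp (hg W)

lemma we_of_comp_right {f : X ⟶ Y} {g : Y ⟶ Z} (hfg : WE (f ≫ g)) (hg : WE g) : WE f := by
  intro W _
  have h1 := hfg W
  rw [pre_comp] at h1
  exact (Function.Bijective.of_comp_iff _ (hg W)).1 h1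

lemma we_of_comp_left {f : X ⟶ Y} {g : Y ⟶ Z} (hfg : WE (f ≫ g)) (hf : WE f) : WE g := by
  intro W _
  have h1 := hfg W
  rw [pre_comp] at h1
  exact (Function.Bijective.of_comp_iff' (hf W) _).1 h1

lemma we_of_isIso (f : X ⟶ Y) [IsIso f] : WE f := by
  intro W _
  refine Function.bijective_iff_has_inverse.2 ⟨HoHom.pre (inv f) W, ?_, ?_⟩
  · intro x
    have := congrFun (pre_comp (inv f) f W) x
    rw [IsIso.inv_hom_id, pre_id] at this
    exact this.symm
  · intro x
    have := congrFun (pre_comp f (inv f) W) x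
    rw [IsIso.hom_inv_id, pre_id] at this
    exact this.symm

lemma wcon_we {f : X ⟶ Y} (hX : WCon X) (hY : WCon Y) : WE f := by
  refine we_of_comp_right (g := SSet.stdSimplex.isTerminalObj₀.from Y) ?_ hY
  have : f ≫ SSet.stdSimplex.isTerminalObj₀.from Y = SSet.stdSimplex.isTerminalObj₀.from X :=
    SSet.stdSimplex.isTerminalObj₀.hom_ext _ _
  rw [this]
  exact hX

lemma wcon_of_we {f : X ⟶ Y} (hf : WE f) (hX : WCon X) : WCon Y := by
  refine we_of_comp_left (f := f) ?_ hf
  have : f ≫ SSet.stdSimplex.isTerminalObj₀.from Y = SSet.stdSimplex.isTerminalObj₀.from X :=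
    SSet.stdSimplex.isTerminalObj₀.hom_ext _ _
  rw [this]
  exact hX

lemma pre_congr {f g : X ⟶ Y} (h : Htpy f g) (W : SSet.{u}) : HoHom.pre f W = HoHom.pre g W := by
  funext x
  induction x using Quot.ind with
  | mk a =>
    change Quot.mk _ _ = Quot.mk _ _
    obtain ⟨k, h0, h1⟩ := h
    refine Quot.sound ⟨k ≫ a, ?_, ?_⟩
    · rw [← Category.assoc, h0]
    · rw [← Category.assoc, h1]

lemma we_of_inverse {f : X ⟶ Y} {g : Y ⟶ X} (h1 : Htpy (𝟙 X) (f ≫ g)) (h2 : Htpy (𝟙 Y) (g ≫ f)) :
    WE f := by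
  intro W _
  refine Function.bijective_iff_has_inverse.2 ⟨HoHom.pre g W, ?_, ?_⟩
  · intro x
    have := congrFun (pre_comp g f W) x
    rw [← pre_congr h2, pre_id] at this
    exact this.symm
  · intro x
    have := congrFun (pre_comp f g W) x
    rw [← pre_congr h1, pre_id] at this
    exact this.symm

end WE

section nerve

variable {A B : Type u} [SmallCategory A] [SmallCategory B]

lemma nerveMap_id' : nerveMap (𝟭 A) = 𝟙 (nerve A) := rfl

lemma nerveMap_comp' {D : Type u} [SmallCategory D] (F : A ⥤ B) (G : B ⥤ D) :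
    nerveMap (F ⋙ G) = nerveMap F ≫ nerveMap G := rfl

lemma we_nerve_of_equiv (h2a : Stm2a.{u}) (e : A ≌ B) : WE (nerveMap e.functor) := by
  refine we_of_inverse (g := nerveMap e.inverse) ?_ ?_
  · exact h2a e.unitIso.hom
  · exact h2a e.counitIso.inv

end nerve

section full

variable {A : Type u} [SmallCategory A] (P : ObjectProperty A)

/-- The simplices with all vertices in `P`. -/
def sub : (nerve A).Subcomplex where
  obj _ := { s | ∀ i, P (s.obj i) }
  map _ _ hs _ := hs _

lemma nerveMap_injective (n : SimplexCategoryᵒᵖ) :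
    Function.Injective ((nerveMap P.ι).app n) := by
  intro s s' h
  have h2 : ∀ t : Fin (n.unop.len + 1) ⥤ P.FullSubcategory,
      t = P.lift (t ⋙ P.ι) (fun i => (t.obj i).property) := fun t => rfl
  have h3 : s ⋙ P.ι = s' ⋙ P.ι := h
  have key : ∀ (t t' : Fin (n.unop.len + 1) ⥤ P.FullSubcategory), t ⋙ P.ι = t' ⋙ P.ι → t = t' := by
    intro t t' h
    rw [h2 t, h2 t']
    congr 1
  exact key s s' h3

instance : Mono (nerveMap P.ι) := by
  rw [NatTrans.mono_iff_mono_app]
  intro n
  rw [mono_iff_injective]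
  exact nerveMap_injective P n

lemma range_eq : SSet.Subcomplex.range (nerveMap P.ι) = sub P := by
  ext n s
  constructor
  · rintro ⟨t, rfl⟩ i
    exact (t.obj i).property
  · intro hs
    exact ⟨P.lift s hs, rfl⟩

lemma wcon_sub (h : WCon (nerve P.FullSubcategory)) : WCon (sub P : SSet.{u}) := by
  rw [← range_eq]
  exact wcon_of_we (we_of_isIso (SSet.Subcomplex.toRange (nerveMap P.ι))) h

end full

section main

variable (C : Type u) [SmallCategory C] (q : ℕ)

/-- The objects `lo c` and `hi j`, `j ∈ T`. -/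
def PT (T : Set (Fin (q + 1))) : ObjectProperty (Cn C q) :=
  fun x => ∀ j, x = Cn.hi j → j ∈ T

/-- The inclusion of `C`. -/
def inC : C ⥤ Cn C q where
  obj c := .lo c
  map f := f
  map_id _ := rfl
  map_comp _ _ := rfl

instance : (inC C q).Full where
  map_surjective f := ⟨f, rfl⟩

instance : (inC C q).Faithful where
  map_injective h := h

lemma wcon_PT_empty (h2a : Stm2a.{u}) (hC : WCon (nerve C)) :
    WCon (sub (PT C q ∅) : SSet.{u}) := by
  apply wcon_sub
  let F : C ⥤ (PT C q ∅).FullSubcategory := (PT C q ∅).lift (inC C q) (by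
    intro c j hj
    cases hj)
  have : F.EssSurj := by
    constructor
    rintro ⟨x, hx⟩
    cases x with
    | lo c => exact ⟨c, ⟨Iso.refl _⟩⟩
    | hi j => exact absurd (hx j rfl) (Set.notMem_empty j)
  have : F.Full := by
    constructor
    intro a b f
    exact ⟨f.hom, rfl⟩
  have : F.Faithful := by
    constructor
    intro a b f g h
    exact congrArg (fun k : F.obj a ⟶ F.obj b => (k.hom : Cn.Hom _ _)) h
  have : F.IsEquivalence := {}
  exact wcon_of_we (we_nerve_of_equiv h2a F.asEquivalence) hC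

lemma wcon_PT (h2b : Stm2b.{u}) (T : Set (Fin (q + 1))) (hT : T.Nonempty) :
    WCon (sub (PT C q T) : SSet.{u}) := by
  apply wcon_sub
  obtain ⟨m, hm, hmax⟩ := Set.exists_max_image T id (Set.toFinite T) hT
  let t : (PT C q T).FullSubcategory := ⟨.hi m, by
    intro j hj
    cases hj
    exact hm⟩
  refine h2b (t := t) ?_
  refine IsTerminal.ofUniqueHom (fun x => ObjectProperty.homMk ?_) ?_
  · exact match x with
    | ⟨.lo c, _⟩ => PUnit.unit
    | ⟨.hi j, hj⟩ => ⟨⟨hmax j (hj j rfl)⟩⟩
  · rintro ⟨x, hx⟩ f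
    ext
    cases x with
    | lo c => rfl
    | hi j => rfl

/-- The subcomplex generated by a list of subsets. -/
def XL (L : List (Set (Fin (q + 1)))) : (nerve (Cn C q)).Subcomplex where
  obj n := { s | ∃ T ∈ L, ∀ i, PT C q T (s.obj i) }
  map _ _ hs := by
    obtain ⟨T, hT, h⟩ := hs
    exact ⟨T, hT, fun i => h _⟩

lemma wcon_XL (h1b : Stm1b.{u}) (h2a : Stm2a.{u}) (h2b : Stm2b.{u}) (hC : WCon (nerve C)) :
    ∀ n : ℕ, ∀ L : List (Set (Fin (q + 1))), L.length = n + 1 → WCon (XL C q L : SSet.{u}) := by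
  have hK : ∀ T : Set (Fin (q + 1)), WCon (sub (PT C q T) : SSet.{u}) := by
    intro T
    rcases T.eq_empty_or_nonempty with rfl | hT
    · exact wcon_PT_empty C q h2a hC
    · exact wcon_PT C q h2b T hT
  intro n
  induction n with
  | zero =>
    intro L hL
    obtain ⟨T, rfl⟩ := List.length_eq_one_iff.1 hL
    have : XL C q [T] = sub (PT C q T) := by
      ext n s
      constructor
      · rintro ⟨T', hT', h⟩
        rw [List.mem_singleton] at hT'
        subst hT'
        exact h
      · intro h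
        exact ⟨T, List.mem_singleton_self _, h⟩
    rw [this]
    exact hK T
  | succ n ih =>
    intro L hL
    cases L with
    | nil => simp at hL
    | cons T L =>
      have hL' : L.length = n + 1 := by simpa using hL
      have sq : SSet.Subcomplex.BicartSq (XL C q (L.map (· ∩ T))) (XL C q L) (sub (PT C q T))
          (XL C q (T :: L)) := by
        constructor
        · ext m s
          constructor
          · rintro (⟨T', hT', h⟩ | h)
            · exact ⟨T', List.mem_cons_of_mem _ hT', h⟩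
            · exact ⟨T, List.mem_cons_self, h⟩
          · rintro ⟨T', hT', h⟩
            rcases List.mem_cons.1 hT' with rfl | hT'
            · exact Or.inr h
            · exact Or.inl ⟨T', hT', h⟩
        · ext m s
          constructor
          · rintro ⟨⟨T', hT', h⟩, h2⟩
            exact ⟨T' ∩ T, List.mem_map_of_mem hT', fun i j hj => ⟨h i j hj, h2 i j hj⟩⟩
          · rintro ⟨T', hT', h⟩
            obtain ⟨T'', hT'', rfl⟩ := List.mem_map.1 hT'
            exact ⟨⟨T'', hT'', fun i j hj => (h i j hj).1⟩, fun i j hj => (h i j hj).2⟩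
      have w1 : WCon (XL C q (L.map (· ∩ T)) : SSet.{u}) := ih _ (by simpa using hL')
      have w2 : WCon (XL C q L : SSet.{u}) := ih _ hL'
      have w3 : WE (SSet.Subcomplex.homOfLE sq.le₁₃) := wcon_we w1 (hK T)
      exact wcon_of_we (h1b sq.isPushout inferInstance w3).2 w2

end main

end P3

/-- P3: the join lemma. -/
theorem stm3 (h1b : Stm1b.{u}) (h2a : Stm2a.{u}) (h2b : Stm2b.{u}) : Stm3.{u} := by
  intro C _ hC q
  have h1 : bd C q = P3.XL C q ((List.finRange (q + 1)).map (fun j => {j}ᶜ)) := by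
    ext n s
    constructor
    · rintro ⟨j, hj⟩
      refine ⟨{j}ᶜ, List.mem_map_of_mem (List.mem_finRange j), ?_⟩
      intro i k hk hkj
      rw [Set.mem_singleton_iff] at hkj
      subst hkj
      exact hj i hk
    · rintro ⟨T, hT, h⟩
      obtain ⟨j, -, rfl⟩ := List.mem_map.1 hT
      exact ⟨j, fun i hi => h i j hi rfl⟩
  have w1 : WCon (bd C q : SSet.{u}) := by
    rw [h1]
    exact P3.wcon_XL C q h1b h2a h2b hC q _ (by simp)
  have h2 : (⊤ : (nerve (Cn C q)).Subcomplex) = P3.XL C q [Set.univ] := by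
    ext n s
    exact ⟨fun _ => ⟨Set.univ, List.mem_singleton_self _, fun i j _ => trivial⟩, fun _ => trivial⟩
  have w2 : WCon (nerve (Cn C q)) := by
    refine P3.wcon_of_we (P3.we_of_isIso (SSet.Subcomplex.topIso (nerve (Cn C q))).hom) ?_
    rw [h2]
    exact P3.wcon_XL C q h1b h2a h2b hC 0 _ rfl
  exact P3.wcon_we w1 w2

end Pool.Agent.H802.TA
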