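import Pool.Agent.H802.TA.Defs

/-! Piece P4: lifting against the mapping cylinder of a functor. -/

universe u

open CategoryTheory MonoidalCategory Simplicial HomotopicalAlgebra Limits Opposite

namespace Pool.Agent.H802.TA

namespace P4

/-! ### general lemmas -/

/-- lifting a functor along a faithful functor -/
theorem exists_lift {I D E : Type*} [Category* I] [Category* D] [Category* E]
    (H : D ⥤ E) [H.Faithful] (s : I ⥤ E) (obj : I → D)
    (hobj : ∀ i, H.obj (obj i) = s.obj i)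
    (hmap : ∀ i j (α : i ⟶ j), ∃ m : obj i ⟶ obj j, HEq (H.map m) (s.map α)) :
    ∃ t : I ⥤ D, t ⋙ H = s ∧ ∀ i, t.obj i = obj i := by
  choose m hm using hmap
  refine ⟨{ obj := obj, map := fun {i j} α => m i j α, map_id := ?_, map_comp := ?_ }, ?_,
    fun _ => rfl⟩
  · intro i
    apply H.map_injective
    apply eq_of_heq
    refine (hm i i (𝟙 i)).trans ?_
    rw [s.map_id, H.map_id, hobj]
  · intro i j k α β
    apply H.map_injective
    apply eq_of_heq
    refine (hm i k (α ≫ β)).trans ?_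
    rw [s.map_comp, H.map_comp]
    have h1 := hm i j α
    have h2 := hm j k β
    revert h1 h2
    generalize H.map (m i j α) = x
    generalize H.map (m j k β) = y
    generalize s.map α = x'
    generalize s.map β = y'
    revert x y x' y'
    rw [hobj i, hobj j, hobj k]
    intro x y x' y' h1 h2
    rw [eq_of_heq h1, eq_of_heq h2]
  · refine Functor.hext (fun i => hobj i) ?_
    intro i j α
    exact hm i j α

/-- uniqueness of lifts along a faithful functor -/
theorem lift_unique {I D E : Type*} [Category* I] [Category* D] [Category* E]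
    (H : D ⥤ E) [H.Faithful] (t t' : I ⥤ D) (h : t ⋙ H = t' ⋙ H)
    (hobj : ∀ i, t.obj i = t'.obj i) : t = t' := by
  refine Functor.hext hobj ?_
  intro i j α
  have h1 : HEq (H.map (t.map α)) (H.map (t'.map α)) := by
    have := Functor.hcongr_hom h α
    exact this
  revert h1
  generalize t.map α = x
  generalize t'.map α = y
  revert x y
  rw [hobj i, hobj j]
  intro x y h1
  exact heq_of_eq (H.map_injective (eq_of_heq h1))

/-- a functional relation stable under restriction is a map of simplicial sets -/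
theorem mk_hom {X U : SSet.{u}} (R : ∀ n : SimplexCategoryᵒᵖ, X.obj n → U.obj n → Prop)
    (ex : ∀ n x, ∃ u, R n x u) (uniq : ∀ n x u u', R n x u → R n x u' → u = u')
    (nat : ∀ {n m : SimplexCategoryᵒᵖ} (μ : n ⟶ m) x u, R n x u → R m (X.map μ x) (U.map μ u)) :
    ∃ y : X ⟶ U, ∀ n x, R n x (y.app n x) := by
  choose y hy using ex
  refine ⟨{ app := fun n => ↾(y n), naturality := ?_ }, fun n x => hy n x⟩
  intro n m μ
  ext x
  exact uniq _ _ _ _ (hy m (X.map μ x)) (nat μ x _ (hy n x))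

section

/-- The collage of `F` along a chain `τ` in `B`. -/
inductive Col {A B : Type u} [SmallCategory A] [SmallCategory B] (F : A ⥤ B) {q : ℕ}
    (τ : ComposableArrows B q) : Type u where
  | lo (a : A)
  | hi (j : Fin (q + 1))

variable {A B : Type u} [SmallCategory A] [SmallCategory B] {F : A ⥤ B}

/-- Morphisms of the collage. -/
def Col.Hom {q : ℕ} {τ : ComposableArrows B q} (x y : Col F τ) : Type u :=
  match x, y with
  | .lo a, .lo a' => a ⟶ a'
  | .lo a, .hi j => F.obj a ⟶ τ.obj j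
  | .hi _, .lo _ => PEmpty
  | .hi j, .hi k => ULift (PLift (j ≤ k))

instance {q : ℕ} {τ : ComposableArrows B q} : SmallCategory (Col F τ) where
  Hom := Col.Hom
  id
    | .lo a => 𝟙 a
    | .hi _ => ⟨⟨le_rfl⟩⟩
  comp {x y z} f g := match x, y, z, f, g with
    | .lo _, .lo _, .lo _, f, g => (f ≫ g :)
    | .lo _, .lo _, .hi _, f, g => (F.map f ≫ g :)
    | .lo _, .hi _, .hi _, f, g => (f ≫ τ.map (homOfLE g.down.down) :)
    | .hi _, .hi _, .hi _, f, g => ⟨⟨f.down.down.trans g.down.down⟩⟩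
  id_comp {x y} f := by
    cases x <;> cases y
    · exact Category.id_comp _
    · exact (congrArg (· ≫ f) (F.map_id _)).trans (Category.id_comp _)
    · exact f.elim
    · rfl
  comp_id {x y} f := by
    cases x <;> cases y
    · exact Category.comp_id _
    · exact (congrArg (f ≫ ·) (τ.map_id _)).trans (Category.comp_id _)
    · exact f.elim
    · rfl
  assoc {w x y z} f g h := by
    cases w <;> cases x <;> cases y <;> cases z <;>
      first
      | exact Category.assoc _ _ _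
      | exact (congrArg (· ≫ h) (F.map_comp _ _)).trans (Category.assoc _ _ _)
      | rfl
      | exact PEmpty.elim f
      | exact PEmpty.elim g
      | exact PEmpty.elim h
      | exact (Category.assoc _ _ _).trans (congrArg (f ≫ ·) (τ.map_comp _ _).symm)

/-- The inclusion of `A`. -/
def inA {q : ℕ} (τ : ComposableArrows B q) : A ⥤ Col F τ where
  obj a := .lo a
  map f := f
  map_id _ := rfl
  map_comp _ _ := rfl

/-- The functor to the mapping cylinder. -/
def cy {q : ℕ} (τ : ComposableArrows B q) : Col F τ ⥤ Cyl F where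
  obj
    | .lo a => .lo a
    | .hi j => .hi (τ.obj j)
  map {x y} f := match x, y, f with
    | .lo _, .lo _, f => f
    | .lo _, .hi _, f => f
    | .hi _, .hi _, f => τ.map (homOfLE f.down.down)
  map_id x := by
    cases x
    · rfl
    · exact τ.map_id _
  map_comp {x y z} f g := by
    cases x <;> cases y <;> cases z <;>
      first
      | rfl
      | exact PEmpty.elim f
      | exact PEmpty.elim g
      | exact τ.map_comp _ _

/-- The restriction of a chain. -/
abbrev res {m n : SimplexCategory} (θ : m ⟶ n) (τ : ComposableArrows B n.len) :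
    ComposableArrows B m.len := (nerve B).map (X := op n) (Y := op m) θ.op τ

/-- The functor between collages. -/
def push {m n : SimplexCategory} (θ : m ⟶ n) (τ : ComposableArrows B n.len) :
    Col F (res θ τ) ⥤ Col F τ where
  obj
    | .lo a => .lo a
    | .hi j => .hi (θ.toOrderHom j)
  map {x y} f := match x, y, f with
    | .lo _, .lo _, f => f
    | .lo _, .hi _, f => f
    | .hi _, .hi _, f => ⟨⟨θ.toOrderHom.monotone f.down.down⟩⟩
  map_id x := by
    cases x
    · rfl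
    · rfl
  map_comp {x y z} f g := by
    cases x <;> cases y <;> cases z <;>
      first
      | rfl
      | exact PEmpty.elim f
      | exact PEmpty.elim g

/-- The functor from the join. -/
def Gf {q : ℕ} (τ : ComposableArrows B q) : Cn (CostructuredArrow F (τ.obj 0)) q ⥤ Col F τ where
  obj
    | .lo c => .lo c.left
    | .hi j => .hi j
  map {x y} f := match x, y, f with
    | .lo _, .lo _, f => f.left
    | .lo c, .hi j, _ => (c.hom ≫ τ.map (homOfLE (Fin.zero_le j)) :)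
    | .hi _, .hi _, f => f
  map_id x := by
    cases x
    · rfl
    · rfl
  map_comp {x y z} f g := by
    cases x <;> cases y <;> cases z
    · rfl
    · rename_i c c' j
      have h := CostructuredArrow.w (show c ⟶ c' from f)
      exact (congrArg (· ≫ τ.map (homOfLE (Fin.zero_le j))) h.symm).trans (Category.assoc _ _ _)
    · exact PEmpty.elim g
    · rename_i c j k
      change c.hom ≫ τ.map _ = (c.hom ≫ τ.map _) ≫ τ.map _
      rw [Category.assoc, ← τ.map_comp]
      rfl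
    · exact PEmpty.elim f
    · exact PEmpty.elim f
    · exact PEmpty.elim g
    · rfl

instance {q : ℕ} (τ : ComposableArrows B q) : (inA (F := F) τ).Faithful where
  map_injective h := h

instance {q : ℕ} (τ : ComposableArrows B q) : (cy (F := F) τ).Faithful where
  map_injective {x y} f g h := by
    cases x <;> cases y
    · exact h
    · exact h
    · exact PEmpty.elim f
    · exact Subsingleton.elim (α := ULift (PLift _)) f g

instance {m n : SimplexCategory} (θ : m ⟶ n) (τ : ComposableArrows B n.len) :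
    (push (F := F) θ τ).Faithful where
  map_injective {x y} f g h := by
    cases x <;> cases y
    · exact h
    · exact h
    · exact PEmpty.elim f
    · exact Subsingleton.elim (α := ULift (PLift _)) f g

instance {q : ℕ} (τ : ComposableArrows B q) : (Gf (F := F) τ).Faithful where
  map_injective {x y} f g h := by
    cases x <;> cases y
    · exact CostructuredArrow.hom_ext _ _ h
    · rfl
    · exact PEmpty.elim f
    · exact Subsingleton.elim (α := ULift (PLift _)) f g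

theorem inA_push {m n : SimplexCategory} (θ : m ⟶ n) (τ : ComposableArrows B n.len) :
    inA (F := F) (res θ τ) ⋙ push θ τ = inA τ := rfl

theorem inA_cy {q : ℕ} (τ : ComposableArrows B q) : inA (F := F) τ ⋙ cy τ = Cyl.inLo F := rfl

theorem push_cy {m n : SimplexCategory} (θ : m ⟶ n) (τ : ComposableArrows B n.len) :
    push (F := F) θ τ ⋙ cy τ = cy (res θ τ) := by
  refine Functor.hext ?_ ?_
  · intro x
    cases x <;> rfl
  · intro x y f
    cases x <;> cases y
    · rfl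
    · rfl
    · exact PEmpty.elim f
    · rfl

theorem push_push {m n k : SimplexCategory} (κ : m ⟶ n) (θ : n ⟶ k)
    (τ : ComposableArrows B k.len) :
    push (F := F) κ (res θ τ) ⋙ push θ τ = push (κ ≫ θ) τ := by
  refine Functor.hext ?_ ?_
  · intro x
    cases x <;> rfl
  · intro x y f
    cases x <;> cases y
    · rfl
    · rfl
    · exact PEmpty.elim f
    · rfl

theorem push_id {n : SimplexCategory} (τ : ComposableArrows B n.len) :
    push (F := F) (𝟙 n) τ = 𝟭 (Col F τ) := by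
  refine Functor.hext ?_ ?_
  · intro x
    cases x <;> rfl
  · intro x y f
    cases x <;> cases y
    · rfl
    · rfl
    · exact PEmpty.elim f
    · rfl

theorem heq_cast {C : Type*} [Category* C] {x y x' y' : C} (hx : x = x') (hy : y = y')
    (f : x' ⟶ y') : ∃ g : x ⟶ y, HEq g f := by
  subst hx hy; exact ⟨f, HEq.rfl⟩

theorem nm_app {C D : Type u} [SmallCategory C] [SmallCategory D] (H : C ⥤ D)
    (n : SimplexCategoryᵒᵖ) (a : ComposableArrows C n.unop.len) :
    (nerveMap H).app n a = (a ⋙ H : ComposableArrows D n.unop.len) := rfl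

theorem lo_or_hi {q : ℕ} {τ : ComposableArrows B q} (x : Col F τ) :
    (∃ a, x = .lo a) ∨ ∃ j, x = .hi j := by
  cases x with
  | lo a => exact Or.inl ⟨a, rfl⟩
  | hi j => exact Or.inr ⟨j, rfl⟩

theorem no_hom {q : ℕ} {τ : ComposableArrows B q} {x y : Col F τ} {j : Fin (q + 1)} {a : A}
    (hx : x = .hi j) (hy : y = .lo a) (f : x ⟶ y) : False := by
  subst hx hy; exact PEmpty.elim f

/-- the label of an object -/
def lab {q : ℕ} {τ : ComposableArrows B q} (x : Col F τ) : Fin (q + 1) :=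
  match x with
  | .lo _ => 0
  | .hi j => j

theorem lab_mono {q : ℕ} {τ : ComposableArrows B q} {x y : Col F τ} (f : x ⟶ y) :
    lab x ≤ lab y := by
  cases x <;> cases y
  · exact le_rfl
  · exact Fin.zero_le _
  · exact PEmpty.elim f
  · exact f.down.down

theorem push_full {M N : SimplexCategory} {κ : N ⟶ M} {σ : ComposableArrows B M.len}
    {x y : Col F (res κ σ)} (g : (push κ σ).obj x ⟶ (push κ σ).obj y)
    (h : ∀ i j, x = .hi i → y = .hi j → i ≤ j) : ∃ m : x ⟶ y, (push κ σ).map m = g := by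
  cases x <;> cases y
  · exact ⟨g, rfl⟩
  · exact ⟨g, rfl⟩
  · exact PEmpty.elim g
  · exact ⟨⟨⟨h _ _ rfl rfl⟩⟩, Subsingleton.elim (α := ULift (PLift _)) _ _⟩

/-- canonical form of a simplex of the collage -/
theorem canon {N M : SimplexCategory} (σ : ComposableArrows B M.len)
    (t : ComposableArrows (Col F σ) N.len) (k : Fin (N.len + 1))
    (hlt : ∀ i < k, ∃ a, t.obj i = .lo a) :
    ∃ κ : N ⟶ M, (∀ i, κ.toOrderHom i = lab (t.obj (max i k))) ∧
      ∃ w : ComposableArrows (Col F (res κ σ)) N.len, w ⋙ push κ σ = t ∧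
        ∀ i, (∃ a, w.obj i = .lo a) ∨ w.obj i = .hi i := by
  classical
  let κ : N ⟶ M := SimplexCategory.Hom.mk ⟨fun i => lab (t.obj (max i k)), fun i j h =>
    lab_mono (t.map (homOfLE (max_le_max_right k h)))⟩
  have hκ : ∀ i, κ.toOrderHom i = lab (t.obj (max i k)) := fun i => rfl
  refine ⟨κ, hκ, ?_⟩
  have hch : ∀ i, ∃ x : Col F (res κ σ), (push κ σ).obj x = t.obj i ∧
      ((∃ a, x = .lo a) ∨ x = .hi i) := by
    intro i
    rcases lo_or_hi (t.obj i) with ⟨a, ha⟩ | ⟨j, hj⟩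
    · exact ⟨.lo a, ha.symm, Or.inl ⟨a, rfl⟩⟩
    · refine ⟨.hi i, ?_, Or.inr rfl⟩
      have hki : k ≤ i := by
        by_contra h
        obtain ⟨a, ha⟩ := hlt i (not_le.1 h)
        rw [ha] at hj
        cases hj
      have h1 : (push (F := F) κ σ).obj (.hi i) = .hi (κ.toOrderHom i) := rfl
      rw [h1, hκ, max_eq_left hki, hj]
      rfl
  choose obj hobj hobj' using hch
  obtain ⟨w, hw, hw'⟩ := exists_lift (push κ σ) t obj hobj (by
    intro i j α
    obtain ⟨g, hg⟩ := heq_cast (hobj i) (hobj j) (t.map α)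
    obtain ⟨m, hm⟩ := push_full g (by
      intro i' j' h1 h2
      rcases hobj' i with ⟨a, ha⟩ | ha
      · rw [ha] at h1; cases h1
      rcases hobj' j with ⟨b, hb⟩ | hb
      · rw [hb] at h2; cases h2
      rw [ha] at h1
      rw [hb] at h2
      cases h1
      cases h2
      exact leOfHom α)
    exact ⟨m, by rw [hm]; exact hg⟩)
  refine ⟨w, hw, fun i => ?_⟩
  rw [hw']
  exact hobj' i

theorem first_hi {N : SimplexCategory} {q : ℕ} {σ : ComposableArrows B q}
    {t : ComposableArrows (Col F σ) N.len} (h : ¬ ∀ i, ∃ a, t.obj i = .lo a) :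
    ∃ k, (∃ j, t.obj k = .hi j) ∧ ∀ i < k, ∃ a, t.obj i = .lo a := by
  push Not at h
  obtain ⟨i0, hi0⟩ := h
  obtain ⟨k, hk, hmin⟩ := WellFounded.has_min (wellFounded_lt (α := Fin (N.len + 1)))
    {i | ¬ ∃ a, t.obj i = .lo a} ⟨i0, by simpa using hi0⟩
  refine ⟨k, ?_, ?_⟩
  · rcases lo_or_hi (t.obj k) with h1 | h1
    · exact absurd h1 hk
    · exact h1
  · intro i hi
    by_contra h2
    exact hmin i h2 hi

theorem all_lo {N : SimplexCategory} {q : ℕ} {σ : ComposableArrows B q}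
    {t : ComposableArrows (Col F σ) N.len} (h : ∀ i, ∃ a, t.obj i = .lo a) :
    ∃ a : ComposableArrows A N.len, a ⋙ inA σ = t := by
  choose obj hobj using h
  obtain ⟨w, hw, hw'⟩ := exists_lift (inA σ) t obj (fun i => (hobj i).symm) (by
    intro i j α
    obtain ⟨g, hg⟩ := heq_cast (hobj i).symm (hobj j).symm (t.map α)
    exact ⟨g, hg⟩)
  exact ⟨w, hw⟩

/-- a map that misses a vertex -/
def Miss {m : SimplexCategory} {q : ℕ} (θ : m ⟶ ⦋q⦌) : Prop :=
  ∃ j : Fin (q + 1), ∀ i, θ.toOrderHom i ≠ j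

section

variable {U V : SSet.{u}} (f : nerve A ⟶ U) (v : nerve (Cyl F) ⟶ V) (p : U ⟶ V)
  {q : ℕ} (τ : ComposableArrows B q)
  (y : ∀ (m : SimplexCategory) (θ : m ⟶ ⦋q⦌), Miss θ →
    (nerve (Col F (res (n := ⦋q⦌) θ τ)) ⟶ U))

/-- the relation between simplices determined by the boundary data -/
def Rel (n : SimplexCategoryᵒᵖ) (s : (nerve (Col F τ)).obj n) (u : U.obj n) : Prop :=
  (∃ a : (nerve A).obj n, (nerveMap (inA τ)).app n a = s ∧ f.app n a = u) ∨
  (∃ (m : SimplexCategory) (θ : m ⟶ ⦋q⦌) (hθ : Miss θ)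
    (t : (nerve (Col F (res (n := ⦋q⦌) θ τ))).obj n),
    (nerveMap (push (n := ⦋q⦌) θ τ)).app n t = s ∧ (y m θ hθ).app n t = u)

variable {f τ y}

theorem rel_nat {n n' : SimplexCategoryᵒᵖ} (μ : n ⟶ n') (s : (nerve (Col F τ)).obj n)
    (u : U.obj n) (h : Rel f τ y n s u) :
    Rel f τ y n' ((nerve (Col F τ)).map μ s) (U.map μ u) := by
  rcases h with ⟨a, h1, h2⟩ | ⟨m, θ, hθ, t, h1, h2⟩
  · left
    refine ⟨(nerve A).map μ a, ?_, ?_⟩
    · rw [← h1]; rfl
    · rw [← h2]; exact NatTrans.naturality_apply f μ a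
  · right
    refine ⟨m, θ, hθ, (nerve _).map μ t, ?_, ?_⟩
    · rw [← h1]; rfl
    · rw [← h2]; exact NatTrans.naturality_apply (y m θ hθ) μ t

theorem inA_inj {N : SimplexCategory} {q : ℕ} {σ : ComposableArrows B q}
    {a a' : ComposableArrows A N.len} (h : a ⋙ inA (F := F) σ = a' ⋙ inA σ) : a = a' := by
  refine lift_unique (inA (F := F) σ) a a' h fun i => ?_
  have h1 := Functor.congr_obj h i
  exact Col.lo.inj h1

theorem rel_lo (y1 : ∀ m θ hθ, nerveMap (inA _) ≫ y m θ hθ = f)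
    {n : SimplexCategoryᵒᵖ} {s : (nerve (Col F τ)).obj n} {u : U.obj n}
    (h : Rel f τ y n s u) (a : (nerve A).obj n) (ha : (nerveMap (inA τ)).app n a = s) :
    f.app n a = u := by
  rcases h with ⟨a', h1, h2⟩ | ⟨m, θ, hθ, t, h1, h2⟩
  · have h3 : a = a' := inA_inj (N := n.unop) (σ := τ) (ha.trans h1.symm)
    rw [h3]; exact h2
  · have h3 : t = (nerveMap (inA (F := F) (res (n := ⦋q⦌) θ τ))).app n a := by
      refine lift_unique (push (F := F) (n := ⦋q⦌) θ τ) t (a ⋙ inA (res (n := ⦋q⦌) θ τ))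
        (h1.trans ha.symm) fun i => ?_
      have h4 : (push (F := F) (n := ⦋q⦌) θ τ).obj (t.obj i) = .lo (a.obj i) :=
        Functor.congr_obj (h1.trans ha.symm) i
      change t.obj i = .lo (a.obj i)
      revert h4
      cases t.obj i with
      | lo b => exact fun h4 => congrArg Col.lo (Col.lo.inj h4)
      | hi j => exact fun h4 => by cases h4
    rw [← h2, h3, ← y1 m θ hθ]
    rfl

theorem rel_can {n : SimplexCategoryᵒᵖ} (θ1 θ2 : n.unop ⟶ ⦋q⦌) (h1 : Miss θ1) (h2 : Miss θ2)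
    (w1 : (nerve (Col F (res (n := ⦋q⦌) θ1 τ))).obj n)
    (w2 : (nerve (Col F (res (n := ⦋q⦌) θ2 τ))).obj n) (hθ : θ1 = θ2)
    (hw : (nerveMap (push (n := ⦋q⦌) θ1 τ)).app n w1 = (nerveMap (push (n := ⦋q⦌) θ2 τ)).app n w2)
    (t1 : ∀ i, (∃ a, w1.obj i = .lo a) ∨ w1.obj i = .hi i)
    (t2 : ∀ i, (∃ a, w2.obj i = .lo a) ∨ w2.obj i = .hi i) :
    (y _ θ1 h1).app n w1 = (y _ θ2 h2).app n w2 := by
  subst hθ
  have h3 : w1 = w2 := by
    refine lift_unique (push (F := F) (n := ⦋q⦌) θ1 τ) w1 w2 hw fun i => ?_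
    have h4 : (push (F := F) (n := ⦋q⦌) θ1 τ).obj (w1.obj i) =
      (push (F := F) (n := ⦋q⦌) θ1 τ).obj (w2.obj i) := Functor.congr_obj hw i
    rcases t1 i with ⟨a, ha⟩ | ha <;> rcases t2 i with ⟨b, hb⟩ | hb
    · rw [ha, hb] at h4 ⊢
      exact congrArg Col.lo (Col.lo.inj h4)
    · rw [ha, hb] at h4
      cases h4
    · rw [ha, hb] at h4
      cases h4
    · rw [ha, hb]
  rw [h3]

/-- reduction of a value to the canonical form -/
theorem red (y3 : ∀ m m' (κ : m' ⟶ m) (θ : m ⟶ ⦋q⦌) hθ hθ', y m' (κ ≫ θ) hθ' =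
      nerveMap (push κ (res (n := ⦋q⦌) θ τ)) ≫ y m θ hθ)
    {n : SimplexCategoryᵒᵖ} {s : (nerve (Col F τ)).obj n} {m : SimplexCategory} (θ : m ⟶ ⦋q⦌)
    (hθ : Miss θ) (t : (nerve (Col F (res (n := ⦋q⦌) θ τ))).obj n)
    (hs : (nerveMap (push (n := ⦋q⦌) θ τ)).app n t = s) (k : Fin (n.unop.len + 1))
    (hk : ∃ j, s.obj k = .hi j) (hlt : ∀ i < k, ∃ a, s.obj i = .lo a) :
    ∃ (θ1 : n.unop ⟶ ⦋q⦌) (h1 : Miss θ1) (w1 : (nerve (Col F (res (n := ⦋q⦌) θ1 τ))).obj n),
      (∀ i, θ1.toOrderHom i = lab (s.obj (max i k))) ∧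
      (nerveMap (push (n := ⦋q⦌) θ1 τ)).app n w1 = s ∧
      (∀ i, (∃ a, w1.obj i = .lo a) ∨ w1.obj i = .hi i) ∧
      (y _ θ1 h1).app n w1 = (y m θ hθ).app n t := by
  have hobj : ∀ i, (push (F := F) (n := ⦋q⦌) θ τ).obj (t.obj i) = s.obj i :=
    fun i => Functor.congr_obj hs i
  have hlt' : ∀ i < k, ∃ a, t.obj i = .lo a := by
    intro i hi
    obtain ⟨a, ha⟩ := hlt i hi
    have h4 := (hobj i).trans ha
    revert h4
    cases t.obj i with
    | lo b => exact fun _ => ⟨b, rfl⟩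
    | hi j => exact fun h4 => by cases h4
  obtain ⟨κ, hκ, w, hw, hw'⟩ := canon (F := F) (res (n := ⦋q⦌) θ τ) t k hlt'
  obtain ⟨j0, hj0⟩ := hθ
  have hθ : Miss θ := ⟨j0, hj0⟩
  have h1 : Miss (κ ≫ θ) := ⟨j0, fun i => hj0 (κ.toOrderHom i)⟩
  refine ⟨κ ≫ θ, h1, w, ?_, ?_, hw', ?_⟩
  · intro i
    change θ.toOrderHom (κ.toOrderHom i) = _
    rw [hκ]
    have hge : ∃ j, s.obj (max i k) = .hi j := by
      rcases lo_or_hi (s.obj (max i k)) with ⟨a, ha⟩ | h
      · obtain ⟨j, hj⟩ := hk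
        exact (no_hom hj ha (s.map (homOfLE (le_max_right i k)))).elim
      · exact h
    obtain ⟨j, hj⟩ := hge
    have h4 := (hobj (max i k)).trans hj
    rw [hj]
    revert h4
    cases t.obj (max i k) with
    | lo b => exact fun h4 => by cases h4
    | hi j' => exact fun h4 => Col.hi.inj h4
  · rw [← hs, ← hw]
    exact congrArg (fun H => (w ⋙ H : ComposableArrows (Col F τ) n.unop.len))
      (push_push (F := F) (k := ⦋q⦌) κ θ τ).symm
  · rw [y3 _ _ κ θ hθ h1, ← hw]
    rfl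

theorem rel_uniq (y1 : ∀ m θ hθ, nerveMap (inA _) ≫ y m θ hθ = f)
    (y3 : ∀ m m' (κ : m' ⟶ m) (θ : m ⟶ ⦋q⦌) hθ hθ', y m' (κ ≫ θ) hθ' =
      nerveMap (push κ (res (n := ⦋q⦌) θ τ)) ≫ y m θ hθ)
    {n : SimplexCategoryᵒᵖ} {s : (nerve (Col F τ)).obj n} {u u' : U.obj n}
    (h : Rel f τ y n s u) (h' : Rel f τ y n s u') : u = u' := by
  by_cases hlo : ∀ i, ∃ a, s.obj i = .lo a
  · obtain ⟨a, ha⟩ := all_lo (N := n.unop) hlo
    rw [← rel_lo y1 h a ha, ← rel_lo y1 h' a ha]
  · obtain ⟨k, hk, hlt⟩ := first_hi (N := n.unop) hlo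
    have hA : ∀ u'', Rel f τ y n s u'' → ∃ (m : SimplexCategory) (θ : m ⟶ ⦋q⦌) (hθ : Miss θ)
        (t : (nerve (Col F (res (n := ⦋q⦌) θ τ))).obj n),
        (nerveMap (push (n := ⦋q⦌) θ τ)).app n t = s ∧ (y m θ hθ).app n t = u'' := by
      rintro u'' (⟨a, h1, h2⟩ | h1)
      · exfalso
        apply hlo
        intro i
        rw [← h1]
        exact ⟨a.obj i, rfl⟩
      · exact h1
    obtain ⟨m, θ, hθ, t, h1, h2⟩ := hA u h
    obtain ⟨m', θ', hθ', t', h1', h2'⟩ := hA u' h'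
    obtain ⟨θ1, hm1, w1, e1, e2, e3, e4⟩ := red y3 θ hθ t h1 k hk hlt
    obtain ⟨θ2, hm2, w2, e1', e2', e3', e4'⟩ := red y3 θ' hθ' t' h1' k hk hlt
    rw [← h2, ← h2', ← e4, ← e4']
    refine rel_can θ1 θ2 hm1 hm2 w1 w2 ?_ (e2.trans e2'.symm) e3 e3'
    apply SimplexCategory.Hom.ext
    ext i : 2
    rw [e1, e1']

theorem rel_ex {n : SimplexCategoryᵒᵖ} {s : (nerve (Col F τ)).obj n}
    (h : ∃ j, ∀ i, s.obj i ≠ .hi j) : ∃ u, Rel f τ y n s u := by
  by_cases hlo : ∀ i, ∃ a, s.obj i = .lo a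
  · obtain ⟨a, ha⟩ := all_lo (N := n.unop) hlo
    exact ⟨f.app n a, Or.inl ⟨a, ha, rfl⟩⟩
  · obtain ⟨k, ⟨j, hj⟩, hlt⟩ := first_hi (N := n.unop) hlo
    obtain ⟨κ, hκ, w, hw, hw'⟩ := canon (F := F) (N := n.unop) (M := ⦋q⦌) τ s k hlt
    obtain ⟨j0, hj0⟩ := h
    have hm : Miss κ := by
      refine ⟨j0, fun i hi => ?_⟩
      rw [hκ] at hi
      rcases lo_or_hi (s.obj (max i k)) with ⟨a, ha⟩ | ⟨j', hj'⟩
      · exact no_hom hj ha (s.map (homOfLE (le_max_right i k)))
      · rw [hj'] at hi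
        apply hj0 (max i k)
        rw [hj']
        exact congrArg Col.hi hi
    exact ⟨(y _ κ hm).app n w, Or.inr ⟨_, κ, hm, w, hw, rfl⟩⟩

/-- no simplex of the join over `hi 0` is determined by more than its image -/
theorem Gf_obj_inj {x x' z z' : Cn (CostructuredArrow F (τ.obj 0)) q} (g : x ⟶ z) (g' : x' ⟶ z')
    (hz : z = .hi 0) (hz' : z' = .hi 0) (h : (Gf τ).obj x = (Gf τ).obj x')
    (hg : HEq ((Gf τ).map g) ((Gf τ).map g')) : x = x' := by
  subst hz hz'
  cases x with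
  | lo c =>
    cases x' with
    | lo c' =>
      have h1 : c.left = c'.left := Col.lo.inj h
      obtain ⟨a, ⟨⟨⟩⟩, w⟩ := c
      obtain ⟨a', ⟨⟨⟩⟩, w'⟩ := c'
      have h2 : a = a' := h1
      subst h2
      have h3 : w ≫ τ.map (homOfLE (Fin.zero_le 0)) = w' ≫ τ.map (homOfLE (Fin.zero_le 0)) :=
        eq_of_heq hg
      have h4 : τ.map (homOfLE (Fin.zero_le (0 : Fin (q + 1)))) = 𝟙 _ := τ.map_id _
      rw [h4] at h3
      have h5 : w = w' := by
        have e1 : w ≫ 𝟙 (τ.obj 0) = w := Category.comp_id w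
        have e2 : w' ≫ 𝟙 (τ.obj 0) = w' := Category.comp_id w'
        exact e1.symm.trans (h3.trans e2)
      rw [h5]
    | hi j => cases h
  | hi j =>
    cases x' with
    | lo c' => cases h
    | hi j' => exact congrArg Cn.hi (Col.hi.inj h)

theorem Gf_unique {N : SimplexCategory}
    {t t' : ComposableArrows (Cn (CostructuredArrow F (τ.obj 0)) q) N.len}
    (h : t ⋙ Gf τ = t' ⋙ Gf τ) (i0 : Fin (N.len + 1)) (h0 : t.obj i0 = .hi 0) : t = t' := by
  have hob : ∀ i, (Gf τ).obj (t.obj i) = (Gf τ).obj (t'.obj i) := fun i => Functor.congr_obj h i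
  have h0' : t'.obj i0 = .hi 0 := by
    have h1 := hob i0
    rw [h0] at h1
    revert h1
    cases t'.obj i0 with
    | lo c => exact fun h1 => by cases h1
    | hi j => exact fun h1 => congrArg Cn.hi (Col.hi.inj h1).symm
  refine lift_unique (Gf τ) t t' h fun i => ?_
  rcases le_total i i0 with hi | hi
  · refine Gf_obj_inj (t.map (homOfLE hi)) (t'.map (homOfLE hi)) h0 h0' (hob i) ?_
    exact Functor.hcongr_hom h (homOfLE hi)
  · have g := t.map (homOfLE hi)
    rw [h0] at g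
    have h1 := hob i
    revert g h1
    cases t.obj i with
    | lo c => exact fun g _ => PEmpty.elim g
    | hi j =>
      cases t'.obj i with
      | lo c => exact fun _ h1 => by cases h1
      | hi j' => exact fun _ h1 => congrArg Cn.hi (Col.hi.inj h1)

omit y in
theorem comp_aux {x y z : Col F τ} (g1 : x ⟶ y) (g2 : y ⟶ z) {a a' : A} (hx : x = .lo a)
    (hy : y = .lo a') (hz : z = .hi 0) (g : a ⟶ a') (w : F.obj a ⟶ τ.obj 0)
    (w' : F.obj a' ⟶ τ.obj 0) (h1 : HEq g1 g) (h2 : HEq g2 w') (h12 : HEq (g1 ≫ g2) w) :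
    F.map g ≫ w' = w := by
  subst hx hy hz
  have e1 := eq_of_heq h1
  have e2 := eq_of_heq h2
  have e3 := eq_of_heq h12
  rw [← e3]
  subst e1 e2
  rfl

theorem comp_aux2 {x y z : Col F τ} (g1 : x ⟶ y) (g2 : y ⟶ z) {a : A} {j : Fin (q + 1)}
    (hx : x = .lo a) (hy : y = .hi 0) (hz : z = .hi j) (w : F.obj a ⟶ τ.obj 0)
    (h1 : HEq g1 w) : HEq (w ≫ τ.map (homOfLE (Fin.zero_le j))) (g1 ≫ g2) := by
  subst hx hy hz
  have e1 := eq_of_heq h1
  subst e1
  exact HEq.rfl

theorem Gf_lift {N : SimplexCategory} (s : ComposableArrows (Col F τ) N.len)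
    (k : Fin (N.len + 1)) (hk : s.obj k = .hi 0) (hlt : ∀ i < k, ∃ a, s.obj i = .lo a) :
    ∃ t : ComposableArrows (Cn (CostructuredArrow F (τ.obj 0)) q) N.len, t ⋙ Gf τ = s := by
  have hch : ∀ i, ∃ x : Cn (CostructuredArrow F (τ.obj 0)) q,
      (∃ (a : A) (w : F.obj a ⟶ τ.obj 0) (h : i ≤ k), x = .lo (CostructuredArrow.mk w) ∧
        s.obj i = .lo a ∧ HEq (s.map (homOfLE h)) w) ∨ (∃ j, x = .hi j ∧ s.obj i = .hi j) := by
    intro i
    rcases lo_or_hi (s.obj i) with ⟨a, ha⟩ | ⟨j, hj⟩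
    · have hik : i ≤ k := by
        by_contra h
        exact no_hom hk ha (s.map (homOfLE (not_le.1 h).le))
      obtain ⟨g, hg⟩ := heq_cast ha.symm hk.symm (s.map (homOfLE hik))
      exact ⟨.lo (CostructuredArrow.mk (show F.obj a ⟶ τ.obj 0 from g)),
        Or.inl ⟨a, g, hik, rfl, ha, hg.symm⟩⟩
    · exact ⟨.hi j, Or.inr ⟨j, rfl, hj⟩⟩
  choose obj hobj using hch
  obtain ⟨t, ht, -⟩ := exists_lift (Gf τ) s obj (by
    intro i
    rcases hobj i with ⟨a, w, h, h1, h2, h3⟩ | ⟨j, h1, h2⟩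
    · rw [h1, h2]; rfl
    · rw [h1, h2]; rfl) (by
    intro i j α
    rcases hobj i with ⟨a, w, h, h1, h2, h3⟩ | ⟨l, h1, h2⟩
    · rcases hobj j with ⟨a', w', h', h1', h2', h3'⟩ | ⟨l', h1', h2'⟩
      · obtain ⟨g, hg⟩ := heq_cast h2.symm h2'.symm (s.map α)
        have hw : F.map g ≫ w' = w := by
          refine comp_aux (s.map α) (s.map (homOfLE h')) h2 h2' hk g w w' hg.symm h3' ?_
          rw [← s.map_comp]
          exact h3
        rw [h1, h1']
        exact ⟨(CostructuredArrow.homMk g hw : CostructuredArrow.mk w ⟶ CostructuredArrow.mk w'),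
          hg⟩
      · have hkj : k ≤ j := by
          by_contra hc
          obtain ⟨b, hb⟩ := hlt j (not_le.1 hc)
          rw [hb] at h2'; cases h2'
        have e : s.map α = s.map (homOfLE h) ≫ s.map (homOfLE hkj) := by
          rw [← s.map_comp]; rfl
        rw [h1, h1', e]
        exact ⟨PUnit.unit, comp_aux2 _ _ h2 hk h2' w h3⟩
    · rcases hobj j with ⟨a', w', h', h1', h2', h3'⟩ | ⟨l', h1', h2'⟩
      · exact (no_hom h2 h2' (s.map α)).elim
      · obtain ⟨g, hg⟩ := heq_cast h2.symm h2'.symm (s.map α)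
        rw [h1, h1']
        exact ⟨g, hg⟩)
  exact ⟨t, ht⟩

theorem rel_p {v : nerve (Cyl F) ⟶ V} {p : U ⟶ V} (hfv : f ≫ p = nerveMap (Cyl.inLo F) ≫ v)
    (y2 : ∀ m θ hθ, y m θ hθ ≫ p = nerveMap (cy _) ≫ v)
    {n : SimplexCategoryᵒᵖ} {s : (nerve (Col F τ)).obj n} {u : U.obj n}
    (h : Rel f τ y n s u) : p.app n u = v.app n ((nerveMap (cy τ)).app n s) := by
  rcases h with ⟨a, h1, h2⟩ | ⟨m, θ, hθ, t, h1, h2⟩
  · rw [← h1, ← h2]
    exact congrArg (fun H : nerve A ⟶ V => H.app n a) hfv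
  · rw [← h1, ← h2]
    have h3 := congrArg (fun H : nerve (Col F (res (n := ⦋q⦌) θ τ)) ⟶ V => H.app n t) (y2 m θ hθ)
    refine h3.trans ?_
    have h4 : (nerveMap (cy (F := F) (res (n := ⦋q⦌) θ τ))).app n t =
        (nerveMap (cy τ)).app n ((nerveMap (push (n := ⦋q⦌) θ τ)).app n t) :=
      congrArg (fun H => (t ⋙ H : ComposableArrows (Cyl F) n.unop.len))
        (push_cy (F := F) (n := ⦋q⦌) θ τ).symm
    exact congrArg (fun x => v.app n x) h4

theorem rel_miss {n : SimplexCategoryᵒᵖ} {s : (nerve (Col F τ)).obj n} {u : U.obj n}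
    (h : Rel f τ y n s u) : ∃ j, ∀ i, s.obj i ≠ .hi j := by
  rcases h with ⟨a, h1, h2⟩ | ⟨m, θ, ⟨j, hj⟩, t, h1, h2⟩
  · refine ⟨0, fun i h3 => ?_⟩
    rw [← h1] at h3
    cases h3
  · refine ⟨j, fun i h3 => ?_⟩
    have h4 : (push (F := F) (n := ⦋q⦌) θ τ).obj (t.obj i) = .hi j :=
      (Functor.congr_obj h1 i).trans h3
    revert h4
    cases t.obj i with
    | lo b => exact fun h4 => by cases h4
    | hi j' => exact fun h4 => hj j' (Col.hi.inj h4)

theorem Gf_miss {N : SimplexCategory}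
    {t : ComposableArrows (Cn (CostructuredArrow F (τ.obj 0)) q) N.len} {j : Fin (q + 1)} :
    (∀ i, t.obj i ≠ .hi j) ↔ ∀ i, (t ⋙ Gf τ).obj i ≠ .hi j := by
  refine forall_congr' fun i => not_congr ?_
  change t.obj i = .hi j ↔ (Gf τ).obj (t.obj i) = .hi j
  cases t.obj i with
  | lo c => exact ⟨fun h => (by cases h), fun h => (by cases h)⟩
  | hi j' => exact ⟨fun h => congrArg Col.hi (Cn.hi.inj h), fun h => congrArg Cn.hi (Col.hi.inj h)⟩

theorem main_ext {v : nerve (Cyl F) ⟶ V} {p : U ⟶ V}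
    (hfv : f ≫ p = nerveMap (Cyl.inLo F) ≫ v)
    (y1 : ∀ m θ hθ, nerveMap (inA _) ≫ y m θ hθ = f)
    (y2 : ∀ m θ hθ, y m θ hθ ≫ p = nerveMap (cy _) ≫ v)
    (y3 : ∀ m m' (κ : m' ⟶ m) (θ : m ⟶ ⦋q⦌) hθ hθ', y m' (κ ≫ θ) hθ' =
      nerveMap (push κ (res (n := ⦋q⦌) θ τ)) ≫ y m θ hθ)
    (hlp : HasLiftingProperty (bd (CostructuredArrow F (τ.obj 0)) q).ι p) :
    ∃ z : nerve (Col F τ) ⟶ U, nerveMap (inA τ) ≫ z = f ∧ z ≫ p = nerveMap (cy τ) ≫ v ∧
      ∀ m θ hθ, nerveMap (push (n := ⦋q⦌) θ τ) ≫ z = y m θ hθ := by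
  -- the map on the boundary part of the join
  obtain ⟨w0, hw0⟩ := mk_hom (X := (bd (CostructuredArrow F (τ.obj 0)) q : SSet.{u})) (U := U)
    (fun n x u => Rel f τ y n ((nerveMap (Gf τ)).app n x.1) u)
    (fun n x => by
      obtain ⟨j, hj⟩ := x.2
      exact rel_ex ⟨j, (Gf_miss (N := n.unop)).1 hj⟩)
    (fun n x u u' h h' => rel_uniq y1 y3 h h')
    (fun μ x u h => rel_nat μ _ u h)
  have sq : CommSq w0 (bd (CostructuredArrow F (τ.obj 0)) q).ι p
      (nerveMap (Gf τ) ≫ nerveMap (cy τ) ≫ v) := by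
    refine ⟨?_⟩
    ext n x
    exact rel_p hfv y2 (hw0 n x)
  obtain ⟨z0, hz1, hz2⟩ : ∃ z0 : nerve (Cn (CostructuredArrow F (τ.obj 0)) q) ⟶ U,
      (bd (CostructuredArrow F (τ.obj 0)) q).ι ≫ z0 = w0 ∧
      z0 ≫ p = nerveMap (Gf τ) ≫ nerveMap (cy τ) ≫ v :=
    ⟨sq.lift, sq.fac_left, sq.fac_right⟩
  have keyT : ∀ (n : SimplexCategoryᵒᵖ)
      (t : (nerve (Cn (CostructuredArrow F (τ.obj 0)) q)).obj n),
      (∃ j, ∀ i, t.obj i ≠ .hi j) → Rel f τ y n ((nerveMap (Gf τ)).app n t) (z0.app n t) := by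
    intro n t ht
    have h1 := hw0 n ⟨t, ht⟩
    have h2 : w0.app n ⟨t, ht⟩ = z0.app n t := by
      rw [← hz1]; rfl
    rw [h2] at h1
    exact h1
  have huniq : ∀ (n : SimplexCategoryᵒᵖ) (s : (nerve (Col F τ)).obj n) (u u' : U.obj n),
      (Rel f τ y n s u ∨ ∃ t : (nerve (Cn (CostructuredArrow F (τ.obj 0)) q)).obj n,
        (nerveMap (Gf τ)).app n t = s ∧ z0.app n t = u) →
      (Rel f τ y n s u' ∨ ∃ t : (nerve (Cn (CostructuredArrow F (τ.obj 0)) q)).obj n,
        (nerveMap (Gf τ)).app n t = s ∧ z0.app n t = u') → u = u' := by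
    intro n s u u' h h'
    by_cases hs : ∃ j, ∀ i, s.obj i ≠ .hi j
    · obtain ⟨j, hj⟩ := hs
      have hR : ∀ u'', (Rel f τ y n s u'' ∨
          ∃ t : (nerve (Cn (CostructuredArrow F (τ.obj 0)) q)).obj n,
          (nerveMap (Gf τ)).app n t = s ∧ z0.app n t = u'') → Rel f τ y n s u'' := by
        rintro u'' (h1 | ⟨t, h1, h2⟩)
        · exact h1
        · have h3 := keyT n t ⟨j, (Gf_miss (N := n.unop)).2 (by
            intro i
            have h4 := hj i
            rw [← h1] at h4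
            exact h4)⟩
          rw [h1, h2] at h3
          exact h3
      exact rel_uniq y1 y3 (hR u h) (hR u' h')
    · have hT : ∀ u'', (Rel f τ y n s u'' ∨
          ∃ t : (nerve (Cn (CostructuredArrow F (τ.obj 0)) q)).obj n,
          (nerveMap (Gf τ)).app n t = s ∧ z0.app n t = u'') →
          ∃ t : (nerve (Cn (CostructuredArrow F (τ.obj 0)) q)).obj n,
          (nerveMap (Gf τ)).app n t = s ∧ z0.app n t = u'' := by
        rintro u'' (h1 | h1)
        · exact absurd (rel_miss h1) hs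
        · exact h1
      obtain ⟨t, h1, h2⟩ := hT u h
      obtain ⟨t', h1', h2'⟩ := hT u' h'
      have h3 : ∃ i0, t.obj i0 = .hi 0 := by
        by_contra h4
        push Not at h4
        apply hs
        refine ⟨0, ?_⟩
        rw [← h1]
        exact (Gf_miss (N := n.unop)).1 h4
      obtain ⟨i0, hi0⟩ := h3
      have h4 : t = t' := Gf_unique (N := n.unop) (h1.trans h1'.symm) i0 hi0
      rw [← h2, ← h2', h4]
  obtain ⟨z, hz⟩ := mk_hom (X := nerve (Col F τ)) (U := U)
    (fun n s u => Rel f τ y n s u ∨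
      ∃ t : (nerve (Cn (CostructuredArrow F (τ.obj 0)) q)).obj n,
        (nerveMap (Gf τ)).app n t = s ∧ z0.app n t = u)
    (fun n s => by
      by_cases hs : ∃ j, ∀ i, s.obj i ≠ .hi j
      · obtain ⟨u, hu⟩ := rel_ex (f := f) (y := y) hs
        exact ⟨u, Or.inl hu⟩
      · push Not at hs
        have hlo : ¬ ∀ i, ∃ a, s.obj i = .lo a := by
          intro h
          obtain ⟨i, hi⟩ := hs 0
          obtain ⟨a, ha⟩ := h i
          rw [hi] at ha
          cases ha
        obtain ⟨k, ⟨j, hj⟩, hlt⟩ := first_hi (N := n.unop) hlo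
        obtain ⟨i0, hi0⟩ := hs 0
        have hki : k ≤ i0 := by
          by_contra h
          obtain ⟨a, ha⟩ := hlt i0 (not_le.1 h)
          rw [ha] at hi0
          cases hi0
        have hj0 : j = 0 := by
          have h1 := lab_mono (s.map (homOfLE hki))
          rw [hj, hi0] at h1
          exact Fin.le_zero_iff.1 h1
        subst hj0
        obtain ⟨t, ht⟩ := Gf_lift (N := n.unop) s k hj hlt
        exact ⟨z0.app n t, Or.inr ⟨t, ht, rfl⟩⟩)
    huniq
    (fun {n n'} μ s u h => by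
      rcases h with h | ⟨t, h1, h2⟩
      · exact Or.inl (rel_nat μ s u h)
      · right
        refine ⟨(nerve _).map μ t, ?_, ?_⟩
        · rw [← h1]; rfl
        · rw [← h2]; exact NatTrans.naturality_apply z0 μ t)
  refine ⟨z, ?_, ?_, ?_⟩
  · ext n a
    exact huniq n _ _ _ (hz n _) (Or.inl (Or.inl ⟨a, rfl, rfl⟩))
  · ext n s
    rcases hz n s with h | ⟨t, h1, h2⟩
    · exact rel_p hfv y2 h
    · have h3 := congrArg (fun H : nerve (Cn (CostructuredArrow F (τ.obj 0)) q) ⟶ V =>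
        H.app n t) hz2
      have h4 : p.app n (z0.app n t) = v.app n ((nerveMap (cy τ)).app n
        ((nerveMap (Gf τ)).app n t)) := h3
      rw [h1, h2] at h4
      exact h4
  · intro m θ hθ
    ext n t
    exact huniq n _ _ _ (hz n _) (Or.inl (Or.inr ⟨m, θ, hθ, t, rfl, rfl⟩))

end

section

variable {U V : SSet.{u}} (f : nerve A ⟶ U) (v : nerve (Cyl F) ⟶ V) (p : U ⟶ V)

/-- the fibre of the auxiliary simplicial set -/
def Fib {q : ℕ} (τ : ComposableArrows B q) : Type u :=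
  {y : nerve (Col F τ) ⟶ U // nerveMap (inA τ) ≫ y = f ∧ y ≫ p = nerveMap (cy τ) ≫ v}

/-- restriction in the fibres -/
def Fib.res {m n : SimplexCategory} (θ : m ⟶ n) (τ : ComposableArrows B n.len)
    (y : Fib f v p τ) : Fib f v p (P4.res θ τ) :=
  ⟨nerveMap (push θ τ) ≫ y.1, by
    refine ⟨?_, ?_⟩
    · exact y.2.1
    · rw [Category.assoc, y.2.2]
      ext k t
      exact congrArg (fun x => v.app k x)
        (congrArg (fun H => (t ⋙ H : ComposableArrows (Cyl F) k.unop.len))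
          (push_cy (F := F) θ τ))⟩

theorem Fib.res_id {n : SimplexCategory} (τ : ComposableArrows B n.len) (y : Fib f v p τ) :
    Fib.res f v p (𝟙 n) τ y = y := by
  refine Subtype.ext (a1 := Fib.res f v p (𝟙 n) τ y) (a2 := y) ?_
  change nerveMap (push (F := F) (𝟙 n) τ) ≫ y.1 = y.1
  ext k t
  exact congrArg (fun x => y.1.app k x)
    (congrArg (fun H => (t ⋙ H : ComposableArrows (Col F τ) k.unop.len))
      (push_id (F := F) (n := n) τ))

theorem Fib.res_comp {m n k : SimplexCategory} (κ : m ⟶ n) (θ : n ⟶ k)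
    (τ : ComposableArrows B k.len) (y : Fib f v p τ) :
    Fib.res f v p (κ ≫ θ) τ y = Fib.res f v p κ (P4.res θ τ) (Fib.res f v p θ τ y) := by
  refine Subtype.ext (a1 := Fib.res f v p (κ ≫ θ) τ y)
    (a2 := Fib.res f v p κ (P4.res θ τ) (Fib.res f v p θ τ y)) ?_
  change nerveMap (push (F := F) (κ ≫ θ) τ) ≫ y.1 =
    nerveMap (push (F := F) κ (P4.res θ τ)) ≫ nerveMap (push (F := F) θ τ) ≫ y.1
  ext l t
  exact congrArg (fun x => y.1.app l x)
    (congrArg (fun H => (t ⋙ H : ComposableArrows (Col F τ) l.unop.len))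
      (push_push (F := F) κ θ τ).symm)

/-- the auxiliary simplicial set -/
def Yset : SSet.{u} where
  obj n := Σ τ : ComposableArrows B n.unop.len, Fib f v p τ
  map {n m} μ := ↾fun x => ⟨P4.res μ.unop x.1, Fib.res f v p μ.unop x.1 x.2⟩
  map_id n := by
    refine ConcreteCategory.hom_ext _ _ ?_
    rintro ⟨τ, y⟩
    exact congrArg (fun z => (⟨τ, z⟩ : Σ τ : ComposableArrows B n.unop.len, Fib f v p τ))
      (Fib.res_id f v p τ y)
  map_comp {n m k} μ ν := by
    refine ConcreteCategory.hom_ext _ _ ?_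
    rintro ⟨τ, y⟩
    exact congrArg (fun z => (⟨P4.res (ν.unop ≫ μ.unop) τ, z⟩ :
      Σ τ : ComposableArrows B k.unop.len, Fib f v p τ))
      (Fib.res_comp f v p ν.unop μ.unop τ y)

/-- the projection -/
def Yproj : Yset f v p ⟶ nerve B where
  app n := ↾fun x => (x.1 : ComposableArrows B n.unop.len)
  naturality _ _ _ := rfl

variable {f v p}

theorem sigma_eq {q : ℕ} (β : Σ τ : ComposableArrows B q, Fib f v p τ)
    (τ : ComposableArrows B q) (h : β.1 = τ) : ∃ y : Fib f v p τ, β = ⟨τ, y⟩ := by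
  obtain ⟨τ', y⟩ := β
  subst h
  exact ⟨y, rfl⟩

theorem sigma_snd {q : ℕ} {τ : ComposableArrows B q} {y y' : Fib f v p τ}
    (h : (⟨τ, y⟩ : Σ τ : ComposableArrows B q, Fib f v p τ) = ⟨τ, y'⟩) : y = y' := by
  cases h
  rfl

theorem Yproj_rlp (hfv : f ≫ p = nerveMap (Cyl.inLo F) ≫ v)
    (hlp : ∀ (b : B) (q : ℕ), HasLiftingProperty (bd (CostructuredArrow F b) q).ι p) (q : ℕ) :
    HasLiftingProperty (SSet.boundary.{u} q).ι (Yproj f v p) := by
  refine ⟨fun {α β} sq => ?_⟩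
  obtain ⟨b, rfl⟩ := SSet.yonedaEquiv.symm.surjective β
  -- the chain
  have hb : ∃ τ : ComposableArrows B q, τ = b := ⟨b, rfl⟩
  obtain ⟨τ, hτ⟩ := hb
  have hmem : ∀ (m : SimplexCategory) (θ : m ⟶ ⦋q⦌), Miss θ →
      (SSet.stdSimplex.objEquiv.{u}.symm θ : (SSet.stdSimplex.{u}.obj ⦋q⦌).obj (op m)) ∈
        (SSet.boundary.{u} q).obj (op m) := by
    rintro m θ ⟨j, hj⟩ hsurj
    obtain ⟨i, hi⟩ := hsurj j
    exact hj i hi
  have hα : ∀ (m : SimplexCategory) (θ : m ⟶ ⦋q⦌) (hθ : Miss θ),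
      ∃ y : Fib f v p (res (n := ⦋q⦌) θ τ),
        α.app (op m) ⟨SSet.stdSimplex.objEquiv.symm θ, hmem m θ hθ⟩ =
          (⟨res (n := ⦋q⦌) θ τ, y⟩ : Σ τ : ComposableArrows B m.len, Fib f v p τ) := by
    intro m θ hθ
    refine sigma_eq _ _ ?_
    have h1 := congrArg (fun H : (SSet.boundary.{u} q : SSet.{u}) ⟶ nerve B =>
      H.app (op m) ⟨SSet.stdSimplex.objEquiv.symm θ, hmem m θ hθ⟩) sq.w
    rw [hτ]
    exact h1
  choose y hy using hα
  have y3 : ∀ m m' (κ : m' ⟶ m) (θ : m ⟶ ⦋q⦌) (hθ : Miss θ) (hθ' : Miss (κ ≫ θ)),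
      (y m' (κ ≫ θ) hθ').1 = nerveMap (push κ (res (n := ⦋q⦌) θ τ)) ≫ (y m θ hθ).1 := by
    intro m m' κ θ hθ hθ'
    have h1 := NatTrans.naturality_apply α κ.op ⟨SSet.stdSimplex.objEquiv.symm θ, hmem m θ hθ⟩
    have h2 : (⟨res (n := ⦋q⦌) (κ ≫ θ) τ, y m' (κ ≫ θ) hθ'⟩ :
        Σ τ : ComposableArrows B m'.len, Fib f v p τ) =
        ⟨res (n := ⦋q⦌) (κ ≫ θ) τ, Fib.res f v p κ (res (n := ⦋q⦌) θ τ) (y m θ hθ)⟩ := by
      rw [← hy]
      refine h1.trans ?_
      rw [hy]
      rfl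
    have h3 := sigma_snd h2
    rw [h3]
    rfl
  obtain ⟨z, hz1, hz2, hz3⟩ := main_ext (F := F) (τ := τ) (f := f) (v := v) (p := p)
    (y := fun m θ hθ => (y m θ hθ).1) hfv (fun m θ hθ => (y m θ hθ).2.1)
    (fun m θ hθ => (y m θ hθ).2.2) y3 (hlp _ _)
  let zz : (Yset f v p).obj (op ⦋q⦌) :=
    (⟨τ, ⟨z, hz1, hz2⟩⟩ : Σ τ : ComposableArrows B q, Fib f v p τ)
  refine ⟨⟨⟨SSet.yonedaEquiv.symm zz, ?_, ?_⟩⟩⟩
  · ext n x
    obtain ⟨x, hx⟩ := x
    obtain ⟨θ, rfl⟩ := SSet.stdSimplex.objEquiv.{u}.symm.surjective x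
    have hθ : Miss θ := by
      by_contra h
      apply hx
      intro j
      by_contra h2
      push Not at h2
      exact h ⟨j, h2⟩
    have h1 := hy n.unop θ hθ
    refine Eq.trans ?_ h1.symm
    have h3 : Fib.res f v p θ τ ⟨z, hz1, hz2⟩ = y n.unop θ hθ :=
      Subtype.ext (a1 := Fib.res f v p θ τ ⟨z, hz1, hz2⟩) (a2 := y n.unop θ hθ)
        (hz3 n.unop θ hθ)
    exact congrArg (fun w => (⟨res (n := ⦋q⦌) θ τ, w⟩ :
      Σ τ : ComposableArrows B n.unop.len, Fib f v p τ)) h3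
  · rw [SSet.yonedaEquiv_symm_comp]
    exact congrArg SSet.yonedaEquiv.symm hτ

end

section

variable (F)

/-- The retraction of the mapping cylinder. -/
def ret : Cyl F ⥤ B where
  obj
    | .lo a => F.obj a
    | .hi b => b
  map {x y} f := match x, y, f with
    | .lo _, .lo _, f => F.map f
    | .lo _, .hi _, f => f
    | .hi _, .hi _, f => f
  map_id x := by
    cases x
    · exact F.map_id _
    · rfl
  map_comp {x y z} f g := by
    cases x <;> cases y <;> cases z <;>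
      first
      | rfl
      | exact PEmpty.elim f
      | exact PEmpty.elim g
      | exact F.map_comp _ _

variable {F}

theorem ret_heq {x y : Cyl F} (g : x ⟶ y) {b b' : B} (hx : x = .hi b) (hy : y = .hi b') :
    HEq ((ret F).map g) g := by
  subst hx hy
  exact HEq.rfl

theorem cy_full {q : ℕ} {τ : ComposableArrows B q} {x y : Col F τ}
    (g : (cy τ).obj x ⟶ (cy τ).obj y)
    (h : ∀ i j, x = .hi i → y = .hi j → ∃ hij : i ≤ j, HEq g (τ.map (homOfLE hij))) :
    ∃ m : x ⟶ y, (cy τ).map m = g := by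
  cases x <;> cases y
  · exact ⟨g, rfl⟩
  · exact ⟨g, rfl⟩
  · exact PEmpty.elim g
  · obtain ⟨hij, hg⟩ := h _ _ rfl rfl
    exact ⟨⟨⟨hij⟩⟩, (eq_of_heq hg).symm⟩

/-- the tautological lift -/
theorem taut {N : SimplexCategory} (s : ComposableArrows (Cyl F) N.len) :
    ∃ w : ComposableArrows (Col F (s ⋙ ret F : ComposableArrows B N.len)) N.len,
      w ⋙ cy _ = s ∧ ∀ i, (∃ a, w.obj i = .lo a) ∨ w.obj i = .hi i := by
  have hch : ∀ i, ∃ x : Col F (s ⋙ ret F : ComposableArrows B N.len),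
      (cy _).obj x = s.obj i ∧ ((∃ a, x = .lo a) ∨ (x = .hi i ∧ ∃ b, s.obj i = .hi b)) := by
    intro i
    have h1 : (∃ a, s.obj i = .lo a) ∨ ∃ b, s.obj i = .hi b := by
      cases s.obj i with
      | lo a => exact Or.inl ⟨a, rfl⟩
      | hi b => exact Or.inr ⟨b, rfl⟩
    rcases h1 with ⟨a, ha⟩ | ⟨b, hb⟩
    · exact ⟨.lo a, ha.symm, Or.inl ⟨a, rfl⟩⟩
    · refine ⟨.hi i, ?_, Or.inr ⟨rfl, b, hb⟩⟩
      change Cyl.hi ((ret F).obj (s.obj i)) = s.obj i
      rw [hb]
      rfl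
  choose obj hobj hobj' using hch
  obtain ⟨w, hw, hw'⟩ := exists_lift (cy _) s obj hobj (by
    intro i j α
    obtain ⟨g, hg⟩ := heq_cast (hobj i) (hobj j) (s.map α)
    obtain ⟨m, hm⟩ := cy_full g (by
      intro i' j' h1 h2
      rcases hobj' i with ⟨a, ha⟩ | ⟨ha, b, hb⟩
      · rw [ha] at h1; cases h1
      rcases hobj' j with ⟨a', ha'⟩ | ⟨ha', b', hb'⟩
      · rw [ha'] at h2; cases h2
      rw [ha] at h1
      rw [ha'] at h2
      cases h1
      cases h2
      exact ⟨leOfHom α, hg.trans (ret_heq (s.map α) hb hb').symm⟩)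
    exact ⟨m, by rw [hm]; exact hg⟩)
  refine ⟨w, hw, fun i => ?_⟩
  rw [hw']
  rcases hobj' i with h | h
  · exact Or.inl h
  · exact Or.inr h.1

theorem taut_unique {N : SimplexCategory} {τ : ComposableArrows B N.len}
    {w w' : ComposableArrows (Col F τ) N.len} (h : w ⋙ cy τ = w' ⋙ cy τ)
    (t1 : ∀ i, (∃ a, w.obj i = .lo a) ∨ w.obj i = .hi i)
    (t2 : ∀ i, (∃ a, w'.obj i = .lo a) ∨ w'.obj i = .hi i) : w = w' := by
  refine lift_unique (cy (F := F) τ) w w' h fun i => ?_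
  have h4 : (cy (F := F) τ).obj (w.obj i) = (cy (F := F) τ).obj (w'.obj i) :=
    Functor.congr_obj h i
  rcases t1 i with ⟨a, ha⟩ | ha <;> rcases t2 i with ⟨b, hb⟩ | hb
  · rw [ha, hb] at h4 ⊢
    exact congrArg Col.lo (Cyl.lo.inj h4)
  · rw [ha, hb] at h4
    cases h4
  · rw [ha, hb] at h4
    cases h4
  · rw [ha, hb]

end

end

end P4

open P4

theorem stm4 : Stm4.{u} := by
  intro A B _ _ F U V p h
  refine ⟨fun {f v} sq => ?_⟩
  have hI : SSet.modelCategoryQuillen.I.{u}.rlp (Yproj f v p) := by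
    rintro _ _ _ ⟨n⟩
    exact Yproj_rlp sq.w h n
  rw [← SSet.rlp_monomorphisms] at hI
  have hl : HasLiftingProperty (⊥ : (nerve B).Subcomplex).ι (Yproj f v p) :=
    hI _ (by infer_instance)
  -- a section
  have sqb : CommSq (SSet.Subcomplex.isInitialBot.to (Yset f v p) :
      ((⊥ : (nerve B).Subcomplex) : SSet.{u}) ⟶ Yset f v p) (⊥ : (nerve B).Subcomplex).ι
      (Yproj f v p) (𝟙 (nerve B)) := ⟨SSet.Subcomplex.isInitialBot.hom_ext _ _⟩
  obtain ⟨σ, hσ⟩ : ∃ σ : nerve B ⟶ Yset f v p, σ ≫ Yproj f v p = 𝟙 _ :=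
    ⟨sqb.lift, sqb.fac_right⟩
  have hch : ∀ (N : SimplexCategory) (τ : ComposableArrows B N.len), ∃ y : Fib f v p τ,
      σ.app (op N) τ = (⟨τ, y⟩ : Σ τ : ComposableArrows B N.len, Fib f v p τ) := by
    intro N τ
    refine sigma_eq _ _ ?_
    exact congrArg (fun H : nerve B ⟶ nerve B => H.app (op N) τ) hσ
  choose y hy using hch
  have y3 : ∀ {N N' : SimplexCategory} (κ : N' ⟶ N) (τ : ComposableArrows B N.len),
      y N' (res κ τ) = Fib.res f v p κ τ (y N τ) := by
    intro N N' κ τ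
    have h1 := NatTrans.naturality_apply σ κ.op (x := τ)
    have h2 : (⟨res κ τ, y N' (res κ τ)⟩ : Σ τ : ComposableArrows B N'.len, Fib f v p τ) =
        ⟨res κ τ, Fib.res f v p κ τ (y N τ)⟩ := by
      rw [← hy]
      refine h1.trans ?_
      rw [hy]
      rfl
    exact sigma_snd h2
  have hw : ∀ (N : SimplexCategory) (s : ComposableArrows (Cyl F) N.len),
      ∃ w : ComposableArrows (Col F (s ⋙ ret F : ComposableArrows B N.len)) N.len,
      w ⋙ cy _ = s ∧ ∀ i, (∃ a, w.obj i = .lo a) ∨ w.obj i = .hi i := fun N s => taut s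
  choose w hw1 hw2 using hw
  refine ⟨⟨⟨{ app := fun n => ↾fun s => (y n.unop (s ⋙ ret F)).1.app n (w n.unop s),
              naturality := ?_ }, ?_, ?_⟩⟩⟩
  · intro n n' μ
    refine ConcreteCategory.hom_ext _ _ fun s => ?_
    have key : ∀ (s : ComposableArrows (Cyl F) n.unop.len)
        (s' : ComposableArrows (Cyl F) n'.unop.len), s' = (nerve (Cyl F)).map μ s →
        (y n'.unop (s' ⋙ ret F)).1.app n' (w n'.unop s') =
          U.map μ ((y n.unop (s ⋙ ret F)).1.app n (w n.unop s)) := by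
      intro s s' hs'
      subst hs'
      have e1 := y3 μ.unop (s ⋙ ret F : ComposableArrows B n.unop.len)
      have e2 : (w n'.unop ((nerve (Cyl F)).map μ s) ⋙
          push μ.unop (s ⋙ ret F : ComposableArrows B n.unop.len) :
          ComposableArrows (Col F (s ⋙ ret F : ComposableArrows B n.unop.len)) n'.unop.len) =
          (nerve (Col F (s ⋙ ret F : ComposableArrows B n.unop.len))).map μ (w n.unop s) := by
        have hc : (w n'.unop ((nerve (Cyl F)).map μ s) ⋙
            push μ.unop (s ⋙ ret F : ComposableArrows B n.unop.len)) ⋙ cy _ =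
            ((nerve (Col F (s ⋙ ret F : ComposableArrows B n.unop.len))).map μ
              (w n.unop s) : ComposableArrows _ n'.unop.len) ⋙ cy _ := by
          have h1 := hw1 n'.unop ((nerve (Cyl F)).map μ s)
          have h2 := congrArg (fun H => (w n'.unop ((nerve (Cyl F)).map μ s) ⋙ H :
            ComposableArrows (Cyl F) n'.unop.len))
            (push_cy (F := F) μ.unop (s ⋙ ret F : ComposableArrows B n.unop.len))
          refine (h2.trans h1).trans ?_
          exact congrArg (fun t : ComposableArrows (Cyl F) n.unop.len =>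
            (nerve (Cyl F)).map μ t) (hw1 n.unop s).symm
        refine lift_unique (cy (F := F) (s ⋙ ret F : ComposableArrows B n.unop.len)) _ _ hc
          fun i => ?_
        have h4 := Functor.congr_obj hc i
        change (cy _).obj ((push μ.unop (s ⋙ ret F : ComposableArrows B n.unop.len)).obj
          ((w n'.unop ((nerve (Cyl F)).map μ s)).obj i)) =
          (cy _).obj ((w n.unop s).obj (μ.unop.toOrderHom i)) at h4
        change (push μ.unop (s ⋙ ret F : ComposableArrows B n.unop.len)).obj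
          ((w n'.unop ((nerve (Cyl F)).map μ s)).obj i) =
          (w n.unop s).obj (μ.unop.toOrderHom i)
        rcases hw2 n'.unop ((nerve (Cyl F)).map μ s) i with ⟨a, ha⟩ | ha <;>
          rcases hw2 n.unop s (μ.unop.toOrderHom i) with ⟨b, hb⟩ | hb
        · rw [ha, hb] at h4 ⊢
          exact congrArg Col.lo (Cyl.lo.inj h4)
        · rw [ha, hb] at h4
          cases h4
        · rw [ha, hb] at h4
          cases h4
        · rw [ha, hb]
          rfl
      have e3 : (y n'.unop (((nerve (Cyl F)).map μ s :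
          ComposableArrows (Cyl F) n'.unop.len) ⋙ ret F)).1.app n'
          (w n'.unop ((nerve (Cyl F)).map μ s)) =
          (y n.unop (s ⋙ ret F)).1.app n' (w n'.unop ((nerve (Cyl F)).map μ s) ⋙
          push μ.unop (s ⋙ ret F : ComposableArrows B n.unop.len) :
          ComposableArrows (Col F (s ⋙ ret F : ComposableArrows B n.unop.len))
            n'.unop.len) :=
        congrArg (fun z : Fib f v p (res μ.unop (s ⋙ ret F : ComposableArrows B n.unop.len)) =>
          z.1.app n' (w n'.unop ((nerve (Cyl F)).map μ s))) e1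
      rw [e3, e2]
      exact NatTrans.naturality_apply (y n.unop (s ⋙ ret F)).1 μ (w n.unop s)
    exact key s _ rfl
  · ext n a
    have h1 : w n.unop (a ⋙ Cyl.inLo F : ComposableArrows (Cyl F) n.unop.len) =
        (a ⋙ inA _ : ComposableArrows (Col F ((a ⋙ Cyl.inLo F) ⋙ ret F :
          ComposableArrows B n.unop.len)) n.unop.len) :=
      taut_unique (N := n.unop) (hw1 n.unop _) (hw2 n.unop _) (fun i => Or.inl ⟨_, rfl⟩)
    have h2 := congrArg (fun H : nerve A ⟶ U => H.app n a)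
      (y n.unop ((a ⋙ Cyl.inLo F : ComposableArrows (Cyl F) n.unop.len) ⋙ ret F)).2.1
    refine Eq.trans ?_ h2
    exact congrArg (fun t => (y n.unop ((a ⋙ Cyl.inLo F :
      ComposableArrows (Cyl F) n.unop.len) ⋙ ret F)).1.app n t) h1
  · ext n s
    have h2 := congrArg (fun H : nerve (Col F (s ⋙ ret F : ComposableArrows B n.unop.len)) ⟶ V =>
      H.app n (w n.unop s)) (y n.unop (s ⋙ ret F)).2.2
    refine Eq.trans h2 ?_
    exact congrArg (fun t => v.app n t) (hw1 n.unop s)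

end Pool.Agent.H802.TA
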