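import Pool.Agent.H802.TA.Defs

universe u

open CategoryTheory MonoidalCategory Simplicial HomotopicalAlgebra Limits

namespace Pool.Agent.H802.TA

namespace P5

lemma Htpy.postcomp {X Y Z : SSet.{u}} {f g : X ⟶ Y} (h : Htpy f g) (k : Y ⟶ Z) :
    Htpy (f ≫ k) (g ≫ k) := by
  obtain ⟨H, h0, h1⟩ := h
  exact ⟨H ≫ k, by rw [← h0, Category.assoc], by rw [← h1, Category.assoc]⟩

lemma pre_comp {X Y W : SSet.{u}} (f : X ⟶ Y) (g : Y ⟶ W) (Z : SSet.{u}) (x : HoHom W Z) :
    HoHom.pre (f ≫ g) Z x = HoHom.pre f Z (HoHom.pre g Z x) := by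
  induction x using Quot.ind with
  | mk k =>
    change Quot.mk _ ((f ≫ g) ≫ k) = Quot.mk _ (f ≫ (g ≫ k))
    rw [Category.assoc]

lemma pre_id {X : SSet.{u}} (Z : SSet.{u}) (x : HoHom X Z) :
    HoHom.pre (𝟙 X) Z x = x := by
  induction x using Quot.ind with
  | mk k =>
    change Quot.mk _ (𝟙 X ≫ k) = Quot.mk _ k
    rw [Category.id_comp]

lemma pre_eq_of_htpy {X Y : SSet.{u}} {f g : X ⟶ Y} (h : Htpy f g) (Z : SSet.{u})
    (x : HoHom Y Z) : HoHom.pre f Z x = HoHom.pre g Z x := by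
  induction x using Quot.ind with
  | mk k => exact Quot.sound (Htpy.postcomp h k)

lemma WE.comp {X Y W : SSet.{u}} {f : X ⟶ Y} {g : Y ⟶ W} (hf : WE f) (hg : WE g) :
    WE (f ≫ g) := by
  intro Z _
  have : HoHom.pre (f ≫ g) Z = HoHom.pre f Z ∘ HoHom.pre g Z := by
    funext x; exact pre_comp f g Z x
  rw [this]
  exact (hf Z).comp (hg Z)

lemma we_of_inverse {X Y : SSet.{u}} (f : X ⟶ Y) (g : Y ⟶ X)
    (h1 : ∀ (Z : SSet.{u}) (x : HoHom X Z), HoHom.pre (f ≫ g) Z x = x)
    (h2 : ∀ (Z : SSet.{u}) (x : HoHom Y Z), HoHom.pre (g ≫ f) Z x = x) : WE f := by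
  intro Z _
  refine Function.bijective_iff_has_inverse.2 ⟨HoHom.pre g Z, ?_, ?_⟩
  · intro x; rw [← pre_comp]; exact h2 Z x
  · intro x; rw [← pre_comp]; exact h1 Z x

/-- The retraction of the mapping cylinder. -/
def r {A B : Type u} [SmallCategory A] [SmallCategory B] (F : A ⥤ B) : Cyl F ⥤ B where
  obj
    | .lo a => F.obj a
    | .hi b => b
  map {x y} f := match x, y, f with
    | .lo _, .lo _, f => F.map f
    | .lo _, .hi _, f => f
    | .hi _, .hi _, f => f
  map_id x := by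
    cases x
    · exact F.map_id _
    · rfl
  map_comp {x y z} f g := by
    cases x <;> cases y <;> cases z <;>
      first
      | exact F.map_comp _ _
      | rfl
      | exact PEmpty.elim f
      | exact PEmpty.elim g

/-- the natural transformation from the identity -/
def η {A B : Type u} [SmallCategory A] [SmallCategory B] (F : A ⥤ B) :
    𝟭 (Cyl F) ⟶ r F ⋙ Cyl.inHi F where
  app
    | .lo a => 𝟙 (F.obj a)
    | .hi b => 𝟙 b
  naturality x y f := by
    rcases x with a | b <;> rcases y with a' | b'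
    · exact (show F.map f ≫ 𝟙 (F.obj a') = 𝟙 (F.obj a) ≫ F.map f by
        rw [Category.comp_id, Category.id_comp])
    · exact (show (show F.obj a ⟶ b' from f) ≫ 𝟙 b' = 𝟙 (F.obj a) ≫ (show F.obj a ⟶ b' from f) by
        rw [Category.comp_id, Category.id_comp])
    · exact PEmpty.elim f
    · exact (show (show b ⟶ b' from f) ≫ 𝟙 b' = 𝟙 b ≫ (show b ⟶ b' from f) by
        rw [Category.comp_id, Category.id_comp])

lemma nerveMap_comp' {A B C : Type u} [SmallCategory A] [SmallCategory B] [SmallCategory C]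
    (F : A ⥤ B) (G : B ⥤ C) : nerveMap (F ⋙ G) = nerveMap F ≫ nerveMap G := rfl

lemma nerveMap_id' {A : Type u} [SmallCategory A] :
    nerveMap (𝟭 A) = 𝟙 (nerve A) := rfl

lemma inLo_faithful {A B : Type u} [SmallCategory A] [SmallCategory B] (F : A ⥤ B) :
    (Cyl.inLo F).Faithful := ⟨fun {_ _} {_ _} h => h⟩

lemma inLo_obj_injective {A B : Type u} [SmallCategory A] [SmallCategory B] (F : A ⥤ B) :
    Function.Injective (Cyl.inLo F).obj := fun _ _ h => Cyl.lo.inj h

lemma comp_injective {A B J : Type*} [Category A] [Category B] [Category J] (G : A ⥤ B)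
    [G.Faithful] (hG : Function.Injective G.obj) {s s' : J ⥤ A} (h : s ⋙ G = s' ⋙ G) :
    s = s' := by
  have hobj : ∀ i, s.obj i = s'.obj i := fun i => hG (Functor.congr_obj h i)
  refine CategoryTheory.Functor.ext hobj ?_
  intro i j f
  apply G.map_injective
  have h2 := Functor.congr_hom h f
  simp only [Functor.comp_map] at h2
  rw [h2]
  simp [eqToHom_map]

instance mono_inLo {A B : Type u} [SmallCategory A] [SmallCategory B] (F : A ⥤ B) :
    Mono (nerveMap (Cyl.inLo F)) := by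
  rw [NatTrans.mono_iff_mono_app]
  intro n
  rw [mono_iff_injective]
  intro s s' h
  have := inLo_faithful F
  exact comp_injective (Cyl.inLo F) (inLo_obj_injective F) h

lemma we_inLo (h1a : Stm1a.{u}) (h3 : Stm3.{u}) (h4 : Stm4.{u})
    {A B : Type u} [SmallCategory A] [SmallCategory B] (F : A ⥤ B)
    (hF : ∀ b : B, WCon (nerve (CostructuredArrow F b))) : WE (nerveMap (Cyl.inLo F)) := by
  rw [h1a]
  intro Z _ n
  apply h4
  intro b q
  exact (h1a (bd (CostructuredArrow F b) q).ι).1 (h3 _ (hF b) q) Z n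

lemma we_r (h2a : Stm2a.{u}) {A B : Type u} [SmallCategory A] [SmallCategory B] (F : A ⥤ B) :
    WE (nerveMap (r F)) := by
  apply we_of_inverse (nerveMap (r F)) (nerveMap (Cyl.inHi F))
  · intro Z x
    have h := h2a (η F)
    have h' := pre_eq_of_htpy h Z x
    rw [nerveMap_comp', nerveMap_id', pre_id] at h'
    exact h'.symm
  · intro Z x
    have e : nerveMap (Cyl.inHi F) ≫ nerveMap (r F) = 𝟙 (nerve B) := rfl
    rw [e, pre_id]

end P5

theorem thmA (h1a : Stm1a.{u}) (h2a : Stm2a.{u}) (h3 : Stm3.{u}) (h4 : Stm4.{u}) :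
    ThmA.{u} := by
  intro A B _ _ F hF
  have e : nerveMap F = nerveMap (Cyl.inLo F) ≫ nerveMap (P5.r F) := rfl
  rw [e]
  exact P5.WE.comp (P5.we_inLo h1a h3 h4 F hF) (P5.we_r h2a F)

end Pool.Agent.H802.TA
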