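import Pool.Agent.H802.TA.Basic

/-! Weak contractibility of posets: fibre lemma and double mapping cylinders. -/

universe v w

open CategoryTheory

namespace Pool.Agent.H802.TA

/-- A poset with weakly contractible nerve. -/
def AP (P : Type w) [PartialOrder P] : Prop := WCon (nerve P)

/-- Pointwise comparable monotone maps are connected by a natural transformation. -/
theorem nz_of_le {P Q : Type w} [PartialOrder P] [PartialOrder Q] {f g : P →o Q}
    (h : ∀ x, f x ≤ g x) : NZ f.monotone.functor g.monotone.functor :=
  NZ.of { app := fun x => homOfLE (h x), naturality := fun _ _ _ => Subsingleton.elim _ _ }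

theorem functor_congr {P Q : Type w} [PartialOrder P] [PartialOrder Q] {F G : P ⥤ Q}
    (h : ∀ x, F.obj x = G.obj x) : F = G :=
  CategoryTheory.Functor.ext h (fun _ _ _ => Subsingleton.elim _ _)

theorem ap_of_zigzag (h2a : Stm2a.{w}) {P Q : Type w} [PartialOrder P] [PartialOrder Q]
    (f : P →o Q) (g : Q →o P) (h1 : NZ (f.monotone.functor ⋙ g.monotone.functor) (𝟭 P))
    (h2 : NZ (g.monotone.functor ⋙ f.monotone.functor) (𝟭 Q)) : AP P ↔ AP Q :=
  wcon_of_nz h2a _ _ h1 h2

theorem ap_of_iso (h2a : Stm2a.{w}) {P Q : Type w} [PartialOrder P] [PartialOrder Q]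
    (e : P ≃o Q) : AP P ↔ AP Q := by
  refine ap_of_zigzag h2a (e : P →o Q) (e.symm : Q →o P) ?_ ?_
  · rw [show ((e : P →o Q).monotone.functor ⋙ (e.symm : Q →o P).monotone.functor) = 𝟭 P from
      functor_congr (fun x => e.symm_apply_apply x)]
    exact .refl _
  · rw [show ((e.symm : Q →o P).monotone.functor ⋙ (e : P →o Q).monotone.functor) = 𝟭 Q from
      functor_congr (fun x => e.apply_symm_apply x)]
    exact .refl _

/-- Reflection onto a subposet: `r ∘ i = id` and `x ≤ i (r x)`. -/
theorem ap_of_refl (h2a : Stm2a.{w}) {P Q : Type w} [PartialOrder P] [PartialOrder Q]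
    (i : Q →o P) (r : P →o Q) (h : ∀ y, r (i y) = y) (h' : ∀ x, x ≤ i (r x)) :
    AP P ↔ AP Q := by
  refine ap_of_zigzag h2a r i ?_ ?_
  · exact Relation.EqvGen.symm _ _
      (NZ.of { app := fun x => homOfLE (h' x), naturality := fun _ _ _ => Subsingleton.elim _ _ })
  · rw [show (i.monotone.functor ⋙ r.monotone.functor) = 𝟭 Q from functor_congr h]
    exact .refl _

theorem ap_of_top (h2b : Stm2b.{w}) {P : Type w} [PartialOrder P] (t : P) (h : ∀ x, x ≤ t) :
    AP P :=
  h2b (t := t) (Limits.IsTerminal.ofUniqueHom (fun x => homOfLE (h x))
    (fun _ _ => Subsingleton.elim _ _))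

theorem ap_of_bot (h2a : Stm2a.{w}) (h2b : Stm2b.{w}) {P : Type w} [PartialOrder P] (b : P)
    (h : ∀ x, b ≤ x) : AP P :=
  wcon_of_const h2a h2b b
    (NZ.of { app := fun x => homOfLE (h x), naturality := fun _ _ _ => Subsingleton.elim _ _ })

/-- Quillen's fibre lemma. -/
theorem fibre (h2a : Stm2a.{w}) (hA : ThmA.{w}) {P Q : Type w} [PartialOrder P] [PartialOrder Q]
    (f : P →o Q) (h : ∀ b : Q, AP {x : P // f x ≤ b}) : WE (nerveMap f.monotone.functor) := by
  refine hA _ (fun b => ?_)
  let Φ : CostructuredArrow f.monotone.functor b ⥤ {x : P // f x ≤ b} :=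
    { obj := fun c => ⟨c.left, leOfHom c.hom⟩
      map := fun {c d} g => homOfLE (leOfHom g.left)
      map_id := fun _ => Subsingleton.elim _ _
      map_comp := fun _ _ => Subsingleton.elim _ _ }
  let Ψ : {x : P // f x ≤ b} ⥤ CostructuredArrow f.monotone.functor b :=
    { obj := fun x => CostructuredArrow.mk (Y := x.1) (homOfLE x.2)
      map := fun {x y} g => CostructuredArrow.homMk (homOfLE (leOfHom g : x.1 ≤ y.1))
        (Subsingleton.elim _ _)
      map_id := fun _ => by ext; exact Subsingleton.elim _ _
      map_comp := fun _ _ => by ext; exact Subsingleton.elim _ _ }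
  refine (wcon_of_nz h2a Φ Ψ ?_ ?_).2 (h b)
  · exact NZ.of { app := fun c => CostructuredArrow.homMk (𝟙 c.left) (Subsingleton.elim _ _)
                  naturality := fun _ _ _ => by ext; exact Subsingleton.elim _ _ }
  · exact NZ.of { app := fun c => 𝟙 c, naturality := fun _ _ _ => Subsingleton.elim _ _ }

/-- The double mapping cylinder of `h : K → K'` and `g : K → L`. -/
inductive DM {K' K L : Type v} [PartialOrder K'] [PartialOrder K] [PartialOrder L]
    (h : K →o K') (g : K →o L) : Type v where
  | lf (x : K')
  | md (x : K)
  | rt (x : L)

namespace DM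

variable {K' K L : Type v} [PartialOrder K'] [PartialOrder K] [PartialOrder L]
  {h : K →o K'} {g : K →o L}

/-- The order of the double mapping cylinder: the middle copy is below both ends. -/
def le (x y : DM h g) : Prop :=
  match x, y with
  | .lf a, .lf b => a ≤ b
  | .md a, .md b => a ≤ b
  | .rt a, .rt b => a ≤ b
  | .md a, .lf b => h a ≤ b
  | .md a, .rt b => g a ≤ b
  | .lf _, .md _ => False
  | .lf _, .rt _ => False
  | .rt _, .md _ => False
  | .rt _, .lf _ => False

instance : PartialOrder (DM h g) where
  le := le
  le_refl x := by cases x <;> exact le_refl _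
  le_trans x y z h1 h2 := by
    cases x <;> cases y <;> cases z <;>
      first
      | exact False.elim h1
      | exact False.elim h2
      | exact le_trans (α := K) h1 h2
      | exact le_trans (α := K') h1 h2
      | exact le_trans (α := L) h1 h2
      | exact le_trans (h.monotone h1) h2
      | exact le_trans (g.monotone h1) h2
  le_antisymm x y h1 h2 := by
    cases x <;> cases y <;>
      first
      | exact False.elim h1
      | exact False.elim h2
      | exact congrArg _ (le_antisymm (α := K) h1 h2)
      | exact congrArg _ (le_antisymm (α := K') h1 h2)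
      | exact congrArg _ (le_antisymm (α := L) h1 h2)

@[simp] theorem lf_le_lf {a b : K'} : (lf a : DM h g) ≤ lf b ↔ a ≤ b := Iff.rfl
@[simp] theorem md_le_md {a b : K} : (md a : DM h g) ≤ md b ↔ a ≤ b := Iff.rfl
@[simp] theorem rt_le_rt {a b : L} : (rt a : DM h g) ≤ rt b ↔ a ≤ b := Iff.rfl
@[simp] theorem md_le_lf {a : K} {b : K'} : (md a : DM h g) ≤ lf b ↔ h a ≤ b := Iff.rfl
@[simp] theorem md_le_rt {a : K} {b : L} : (md a : DM h g) ≤ rt b ↔ g a ≤ b := Iff.rfl
@[simp] theorem not_lf_le_md {a : K'} {b : K} : ¬ (lf a : DM h g) ≤ md b := fun h => h
@[simp] theorem not_lf_le_rt {a : K'} {b : L} : ¬ (lf a : DM h g) ≤ rt b := fun h => h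
@[simp] theorem not_rt_le_md {a : L} {b : K} : ¬ (rt a : DM h g) ≤ md b := fun h => h
@[simp] theorem not_rt_le_lf {a : L} {b : K'} : ¬ (rt a : DM h g) ≤ lf b := fun h => h

end DM

/-- The index poset `lf > md < rt`. -/
inductive Vee : Type w where
  | lf | md | rt

namespace Vee
/-- The order of the index poset. -/
def le (x y : Vee.{w}) : Prop := x = y ∨ x = .md

instance : PartialOrder Vee.{w} where
  le := le
  le_refl x := .inl rfl
  le_trans x y z h1 h2 := by
    rcases h1 with rfl | rfl
    · exact h2
    · exact .inr rfl
  le_antisymm x y h1 h2 := by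
    rcases h1 with rfl | rfl
    · rfl
    · rcases h2 with h | h
      · exact h.symm
      · exact h.symm

end Vee

/-- The projection of the double mapping cylinder on the index poset. -/
def DM.toVee {K' K L : Type w} [PartialOrder K'] [PartialOrder K] [PartialOrder L]
    (h : K →o K') (g : K →o L) : DM h g →o Vee.{w} where
  toFun x := match x with
    | .lf _ => .lf
    | .md _ => .md
    | .rt _ => .rt
  monotone' x y hxy := by
    cases x <;> cases y <;>
      first
      | exact False.elim hxy
      | exact .inl rfl
      | exact .inr rfl

theorem ap_dm (h2a : Stm2a.{w}) (h2b : Stm2b.{w}) (hA : ThmA.{w}) {K' K L : Type w}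
    [PartialOrder K'] [PartialOrder K] [PartialOrder L] (h : K →o K') (g : K →o L)
    (hK' : AP K') (hK : AP K) (hL : AP L) : AP (DM h g) := by
  have key : WE (nerveMap (DM.toVee h g).monotone.functor) := by
    refine fibre h2a hA _ (fun b => ?_)
    cases b with
    | md =>
      let e : {x : DM h g // DM.toVee h g x ≤ Vee.md} ≃o K :=
        { toFun := fun x => match x with
            | ⟨.md a, _⟩ => a
            | ⟨.lf a, p⟩ => absurd p (by rintro (h | h) <;> exact Vee.noConfusion h)
            | ⟨.rt a, p⟩ => absurd p (by rintro (h | h) <;> exact Vee.noConfusion h)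
          invFun := fun a => ⟨.md a, .inl rfl⟩
          left_inv := by
            rintro ⟨x, p⟩
            cases x with
            | md a => rfl
            | lf a => exact absurd p (by rintro (h | h) <;> exact Vee.noConfusion h)
            | rt a => exact absurd p (by rintro (h | h) <;> exact Vee.noConfusion h)
          right_inv := fun a => rfl
          map_rel_iff' := by
            rintro ⟨x, p⟩ ⟨y, q⟩
            cases x with
            | md a =>
              cases y with
              | md b => exact Iff.rfl
              | lf a => exact absurd q (by rintro (h | h) <;> exact Vee.noConfusion h)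
              | rt a => exact absurd q (by rintro (h | h) <;> exact Vee.noConfusion h)
            | lf a => exact absurd p (by rintro (h | h) <;> exact Vee.noConfusion h)
            | rt a => exact absurd p (by rintro (h | h) <;> exact Vee.noConfusion h) }
      exact (ap_of_iso h2a e).2 hK
    | lf =>
      let r : {x : DM h g // DM.toVee h g x ≤ Vee.lf} →o K' :=
        { toFun := fun x => match x with
            | ⟨.md a, _⟩ => h a
            | ⟨.lf a, _⟩ => a
            | ⟨.rt a, p⟩ => absurd p (by rintro (h | h) <;> exact Vee.noConfusion h)
          monotone' := by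
            rintro ⟨x, p⟩ ⟨y, q⟩ hxy
            change x ≤ y at hxy
            cases x with
            | md a =>
              cases y with
              | md b => exact h.monotone hxy
              | lf b => exact hxy
              | rt b => exact absurd q (by rintro (h | h) <;> exact Vee.noConfusion h)
            | lf a =>
              cases y with
              | md b => exact False.elim hxy
              | lf b => exact hxy
              | rt b => exact absurd q (by rintro (h | h) <;> exact Vee.noConfusion h)
            | rt a => exact absurd p (by rintro (h | h) <;> exact Vee.noConfusion h) }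
      let i : K' →o {x : DM h g // DM.toVee h g x ≤ Vee.lf} :=
        { toFun := fun a => ⟨.lf a, .inl rfl⟩
          monotone' := fun a b hab => hab }
      refine (ap_of_refl h2a i r (fun _ => rfl) ?_).2 hK'
      rintro ⟨x, p⟩
      change x ≤ _
      cases x with
      | md a => exact le_refl (h a)
      | lf a => exact le_refl a
      | rt a => exact absurd p (by rintro (h | h) <;> exact Vee.noConfusion h)
    | rt =>
      let r : {x : DM h g // DM.toVee h g x ≤ Vee.rt} →o L :=
        { toFun := fun x => match x with
            | ⟨.md a, _⟩ => g a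
            | ⟨.rt a, _⟩ => a
            | ⟨.lf a, p⟩ => absurd p (by rintro (h | h) <;> exact Vee.noConfusion h)
          monotone' := by
            rintro ⟨x, p⟩ ⟨y, q⟩ hxy
            change x ≤ y at hxy
            cases x with
            | md a =>
              cases y with
              | md b => exact g.monotone hxy
              | rt b => exact hxy
              | lf b => exact absurd q (by rintro (h | h) <;> exact Vee.noConfusion h)
            | rt a =>
              cases y with
              | md b => exact False.elim hxy
              | rt b => exact hxy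
              | lf b => exact absurd q (by rintro (h | h) <;> exact Vee.noConfusion h)
            | lf a => exact absurd p (by rintro (h | h) <;> exact Vee.noConfusion h) }
      let i : L →o {x : DM h g // DM.toVee h g x ≤ Vee.rt} :=
        { toFun := fun a => ⟨.rt a, .inl rfl⟩
          monotone' := fun a b hab => hab }
      refine (ap_of_refl h2a i r (fun _ => rfl) ?_).2 hL
      rintro ⟨x, p⟩
      change x ≤ _
      cases x with
      | md a => exact le_refl (g a)
      | rt a => exact le_refl a
      | lf a => exact absurd p (by rintro (h | h) <;> exact Vee.noConfusion h)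
  exact (wcon_iff key).2 (ap_of_bot h2a h2b (Vee.md) (fun x => .inr rfl))

end Pool.Agent.H802.TA
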