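import Pool.Agent.H802.TA.Obj

/-! Double mapping cylinders in the category of weakly contractible posets over `D`;
pushouts, pullbacks and the cylinder factorization. -/

universe u

open CategoryTheory Limits

namespace Pool.Agent.H802.TA

variable {D : Type (u + 1)} [SmallCategory D]

/-- A monotone map between lifted posets. -/
def up {K L : Type u} [PartialOrder K] [PartialOrder L] (f : K →o L) :
    ULift.{u + 1} K →o ULift.{u + 1} L where
  toFun x := ⟨f x.down⟩
  monotone' _ _ h := f.monotone h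

/-- Lifting commutes with double mapping cylinders. -/
def upDM {K' K L : Type u} [PartialOrder K'] [PartialOrder K] [PartialOrder L]
    (h : K →o K') (g : K →o L) : ULift.{u + 1} (DM h g) ≃o DM (up h) (up g) where
  toFun x := match x with
    | ⟨.lf a⟩ => .lf ⟨a⟩
    | ⟨.md a⟩ => .md ⟨a⟩
    | ⟨.rt a⟩ => .rt ⟨a⟩
  invFun x := match x with
    | .lf a => ⟨.lf a.down⟩
    | .md a => ⟨.md a.down⟩
    | .rt a => ⟨.rt a.down⟩
  left_inv := by rintro ⟨x⟩; cases x <;> rfl
  right_inv := by rintro x; cases x <;> rfl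
  map_rel_iff' := by
    rintro ⟨x⟩ ⟨y⟩
    cases x <;> cases y <;> exact Iff.rfl

/-- The hypotheses coming from Theorem A. -/
structure Hyp : Prop where
  h2a : Stm2a.{u + 1}
  h2b : Stm2b.{u + 1}
  hA : ThmA.{u + 1}

/-- The double mapping cylinder as an object. -/
def dm (H : Hyp.{u}) {X Y Z : Ob D} (h : Y ⟶ X) (g : Y ⟶ Z) : Ob D where
  K := DM h.f g.f
  F := dmF h g
  asph := (ap_of_iso H.h2a (upDM h.f g.f)).2
    (ap_dm H.h2a H.h2b H.hA (up h.f) (up g.f) X.asph Y.asph Z.asph)

/-- The left end. -/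
def dmL (H : Hyp.{u}) {X Y Z : Ob D} (h : Y ⟶ X) (g : Y ⟶ Z) : X ⟶ dm H h g where
  f := { toFun := fun x => DM.lf x, monotone' := fun _ _ h => h }
  comm _ := rfl

/-- The cylinder of a morphism. -/
abbrev cyl (H : Hyp.{u}) {Y Z : Ob D} (g : Y ⟶ Z) : Ob D := dm H (𝟙 Y) g

/-- The projection of the cylinder on the target. -/
def cylP (H : Hyp.{u}) {Y Z : Ob D} (g : Y ⟶ Z) : cyl H g ⟶ Z where
  f :=
    { toFun := fun x => match x with
        | .lf a => g.f a
        | .md a => g.f a
        | .rt a => a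
      monotone' := fun x y h => by
        cases x <;> cases y <;>
          first
          | exact False.elim h
          | exact g.f.monotone h
          | exact h }
  comm {x y} h := by
    cases x <;> cases y <;>
      first
      | exact False.elim h
      | exact g.comm (show _ ≤ _ from h)
      | exact (g.comm (show _ ≤ _ from h)).trans (mk_eqToHom_comp (hom_obj (𝟙 Y) _) _).symm
      | exact (mk_eqToHom_comp (hom_obj g _) _).symm
      | rfl

theorem cyl_fac (H : Hyp.{u}) {Y Z : Ob D} (g : Y ⟶ Z) :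
    dmL H (𝟙 Y) g ≫ cylP H g = g := hom_ext' (fun _ => rfl)

/-- The map from the cylinder to the double mapping cylinder. -/
def cylQ (H : Hyp.{u}) {X Y Z : Ob D} (h : Y ⟶ X) (g : Y ⟶ Z) : cyl H g ⟶ dm H h g where
  f :=
    { toFun := fun x => match x with
        | .lf a => .lf (h.f a)
        | .md a => .md a
        | .rt a => .rt a
      monotone' := fun x y p => by
        cases x <;> cases y <;>
          first
          | exact False.elim p
          | exact h.f.monotone (show _ ≤ _ from p)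
          | exact p }
  comm {x y} p := by
    cases x <;> cases y <;>
      first
      | exact False.elim p
      | exact h.comm (show _ ≤ _ from p)
      | exact (mk_eqToHom_comp (hom_obj h _) _).trans ((h.comm (show _ ≤ _ from p)).trans
          (mk_eqToHom_comp (hom_obj (𝟙 Y) _) _).symm)
      | rfl

theorem lab_congr {P : Type u} [PartialOrder P] (F : P ⥤ D) {x x' y y' : P} (hx : x = x')
    (hy : y = y') (h : x ≤ y) (h' : x' ≤ y') :
    Arrow.mk (F.map (homOfLE h)) = Arrow.mk (F.map (homOfLE h')) := by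
  subst hx; subst hy; rfl

/-- The underlying function of the universal map out of the double mapping cylinder. -/
def dmFun (H : Hyp.{u}) {X Y Z T : Ob D} (h : Y ⟶ X) (g : Y ⟶ Z) (a : X ⟶ T)
    (b : cyl H g ⟶ T) (x : DM h.f g.f) : T.K :=
  match x with
  | .lf x => a.f x
  | .md x => b.f (DM.md x)
  | .rt x => b.f (DM.rt x)

theorem dmFun_eq (H : Hyp.{u}) {X Y Z T : Ob D} (h : Y ⟶ X) (g : Y ⟶ Z) (a : X ⟶ T)
    (b : cyl H g ⟶ T) (e : dmL H (𝟙 Y) g ≫ b = h ≫ a) (y : Y.K) :
    b.f (DM.lf y) = a.f (h.f y) :=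
  congrArg (fun q : Y ⟶ T => Ob.Hom.f q y) e

theorem dmFun_mono (H : Hyp.{u}) {X Y Z T : Ob D} (h : Y ⟶ X) (g : Y ⟶ Z) (a : X ⟶ T)
    (b : cyl H g ⟶ T) (e : dmL H (𝟙 Y) g ≫ b = h ≫ a) : Monotone (dmFun H h g a b) := by
  intro x y p
  cases x <;> cases y <;>
    first
    | exact False.elim p
    | exact a.f.monotone (show _ ≤ _ from p)
    | exact b.f.monotone (show _ ≤ _ from p)
    | exact (b.f.monotone (show DM.md _ ≤ DM.lf _ from le_refl _)).trans
        ((dmFun_eq H h g a b e _).le.trans (a.f.monotone (show _ ≤ _ from p)))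

/-- The universal map out of the double mapping cylinder. -/
def dmDesc (H : Hyp.{u}) {X Y Z T : Ob D} (h : Y ⟶ X) (g : Y ⟶ Z) (a : X ⟶ T)
    (b : cyl H g ⟶ T) (e : dmL H (𝟙 Y) g ≫ b = h ≫ a) : dm H h g ⟶ T where
  f := ⟨dmFun H h g a b, dmFun_mono H h g a b e⟩
  comm := fun {x y} p => by
      cases x with
      | lf x =>
        cases y with
        | lf y => exact a.comm (show _ ≤ _ from p)
        | md y => exact False.elim p
        | rt y => exact False.elim p
      | md x =>
        cases y with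
        | lf y =>
          have q : h.f x ≤ y := p
          have p1 : b.f (DM.md x) ≤ b.f (DM.lf x) :=
            b.f.monotone (show DM.md x ≤ DM.lf x from le_refl x)
          have p2 : b.f (DM.lf x) ≤ a.f y :=
            (dmFun_eq H h g a b e x).le.trans (a.f.monotone q)
          have c1 : Arrow.mk (T.F.map (homOfLE p1)) = Arrow.mk (𝟙 (Y.F.obj x)) := by
            have := b.comm (show DM.md x ≤ DM.lf x from le_refl x)
            refine this.trans ?_
            refine (mk_eqToHom_comp (hom_obj (𝟙 Y) x) _).trans ?_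
            exact congrArg Arrow.mk (Y.F.map_id x)
          have c2 : Arrow.mk (T.F.map (homOfLE p2)) = Arrow.mk (X.F.map (homOfLE q)) :=
            (lab_congr T.F (dmFun_eq H h g a b e x) rfl p2 (a.f.monotone q)).trans (a.comm q)
          have c3 : T.F.map (homOfLE (dmFun_mono H h g a b e p)) =
              T.F.map (homOfLE p1) ≫ T.F.map (homOfLE p2) := by
            rw [← Functor.map_comp]
            rfl
          refine (congrArg Arrow.mk c3).trans ((mk_id_comp _ _ c1).trans (c2.trans ?_))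
          exact (mk_eqToHom_comp (hom_obj h x) _).symm
        | md y => exact b.comm (show DM.md x ≤ DM.md y from p)
        | rt y => exact b.comm (show DM.md x ≤ DM.rt y from p)
      | rt x =>
        cases y with
        | lf y => exact False.elim p
        | md y => exact False.elim p
        | rt y => exact b.comm (show DM.rt x ≤ DM.rt y from p)

theorem isPushout_dm (H : Hyp.{u}) {X Y Z : Ob D} (h : Y ⟶ X) (g : Y ⟶ Z) :
    IsPushout (dmL H (𝟙 Y) g) h (cylQ H h g) (dmL H h g) :=
  ⟨⟨hom_ext' (fun _ => rfl)⟩, ⟨PushoutCocone.IsColimit.mk _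
    (fun s => dmDesc H h g s.inr s.inl s.condition)
    (fun s => hom_ext' (fun x => by
      cases x with
      | lf x => exact (dmFun_eq H h g s.inr s.inl s.condition x).symm
      | md x => rfl
      | rt x => rfl))
    (fun s => hom_ext' (fun x => rfl))
    (fun s m h1 h2 => hom_ext' (fun x => by
      cases x with
      | lf x => exact congrArg (fun q : X ⟶ s.pt => Ob.Hom.f q x) h2
      | md x => exact congrArg (fun q : cyl H g ⟶ s.pt => Ob.Hom.f q (DM.md x)) h1
      | rt x => exact congrArg (fun q : cyl H g ⟶ s.pt => Ob.Hom.f q (DM.rt x)) h1))⟩⟩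

/-! ### Pullbacks of the projection of the cylinder -/

/-- The underlying poset of the pullback. -/
abbrev PB {Y Z L : Ob D} (H : Hyp.{u}) (g : Y ⟶ Z) (q : L ⟶ Z) : Type u :=
  {z : DM (Ob.Hom.f (𝟙 Y)) g.f × L.K // (cylP H g).f z.1 = q.f z.2}

theorem ap_pb {Y Z L : Ob D} (H : Hyp.{u}) (g : Y ⟶ Z) (q : L ⟶ Z) :
    AP (ULift.{u + 1} (PB H g q)) := by
  let pr : ULift.{u + 1} (PB H g q) →o ULift.{u + 1} L.K :=
    { toFun := fun z => ⟨z.down.1.2⟩, monotone' := fun _ _ h => h.2 }
  let s : ULift.{u + 1} L.K →o ULift.{u + 1} (PB H g q) :=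
    { toFun := fun l => ⟨⟨(DM.rt (q.f l.down), l.down), rfl⟩⟩
      monotone' := fun _ _ h => ⟨q.f.monotone h, h⟩ }
  let θ : ULift.{u + 1} (PB H g q) →o ULift.{u + 1} (PB H g q) :=
    { toFun := fun z => match z with
        | ⟨⟨(.lf a, l), e⟩⟩ => ⟨⟨(.md a, l), e⟩⟩
        | ⟨⟨(.md a, l), e⟩⟩ => ⟨⟨(.md a, l), e⟩⟩
        | ⟨⟨(.rt a, l), e⟩⟩ => ⟨⟨(.rt a, l), e⟩⟩
      monotone' := by
        rintro ⟨⟨⟨x, l⟩, e⟩⟩ ⟨⟨⟨y, l'⟩, e'⟩⟩ ⟨h1, h2⟩
        cases x <;> cases y <;>
          first
          | exact False.elim h1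
          | exact ⟨h1, h2⟩ }
  refine (ap_of_zigzag H.h2a pr s ?_ ?_).2 L.asph
  · have h1 : NZ θ.monotone.functor (𝟭 _) := by
      refine NZ.of { app := fun z => homOfLE ?_, naturality := fun _ _ _ => Subsingleton.elim _ _ }
      obtain ⟨⟨⟨x, l⟩, e⟩⟩ := z
      cases x
      · exact ⟨le_refl (α := Y.K) _, le_refl (α := L.K) _⟩
      · exact ⟨le_refl (α := Y.K) _, le_refl (α := L.K) _⟩
      · exact ⟨le_refl (α := Z.K) _, le_refl (α := L.K) _⟩
    have h2 : NZ θ.monotone.functor (pr.monotone.functor ⋙ s.monotone.functor) := by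
      refine NZ.of { app := fun z => homOfLE ?_, naturality := fun _ _ _ => Subsingleton.elim _ _ }
      obtain ⟨⟨⟨x, l⟩, e⟩⟩ := z
      cases x
      · exact ⟨e.le, le_refl (α := L.K) _⟩
      · exact ⟨e.le, le_refl (α := L.K) _⟩
      · exact ⟨e.le, le_refl (α := L.K) _⟩
    exact (Relation.EqvGen.symm _ _ h2).trans _ _ _ h1
  · rw [show (s.monotone.functor ⋙ pr.monotone.functor) = 𝟭 _ from functor_congr (fun _ => rfl)]
    exact .refl _

/-- The pullback object. -/
def pb {Y Z L : Ob D} (H : Hyp.{u}) (g : Y ⟶ Z) (q : L ⟶ Z) : Ob D where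
  K := PB H g q
  F := (show Monotone (fun z : PB H g q => z.1.2) from
    fun x y h => (show x.1 ≤ y.1 from h).2).functor ⋙ L.F
  asph := ap_pb H g q

/-- The first projection. -/
def pbFst {Y Z L : Ob D} (H : Hyp.{u}) (g : Y ⟶ Z) (q : L ⟶ Z) : pb H g q ⟶ cyl H g where
  f := { toFun := fun z => z.1.1, monotone' := fun _ _ h => h.1 }
  comm {x y} h := by
    have h1 := (cylP H g).comm (show x.1.1 ≤ y.1.1 from h.1)
    have h2 := q.comm (show x.1.2 ≤ y.1.2 from h.2)
    exact h1.symm.trans ((lab_congr Z.F x.2 y.2 _ _).trans h2)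

/-- The second projection. -/
def pbSnd {Y Z L : Ob D} (H : Hyp.{u}) (g : Y ⟶ Z) (q : L ⟶ Z) : pb H g q ⟶ L where
  f := { toFun := fun z => z.1.2, monotone' := fun _ _ h => h.2 }
  comm {x y} h := rfl

theorem isPullback_pb {Y Z L : Ob D} (H : Hyp.{u}) (g : Y ⟶ Z) (q : L ⟶ Z) :
    IsPullback (pbFst H g q) (pbSnd H g q) (cylP H g) q :=
  ⟨⟨hom_ext' (fun z => z.2)⟩, ⟨PullbackCone.IsLimit.mk _
    (fun s =>
      { f :=
          { toFun := fun x => ⟨(s.fst.f x, s.snd.f x),
              congrArg (fun r : s.pt ⟶ Z => Ob.Hom.f r x) s.condition⟩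
            monotone' := fun _ _ h => ⟨s.fst.f.monotone h, s.snd.f.monotone h⟩ }
        comm := fun h => s.snd.comm h })
    (fun s => hom_ext' (fun x => rfl))
    (fun s => hom_ext' (fun x => rfl))
    (fun s m h1 h2 => hom_ext' (fun x => Subtype.ext (Prod.ext
      (congrArg (fun r : s.pt ⟶ cyl H g => Ob.Hom.f r x) h1)
      (congrArg (fun r : s.pt ⟶ L => Ob.Hom.f r x) h2))))⟩⟩

/-- Functoriality of the cylinder. -/
def cylMap (H : Hyp.{u}) {Y Z Y' Z' : Ob D} (g : Y ⟶ Z) (g' : Y' ⟶ Z') (a : Y ⟶ Y')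
    (b : Z ⟶ Z') (e : a ≫ g' = g ≫ b) : cyl H g ⟶ cyl H g' where
  f :=
    { toFun := fun x => match x with
        | .lf x => .lf (a.f x)
        | .md x => .md (a.f x)
        | .rt x => .rt (b.f x)
      monotone' := fun x y p => by
        cases x <;> cases y <;>
          first
          | exact False.elim p
          | exact a.f.monotone (show _ ≤ _ from p)
          | exact b.f.monotone (show _ ≤ _ from p)
          | exact (congrArg (fun q : Y ⟶ Z' => Ob.Hom.f q _) e).le.trans
              (b.f.monotone (show _ ≤ _ from p)) }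
  comm {x y} p := by
    cases x with
    | lf x =>
      cases y with
      | lf y => exact a.comm (show _ ≤ _ from p)
      | md y => exact False.elim p
      | rt y => exact False.elim p
    | md x =>
      cases y with
      | lf y =>
        exact (mk_eqToHom_comp (hom_obj (𝟙 Y') _) _).trans ((a.comm (show x ≤ y from p)).trans
          (mk_eqToHom_comp (hom_obj (𝟙 Y) _) _).symm)
      | md y => exact a.comm (show _ ≤ _ from p)
      | rt y =>
        have q : g.f x ≤ y := p
        have e' : g'.f (a.f x) = b.f (g.f x) := congrArg (fun q : Y ⟶ Z' => Ob.Hom.f q x) e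
        exact (mk_eqToHom_comp (hom_obj g' _) _).trans
          ((lab_congr Z'.F e' rfl _ (b.f.monotone q)).trans ((b.comm q).trans
            (mk_eqToHom_comp (hom_obj g _) _).symm))
    | rt x =>
      cases y with
      | lf y => exact False.elim p
      | md y => exact False.elim p
      | rt y => exact b.comm (show _ ≤ _ from p)

end Pool.Agent.H802.TA
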